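import Pool.Agent.Lib.MP_391708_nt.X.SpecVAR
import Pool.Agent.Lib.MP_391708_nt.MR.Basic

/-!
# Theorem X of MP_391708_nt, part VAR, module BXS: one `VT` is bounded by tent forms of the cells
-/

set_option autoImplicit false

namespace Pool.Agent.Lib.MP391708.XV

open Finset Filter Topology Pool.Agent.Lib.MP391708.MR
open scoped ComplexConjugate

namespace BXSM

lemma om1_nonneg (κ x : ℝ) : 0 ≤ om1 κ x := le_max_left _ _

lemma om1_le_one (κ x : ℝ) : om1 κ x ≤ 1 := max_le zero_le_one (min_le_left _ _)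

lemma om1_zero (κ : ℝ) : om1 κ 0 = 0 := by
  unfold om1
  refine max_eq_left ((min_le_right _ _).trans ((min_le_left _ _).trans ?_))
  norm_num

lemma om1_ne {κ x : ℝ} (hκ : 1 ≤ κ) (h : om1 κ x ≠ 0) : x < 2 * κ := by
  by_contra h1
  push Not at h1
  apply h
  unfold om1
  refine max_eq_left ((min_le_right _ _).trans ((min_le_right _ _).trans ?_))
  have h2 : 2 ≤ x / κ := by rw [le_div_iff₀ (by linarith)]; exact h1
  linarith

lemma om2_nonneg (x : ℝ) : 0 ≤ om2 x := mul_nonneg (by norm_num) (le_max_left _ _)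

lemma om2_le_two (x : ℝ) : om2 x ≤ 2 := by
  unfold om2 tri
  have : max 0 (1 - |x / 4|) ≤ 1 := max_le zero_le_one (by linarith [abs_nonneg (x / 4)])
  linarith

lemma om2_ne {x : ℝ} (h : om2 x ≠ 0) : |x| < 4 := by
  by_contra h1
  push Not at h1
  apply h
  unfold om2 tri
  have h2 : 1 ≤ |x / 4| := by
    rw [abs_div, abs_of_pos (by norm_num : (0 : ℝ) < 4), le_div_iff₀ (by norm_num)]; linarith
  rw [max_eq_left (by linarith), mul_zero]

lemma nm_md (t : ℕ) : nm (md t) = t ^ 2 := by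
  unfold nm md
  simp

lemma nm_sub {t : ℕ} {z z' u : Gi} (h : z' - z = md t * u) :
    (nm (z' - z) : ℝ) = (t : ℝ) ^ 2 * nm u := by
  rw [h, nm_mul, nm_md]
  push_cast
  ring

lemma crs_sub {t : ℕ} {z z' u : Gi} (h : z' - z = md t * u) :
    (crs z' z : ℝ) = (t : ℝ) * crs u z := by
  have h2 : crs z' z = (t : ℤ) * crs u z := by
    have h3 : z' = md t * u + z := by rw [← h]; ring
    have h4 : z'.re = (t : ℤ) * u.re + z.re := by rw [h3]; simp
    have h5 : z'.im = (t : ℤ) * u.im + z.im := by rw [h3]; simp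
    unfold crs
    rw [h4, h5]; ring
  rw [h2]; push_cast; ring

lemma nm_sub_le (z z' : Gi) : (nm (z' - z) : ℝ) ≤ 2 * (nm z + nm z') := by
  rw [nm_castR, nm_castR, nm_castR]
  have h1 : (z' - z).re = z'.re - z.re := by simp
  have h2 : (z' - z).im = z'.im - z.im := by simp
  rw [h1, h2]
  push_cast
  nlinarith [sq_nonneg ((z'.re : ℝ) + z.re), sq_nonneg ((z'.im : ℝ) + z.im)]

lemma nest {S : Finset Gi} (p : Gi → Prop) (r : Gi → Gi → Prop) [DecidablePred p]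
    [∀ z, DecidablePred (r z)] [DecidablePred (fun q : Gi × Gi => p q.1 ∧ r q.1 q.2)]
    (F : Gi → Gi → ℂ) :
    ∑ z ∈ S.filter p, ∑ z' ∈ S.filter (r z), F z z' =
      ∑ q ∈ (S ×ˢ S).filter (fun q => p q.1 ∧ r q.1 q.2), F q.1 q.2 := by
  rw [Finset.sum_filter, Finset.sum_filter, Finset.sum_product]
  refine Finset.sum_congr rfl fun z _ => ?_
  by_cases hp : p z
  · rw [if_pos hp, Finset.sum_filter]
    refine Finset.sum_congr rfl fun z' _ => ?_
    by_cases hr : r z z'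
    · rw [if_pos hr, if_pos ⟨hp, hr⟩]
    · rw [if_neg hr, if_neg fun h => hr h.2]
  · rw [if_neg hp]
    symm
    exact Finset.sum_eq_zero fun z' _ => if_neg fun h => hp h.1

/-- the kernel -/
noncomputable def krn (κ K B : ℝ) (t : ℕ) (z z' : Gi) : ℝ :=
  if pos z z' then om1 κ ((nm (z' - z) : ℝ) / ((t : ℝ) ^ 2 * K)) *
    om2 ((crs z' z : ℝ) / ((t : ℝ) * B)) else 0

lemma krn_nonneg (κ K B : ℝ) (t : ℕ) (z z' : Gi) : 0 ≤ krn κ K B t z z' := by
  unfold krn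
  split_ifs
  · exact mul_nonneg (om1_nonneg _ _) (om2_nonneg _)
  · exact le_rfl

lemma krn_le_two (κ K B : ℝ) (t : ℕ) (z z' : Gi) : krn κ K B t z z' ≤ 2 := by
  unfold krn
  split_ifs
  · have h1 := om1_le_one κ ((nm (z' - z) : ℝ) / ((t : ℝ) ^ 2 * K))
    have h2 := om2_le_two ((crs z' z : ℝ) / ((t : ℝ) * B))
    have h3 := om2_nonneg ((crs z' z : ℝ) / ((t : ℝ) * B))
    calc _ ≤ 1 * 2 := mul_le_mul h1 h2 h3 zero_le_one
      _ = 2 := by norm_num
  · norm_num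

lemma krn_ne {κ K B : ℝ} {t : ℕ} {z z' : Gi} (h : krn κ K B t z z' ≠ 0) :
    om1 κ ((nm (z' - z) : ℝ) / ((t : ℝ) ^ 2 * K)) ≠ 0 ∧
      om2 ((crs z' z : ℝ) / ((t : ℝ) * B)) ≠ 0 := by
  unfold krn at h
  split_ifs at h with h1
  · exact ⟨left_ne_zero_of_mul h, right_ne_zero_of_mul h⟩
  · exact absurd rfl h

/-- the quotient -/
noncomputable def quo (t : ℕ) (q : Gi × Gi) : Gi := by
  classical exact if h : md t ∣ q.2 - q.1 then Classical.choose h else 0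

lemma quo_spec {t : ℕ} {q : Gi × Gi} (h : md t ∣ q.2 - q.1) : q.2 - q.1 = md t * quo t q := by
  unfold quo
  simp only [dif_pos h]
  exact Classical.choose_spec h

lemma quo_inj {t : ℕ} {q q' : Gi × Gi} (h : md t ∣ q.2 - q.1) (h' : md t ∣ q'.2 - q'.1)
    (e : (quo t q, q.1) = (quo t q', q'.1)) : q = q' := by
  simp only [Prod.mk.injEq] at e
  have h1 := quo_spec h
  have h2 := quo_spec h'
  refine Prod.ext e.2 ?_
  have h3 : q.2 = md t * quo t q + q.1 := by rw [← h1]; ring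
  have h4 : q'.2 = md t * quo t q' + q'.1 := by rw [← h2]; ring
  rw [h3, h4, e.1, e.2]

lemma quo_krn {κ K B : ℝ} {t : ℕ} (ht : 1 ≤ t) (hκ : 1 ≤ κ) (hK : 0 < K) (hB : 0 < B)
    {q : Gi × Gi} (h : md t ∣ q.2 - q.1) (hne : krn κ K B t q.1 q.2 ≠ 0) :
    quo t q ≠ 0 ∧ (nm (quo t q) : ℝ) ≤ 2 * κ * K ∧ |(crs (quo t q) q.1 : ℝ)| ≤ 4 * B := by
  have ht0 : (0 : ℝ) < t := by exact_mod_cast ht
  obtain ⟨n1, n2⟩ := krn_ne hne
  have h1 := quo_spec h
  rw [nm_sub h1] at n1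
  rw [crs_sub h1] at n2
  have ht2 : (0 : ℝ) < (t : ℝ) ^ 2 := by positivity
  rw [mul_div_mul_left _ _ ht2.ne'] at n1
  rw [mul_div_mul_left _ _ ht0.ne'] at n2
  have b1 := om1_ne hκ n1
  have b2 := om2_ne n2
  rw [div_lt_iff₀ hK] at b1
  rw [abs_div, abs_of_pos hB, div_lt_iff₀ hB] at b2
  refine ⟨?_, b1.le, b2.le⟩
  intro h0
  rw [h0] at n1
  apply n1
  rw [nm_zero]
  simp [om1_zero]

open Classical in
/-- the pairs with `z` not coprime to `t` -/
lemma card_nc {κ K B : ℝ} {t : ℕ} (ht : 1 ≤ t) (hκ : 1 ≤ κ) (hK : 0 < K) (hB : 0 < B)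
    (S : Finset Gi) (D : Finset (Gi × Gi))
    (hD : ∀ q ∈ D, q.1 ∈ S ∧ ¬ IsCoprime q.1 (md t) ∧ md t ∣ q.2 - q.1 ∧
      krn κ K B t q.1 q.2 ≠ 0) : D.card ≤ ncc t (2 * κ * K) (4 * B) S := by
  unfold ncc
  refine Finset.card_le_card_of_injOn (fun q => (quo t q, q.1)) ?_ ?_
  · intro q hq
    obtain ⟨h1, h2, h3, h4⟩ := hD q hq
    obtain ⟨a1, a2, a3⟩ := quo_krn ht hκ hK hB h3 h4
    simp only [coe_filter, Set.mem_ofPred_eq, mem_product, mem_disc]
    exact ⟨⟨⟨a1, a2⟩, h1⟩, a3, h2⟩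
  · intro q hq q' hq' e
    exact quo_inj (hD q hq).2.2.1 (hD q' hq').2.2.1 e

open Classical in
/-- the pairs with small `crs` -/
lemma card_er {Y B : ℝ} {t : ℕ} (ht : 1 ≤ t) (S : Finset Gi) (hS : S ⊆ disc Y)
    (D : Finset (Gi × Gi)) (hD : ∀ q ∈ D, q.1 ∈ S ∧ q.2 ∈ S ∧ md t ∣ q.2 - q.1 ∧
      |(crs q.2 q.1 : ℝ)| ≤ 8 * t * B) :
    (D.card : ℝ) ≤ S.card + pcn (4 * Y / (t : ℝ) ^ 2) Y (8 * B) := by
  have ht0 : (0 : ℝ) < t := by exact_mod_cast ht
  have ht2 : (0 : ℝ) < (t : ℝ) ^ 2 := by positivity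
  have h1 : (D.filter fun q => q.1 = q.2).card ≤ S.card := by
    refine Finset.card_le_card_of_injOn (fun q => q.1) ?_ ?_
    · intro q hq
      have hq' := Finset.mem_filter.1 hq
      exact (hD q hq'.1).1
    · intro q hq q' hq' e
      have hq1 := Finset.mem_filter.1 hq
      have hq2 := Finset.mem_filter.1 hq'
      refine Prod.ext e ?_
      rw [← hq1.2, ← hq2.2]
      exact e
  have h2 : (D.filter fun q => ¬ q.1 = q.2).card ≤ pcn (4 * Y / (t : ℝ) ^ 2) Y (8 * B) := by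
    unfold pcn
    refine Finset.card_le_card_of_injOn (fun q => (quo t q, q.1)) ?_ ?_
    · intro q hq
      have hq' := Finset.mem_filter.1 hq
      obtain ⟨a1, a2, a3, a4⟩ := hD q hq'.1
      have e1 := quo_spec a3
      have m1 := mem_disc.1 (hS a1)
      have m2 := mem_disc.1 (hS a2)
      simp only [coe_filter, Set.mem_ofPred_eq, mem_product, mem_disc]
      refine ⟨⟨⟨?_, ?_⟩, m1⟩, ?_⟩
      · intro h0
        rw [h0, mul_zero, sub_eq_zero] at e1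
        exact hq'.2 e1.symm
      · rw [le_div_iff₀ ht2, mul_comm, ← nm_sub e1]
        have := nm_sub_le q.1 q.2
        linarith [m1.2, m2.2]
      · rw [crs_sub e1, abs_mul, abs_of_pos ht0] at a4
        have h5 : (t : ℝ) * |(crs (quo t q) q.1 : ℝ)| ≤ (t : ℝ) * (8 * B) := by linarith
        exact le_of_mul_le_mul_left h5 ht0
    · intro q hq q' hq' e
      have hq1 := Finset.mem_filter.1 hq
      have hq2 := Finset.mem_filter.1 hq'
      exact quo_inj (hD q hq1.1).2.2.1 (hD q' hq2.1).2.2.1 e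
  have h3 := Finset.card_filter_add_card_filter_not (s := D) (fun q => q.1 = q.2)
  rw [← h3]
  push_cast
  have h1' : ((D.filter fun q => q.1 = q.2).card : ℝ) ≤ S.card := by exact_mod_cast h1
  have h2' : ((D.filter fun q => ¬ q.1 = q.2).card : ℝ) ≤
      pcn (4 * Y / (t : ℝ) ^ 2) Y (8 * B) := by exact_mod_cast h2
  linarith

lemma EE_nonneg {ρ η Y K B t : ℝ} (hη : 0 ≤ η) (hY : 0 < Y) (hK : 0 < K) :
    0 ≤ EE ρ η Y K B t := by
  unfold EE
  positivity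

end BXSM

open BXSM Classical in
/-- **BXS**: one `VT` is bounded by tent forms of the cells. -/
theorem specBXS (hKER : SpecKER) (hEXB : SpecEXB) : SpecBXS := by
  intro κ ρ η Y K B F t ι I L S g hκ hρ hη hη' hK hB ht hY hBY hF hS hL hL' hg
  have ht0 : (0 : ℝ) < t := by exact_mod_cast ht
  set f : Gi → ℂ := fun z => ∑ β ∈ I, g β z with hf
  have hfF : ∀ z ∈ S, ‖f z‖ ≤ F := fun z hz => (norm_sum_le _ _).trans (hg z hz)
  have hS0 : ∀ z ∈ S, z ≠ 0 := fun z hz => (mem_disc.1 (hS hz)).1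
  have hEE : 0 ≤ EE ρ η Y K B t := EE_nonneg hη hY hK
  -- the parameters of the tents
  have hρ0 : 0 < ρ := by linarith
  have hYρ : 0 < Y / ρ := div_pos hY hρ0
  set φ : ι → ι → ℝ := fun β β' => 4 * t * B / Real.sqrt (L β * L β') with hφ
  have hsq : ∀ β ∈ I, ∀ β' ∈ I, Y / ρ ≤ Real.sqrt (L β * L β') := by
    intro β hβ β' hβ'
    have h1 := (hL β hβ).1
    have h2 := (hL β' hβ').1
    refine Real.le_sqrt_of_sq_le ?_
    rw [sq]
    exact mul_le_mul h1 h2 hYρ.le (hYρ.le.trans h1)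
  have hφ0 : ∀ β ∈ I, ∀ β' ∈ I, 0 < φ β β' := fun β hβ β' hβ' =>
    div_pos (by positivity) (hYρ.trans_le (hsq β hβ β' hβ'))
  have hφπ : ∀ β ∈ I, ∀ β' ∈ I, φ β β' ≤ Real.pi := by
    intro β hβ β' hβ'
    have h1 := hsq β hβ β' hβ'
    have h2 : φ β β' ≤ 1 := by
      rw [hφ]
      show 4 * t * B / Real.sqrt (L β * L β') ≤ 1
      rw [div_le_one (hYρ.trans_le h1)]
      refine le_trans ?_ h1
      rw [le_div_iff₀ hρ0]
      have : 0 < ρ * t * B := by positivity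
      linarith
    linarith [Real.pi_gt_three]
  set m : ι → ι → ℝ := fun β β' => if L β < L β' then
    om1 κ ((Real.sqrt (L β) - Real.sqrt (L β')) ^ 2 / ((t : ℝ) ^ 2 * K)) else 0 with hm
  have hm0 : ∀ β β', 0 ≤ m β β' := fun β β' => by
    show 0 ≤ (if L β < L β' then _ else _)
    split_ifs
    · exact om1_nonneg _ _
    · exact le_rfl
  have hm1 : ∀ β β', m β β' ≤ 1 := fun β β' => by
    show (if L β < L β' then _ else _) ≤ (1 : ℝ)
    split_ifs
    · exact om1_le_one _ _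
    · exact zero_le_one
  -- the sets of pairs
  set Dc : Finset (Gi × Gi) := (S ×ˢ S).filter
    (fun q => IsCoprime q.1 (md t) ∧ md t ∣ q.2 - q.1) with hDc
  set Dn : Finset (Gi × Gi) := (S ×ˢ S).filter
    (fun q => ¬ IsCoprime q.1 (md t) ∧ md t ∣ q.2 - q.1) with hDn
  set Zc : ℂ := ∑ q ∈ Dc, f q.1 * conj (f q.2) * ((krn κ K B t q.1 q.2 : ℝ) : ℂ) with hZc
  set Zn : ℂ := ∑ q ∈ Dn, f q.1 * conj (f q.2) * ((krn κ K B t q.1 q.2 : ℝ) : ℂ) with hZn
  have hVT : VT κ K B t S f = (Zc + Zn).re := by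
    unfold VT
    congr 1
    have e1 : Zc + Zn = ∑ z ∈ S, ∑ z' ∈ S, (if md t ∣ z' - z then
        f z * conj (f z') * ((krn κ K B t z z' : ℝ) : ℂ) else 0) := by
      rw [hZc, hZn, hDc, hDn, Finset.sum_filter, Finset.sum_filter, ← Finset.sum_add_distrib,
        Finset.sum_product]
      refine Finset.sum_congr rfl fun z _ => Finset.sum_congr rfl fun z' _ => ?_
      by_cases h1 : IsCoprime z (md t)
      · by_cases h2 : md t ∣ z' - z
        · rw [if_pos ⟨h1, h2⟩, if_neg (fun h => h.1 h1), if_pos h2, add_zero]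
        · rw [if_neg (fun h => h2 h.2), if_neg (fun h => h2 h.2), if_neg h2, add_zero]
      · by_cases h2 : md t ∣ z' - z
        · rw [if_neg (fun h => h1 h.1), if_pos ⟨h1, h2⟩, if_pos h2, zero_add]
        · rw [if_neg (fun h => h2 h.2), if_neg (fun h => h2 h.2), if_neg h2, add_zero]
    rw [e1]
    refine Finset.sum_congr rfl fun z _ => ?_
    rw [Finset.sum_filter]
    refine Finset.sum_congr rfl fun z' _ => ?_
    by_cases h2 : md t ∣ z' - z
    · by_cases h3 : pos z z'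
      · rw [if_pos ⟨h2, h3⟩, if_pos h2, krn, if_pos h3]
      · rw [if_neg (fun h => h3 h.2), if_pos h2, krn, if_neg h3]
        simp
    · rw [if_neg (fun h => h2 h.1), if_neg h2]
  -- the pairs not coprime to `t`
  have hN : ‖Zn‖ ≤ F ^ 2 * (2 * ncc t (2 * κ * K) (4 * B) S) := by
    have e1 : Zn = ∑ q ∈ Dn.filter (fun q => krn κ K B t q.1 q.2 ≠ 0),
        f q.1 * conj (f q.2) * ((krn κ K B t q.1 q.2 : ℝ) : ℂ) := by
      rw [hZn]
      symm
      refine Finset.sum_filter_of_ne fun q _ h h0 => h ?_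
      rw [h0]
      simp
    have e2 : ‖Zn‖ ≤ ∑ q ∈ Dn.filter (fun q => krn κ K B t q.1 q.2 ≠ 0), F ^ 2 * 2 := by
      rw [e1]
      refine (norm_sum_le _ _).trans (Finset.sum_le_sum fun q hq => ?_)
      rw [Finset.mem_filter, hDn, Finset.mem_filter, Finset.mem_product] at hq
      rw [norm_mul, norm_mul, RCLike.norm_conj, Complex.norm_real,
        Real.norm_of_nonneg (krn_nonneg _ _ _ _ _ _)]
      have a1 := hfF q.1 hq.1.1.1
      have a2 := hfF q.2 hq.1.1.2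
      have a3 := krn_le_two κ K B t q.1 q.2
      calc ‖f q.1‖ * ‖f q.2‖ * krn κ K B t q.1 q.2 ≤ F * F * 2 :=
            mul_le_mul (mul_le_mul a1 a2 (norm_nonneg _) hF) a3 (krn_nonneg _ _ _ _ _ _)
              (by positivity)
        _ = F ^ 2 * 2 := by ring
    rw [Finset.sum_const, nsmul_eq_mul] at e2
    have e3 := card_nc ht hκ hK hB S (Dn.filter (fun q => krn κ K B t q.1 q.2 ≠ 0)) (by
      intro q hq
      rw [Finset.mem_filter, hDn, Finset.mem_filter, Finset.mem_product] at hq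
      exact ⟨hq.1.1.1, hq.1.2.1, hq.1.2.2, hq.2⟩)
    have e4 : ((Dn.filter (fun q => krn κ K B t q.1 q.2 ≠ 0)).card : ℝ) ≤
        (ncc t (2 * κ * K) (4 * B) S : ℝ) := by exact_mod_cast e3
    have e5 : 0 ≤ F ^ 2 * 2 := by positivity
    calc ‖Zn‖ ≤ _ := e2
      _ ≤ (ncc t (2 * κ * K) (4 * B) S : ℝ) * (F ^ 2 * 2) := mul_le_mul_of_nonneg_right e4 e5
      _ = _ := by ring
  -- the main part
  set tr : ι → ι → Gi × Gi → ℝ := fun β β' q => tri (ang q.1 q.2 / φ β β') with htr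
  set Mn : ι → ι → ℂ := fun β β' => ∑ q ∈ Dc, g β q.1 * conj (g β' q.2) *
    ((tr β β' q : ℝ) : ℂ) with hMn
  have hMn1 : ∀ β ∈ I, ∀ β' ∈ I, ‖Mn β β'‖ ≤ (TT t (φ β β') S (g β) + TT t (φ β β') S (g β')) / 2 := by
    intro β hβ β' hβ'
    have h1 := hEXB t (φ β β') 1 S (g β) (g β') ht (hφ0 β hβ β' hβ') (hφπ β hβ β' hβ')
      (Or.inl rfl) hS0
    rw [nest (S := S) (fun z => IsCoprime z (md t)) (fun z z' => md t ∣ z' - z)] at h1
    simp only [one_mul] at h1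
    exact h1
  have hTT0 : ∀ β ∈ I, ∀ β' ∈ I, ∀ h : Gi → ℂ, 0 ≤ TT t (φ β β') S h := by
    intro β hβ β' hβ' h
    have h1 := hEXB t (φ β β') 1 S h h ht (hφ0 β hβ β' hβ') (hφπ β hβ β' hβ') (Or.inl rfl) hS0
    have h2 := (norm_nonneg _).trans h1
    linarith
  -- the error
  set Er : ℂ := ∑ q ∈ Dc, ∑ b ∈ I ×ˢ I, g b.1 q.1 * conj (g b.2 q.2) *
    ((krn κ K B t q.1 q.2 - 2 * (m b.1 b.2 * tr b.1 b.2 q) : ℝ) : ℂ) with hEr
  have hsplit : Zc = ∑ b ∈ I ×ˢ I, ((2 * m b.1 b.2 : ℝ) : ℂ) * Mn b.1 b.2 + Er := by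
    have e1 : ∑ b ∈ I ×ˢ I, ((2 * m b.1 b.2 : ℝ) : ℂ) * Mn b.1 b.2 =
        ∑ q ∈ Dc, ∑ b ∈ I ×ˢ I, g b.1 q.1 * conj (g b.2 q.2) *
          ((2 * (m b.1 b.2 * tr b.1 b.2 q) : ℝ) : ℂ) := by
      rw [Finset.sum_comm]
      refine Finset.sum_congr rfl fun b _ => ?_
      rw [hMn]
      simp only
      rw [Finset.mul_sum]
      refine Finset.sum_congr rfl fun q _ => ?_
      push_cast
      ring
    rw [e1, hEr, ← Finset.sum_add_distrib, hZc]
    refine Finset.sum_congr rfl fun q _ => ?_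
    rw [← Finset.sum_add_distrib, hf]
    simp only
    rw [map_sum, Finset.sum_mul_sum, ← Finset.sum_product', Finset.sum_mul]
    refine Finset.sum_congr rfl fun b _ => ?_
    push_cast
    ring
  have hE : ‖Er‖ ≤ F ^ 2 * (EE ρ η Y K B t * (S.card + pcn (4 * Y / (t : ℝ) ^ 2) Y (8 * B))) := by
    have e1 : ∀ q ∈ Dc, ‖∑ b ∈ I ×ˢ I, g b.1 q.1 * conj (g b.2 q.2) *
        ((krn κ K B t q.1 q.2 - 2 * (m b.1 b.2 * tr b.1 b.2 q) : ℝ) : ℂ)‖ ≤
        if |(crs q.2 q.1 : ℝ)| ≤ 8 * t * B then F ^ 2 * EE ρ η Y K B t else 0 := by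
      intro q hq
      rw [hDc, Finset.mem_filter, Finset.mem_product] at hq
      set δ : ℝ := if |(crs q.2 q.1 : ℝ)| ≤ 8 * t * B then EE ρ η Y K B t else 0 with hδ
      have hδ0 : 0 ≤ δ := by
        rw [hδ]
        split_ifs
        · exact hEE
        · exact le_rfl
      have e2 : ∀ b ∈ I ×ˢ I, ‖g b.1 q.1 * conj (g b.2 q.2) *
          ((krn κ K B t q.1 q.2 - 2 * (m b.1 b.2 * tr b.1 b.2 q) : ℝ) : ℂ)‖ ≤
          ‖g b.1 q.1‖ * ‖g b.2 q.2‖ * δ := by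
        intro b hb
        rw [Finset.mem_product] at hb
        rw [norm_mul, norm_mul, RCLike.norm_conj, Complex.norm_real, Real.norm_eq_abs]
        by_cases h1 : g b.1 q.1 = 0
        · rw [h1]; simp
        by_cases h2 : g b.2 q.2 = 0
        · rw [h2]; simp
        refine mul_le_mul_of_nonneg_left ?_ (by positivity)
        obtain ⟨a1, a2⟩ := hL' b.1 hb.1 q.1 hq.1.1 h1
        obtain ⟨a3, a4⟩ := hL' b.2 hb.2 q.2 hq.1.2 h2
        have h3 := hKER κ ρ η Y K B (L b.1) (L b.2) t q.1 q.2 hκ hρ hη hη' hK hB ht hY hBY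
          (hL b.1 hb.1).1 (hL b.2 hb.2).1 (hL b.1 hb.1).2 (hL b.2 hb.2).2 a1 a2 a3 a4
        exact h3
      refine (norm_sum_le _ _).trans ((Finset.sum_le_sum e2).trans ?_)
      rw [← Finset.sum_mul]
      have e0 : ∑ b ∈ I ×ˢ I, ‖g b.1 q.1‖ * ‖g b.2 q.2‖ =
          (∑ β ∈ I, ‖g β q.1‖) * (∑ β ∈ I, ‖g β q.2‖) := by
        rw [Finset.sum_mul_sum, Finset.sum_product]
      rw [e0]
      have e3 : (∑ β ∈ I, ‖g β q.1‖) * (∑ β ∈ I, ‖g β q.2‖) ≤ F ^ 2 := by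
        rw [sq]
        exact mul_le_mul (hg q.1 hq.1.1) (hg q.2 hq.1.2)
          (Finset.sum_nonneg fun _ _ => norm_nonneg _) hF
      refine (mul_le_mul_of_nonneg_right e3 hδ0).trans (le_of_eq ?_)
      rw [hδ]
      split_ifs
      · rfl
      · rw [mul_zero]
    have e4 : ‖Er‖ ≤ ∑ q ∈ Dc, if |(crs q.2 q.1 : ℝ)| ≤ 8 * t * B then
        F ^ 2 * EE ρ η Y K B t else 0 :=
      (norm_sum_le _ _).trans (Finset.sum_le_sum e1)
    rw [← Finset.sum_filter, Finset.sum_const, nsmul_eq_mul] at e4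
    have e5 := card_er (B := B) ht S hS (Dc.filter fun q => |(crs q.2 q.1 : ℝ)| ≤ 8 * t * B) (by
      intro q hq
      rw [Finset.mem_filter, hDc, Finset.mem_filter, Finset.mem_product] at hq
      exact ⟨hq.1.1.1, hq.1.1.2, hq.1.2.2, hq.2⟩)
    have e6 : 0 ≤ F ^ 2 * EE ρ η Y K B t := by positivity
    calc ‖Er‖ ≤ _ := e4
      _ ≤ (S.card + pcn (4 * Y / (t : ℝ) ^ 2) Y (8 * B)) * (F ^ 2 * EE ρ η Y K B t) :=
          mul_le_mul_of_nonneg_right e5 e6
      _ = _ := by ring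
  have hM : ‖∑ b ∈ I ×ˢ I, ((2 * m b.1 b.2 : ℝ) : ℂ) * Mn b.1 b.2‖ ≤
      4 * ∑ β ∈ I, ∑ β' ∈ I, TT t (φ β β') S (g β) := by
    have e1 : ∀ b ∈ I ×ˢ I, ‖((2 * m b.1 b.2 : ℝ) : ℂ) * Mn b.1 b.2‖ ≤
        TT t (φ b.1 b.2) S (g b.1) + TT t (φ b.1 b.2) S (g b.2) := by
      intro b hb
      rw [Finset.mem_product] at hb
      rw [norm_mul, Complex.norm_real, Real.norm_of_nonneg (by linarith [hm0 b.1 b.2])]
      have h1 := hMn1 b.1 hb.1 b.2 hb.2
      have h2 : 2 * m b.1 b.2 * ‖Mn b.1 b.2‖ ≤ 2 * 1 * ‖Mn b.1 b.2‖ :=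
        mul_le_mul_of_nonneg_right (mul_le_mul_of_nonneg_left (hm1 _ _) (by norm_num))
          (norm_nonneg _)
      linarith
    refine (norm_sum_le _ _).trans ((Finset.sum_le_sum e1).trans ?_)
    rw [Finset.sum_add_distrib, Finset.sum_product, Finset.sum_product]
    have e2 : ∑ β ∈ I, ∑ β' ∈ I, TT t (φ β β') S (g β') =
        ∑ β ∈ I, ∑ β' ∈ I, TT t (φ β β') S (g β) := by
      rw [Finset.sum_comm]
      refine Finset.sum_congr rfl fun β _ => Finset.sum_congr rfl fun β' _ => ?_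
      have : φ β' β = φ β β' := by
        show 4 * t * B / Real.sqrt (L β' * L β) = 4 * t * B / Real.sqrt (L β * L β')
        rw [mul_comm (L β')]
      rw [this]
    rw [e2]
    have e3 : 0 ≤ ∑ β ∈ I, ∑ β' ∈ I, TT t (φ β β') S (g β) :=
      Finset.sum_nonneg fun β hβ => Finset.sum_nonneg fun β' hβ' => hTT0 β hβ β' hβ' _
    linarith
  rw [hVT]
  refine (Complex.abs_re_le_norm _).trans ((norm_add_le _ _).trans ?_)
  rw [hsplit]
  have h9 := norm_add_le (∑ b ∈ I ×ˢ I, ((2 * m b.1 b.2 : ℝ) : ℂ) * Mn b.1 b.2) Er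
  rw [mul_add (F ^ 2)]
  linarith

end Pool.Agent.Lib.MP391708.XV
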