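import Pool.Agent.Lib.MP_391708_nt.X.SpecVAR

/-!
# Theorem X of MP_391708_nt, part VAR, module EXB
-/

set_option autoImplicit false

namespace Pool.Agent.Lib.MP391708.XV

open Finset Filter Topology Pool.Agent.Lib.MP391708.MR
open scoped ComplexConjugate

namespace EXBM

theorem ang_symm (z z' : Gi) : ang z z' = ang z' z := by
  unfold ang
  have h : GaussianInt.toComplex z * conj (GaussianInt.toComplex z') =
      conj (GaussianInt.toComplex z' * conj (GaussianInt.toComplex z)) := by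
    rw [map_mul, Complex.conj_conj, mul_comm]
  rw [h, Complex.arg_conj]
  split_ifs with h1
  · rw [h1]
  · rw [abs_neg]

open Classical in
/-- the tent kernel is positive semidefinite, indexed form -/
theorem psd_index {ι : Type} (I : Finset ι) (p : ι → Gi) (c : ι → ℂ) {φ : ℝ} (hφ : 0 < φ)
    (hφ' : φ ≤ Real.pi) (hp : ∀ i ∈ I, p i ≠ 0) :
    0 ≤ (∑ i ∈ I, ∑ j ∈ I, c i * conj (c j) * ((tri (ang (p i) (p j) / φ) : ℝ) : ℂ)).re := by
  have h1 := specPsd (I.image p) (fun w => ∑ i ∈ I.filter (fun i => p i = w), c i) φ hφ hφ' (by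
    intro z hz
    obtain ⟨i, hi, rfl⟩ := mem_image.1 hz
    exact hp i hi)
  refine h1.trans (le_of_eq ?_)
  congr 1
  have e1 : ∀ w w' : Gi,
      (∑ i ∈ I.filter (fun i => p i = w), c i) *
          conj (∑ j ∈ I.filter (fun j => p j = w'), c j) * ((tri (ang w w' / φ) : ℝ) : ℂ) =
        ∑ i ∈ I.filter (fun i => p i = w), ∑ j ∈ I.filter (fun j => p j = w'),
          c i * conj (c j) * ((tri (ang (p i) (p j) / φ) : ℝ) : ℂ) := by
    intro w w'
    rw [map_sum, Finset.sum_mul_sum, Finset.sum_mul]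
    refine Finset.sum_congr rfl fun i hi => ?_
    rw [Finset.sum_mul]
    refine Finset.sum_congr rfl fun j hj => ?_
    rw [(mem_filter.1 hi).2, (mem_filter.1 hj).2]
  have hmaps : ∀ i ∈ I, p i ∈ I.image p := fun i hi => mem_image_of_mem p hi
  calc ∑ w ∈ I.image p, ∑ w' ∈ I.image p,
        (∑ i ∈ I.filter (fun i => p i = w), c i) *
          conj (∑ j ∈ I.filter (fun j => p j = w'), c j) * ((tri (ang w w' / φ) : ℝ) : ℂ)
      = ∑ w ∈ I.image p, ∑ w' ∈ I.image p,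
          ∑ i ∈ I.filter (fun i => p i = w), ∑ j ∈ I.filter (fun j => p j = w'),
            c i * conj (c j) * ((tri (ang (p i) (p j) / φ) : ℝ) : ℂ) :=
        Finset.sum_congr rfl fun w _ => Finset.sum_congr rfl fun w' _ => e1 w w'
    _ = ∑ w ∈ I.image p, ∑ i ∈ I.filter (fun i => p i = w), ∑ w' ∈ I.image p,
          ∑ j ∈ I.filter (fun j => p j = w'),
            c i * conj (c j) * ((tri (ang (p i) (p j) / φ) : ℝ) : ℂ) :=
        Finset.sum_congr rfl fun w _ => Finset.sum_comm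
    _ = ∑ w ∈ I.image p, ∑ i ∈ I.filter (fun i => p i = w), ∑ j ∈ I,
            c i * conj (c j) * ((tri (ang (p i) (p j) / φ) : ℝ) : ℂ) :=
        Finset.sum_congr rfl fun w _ => Finset.sum_congr rfl fun i _ =>
          Finset.sum_fiberwise_of_maps_to hmaps _
    _ = ∑ i ∈ I, ∑ j ∈ I, c i * conj (c j) * ((tri (ang (p i) (p j) / φ) : ℝ) : ℂ) :=
        Finset.sum_fiberwise_of_maps_to hmaps _

theorem unit_ex (B : ℂ) : ∃ ω : ℂ, ω * conj ω = 1 ∧ conj ω * B = (‖B‖ : ℂ) := by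
  by_cases hB : B = 0
  · exact ⟨1, by simp, by simp [hB]⟩
  · have h0 : (‖B‖ : ℂ) ≠ 0 := by
      rw [Ne, Complex.ofReal_eq_zero, norm_eq_zero]
      exact hB
    have h1 : B * conj B = (‖B‖ : ℂ) ^ 2 := Complex.mul_conj' B
    refine ⟨B / ‖B‖, ?_, ?_⟩
    · rw [map_div₀, Complex.conj_ofReal, div_mul_div_comm, h1, ← sq]
      exact div_self (pow_ne_zero 2 h0)
    · rw [map_div₀, Complex.conj_ofReal, div_mul_eq_mul_div, mul_comm (conj B) B, h1, sq]
      exact mul_div_cancel_left₀ _ h0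

/-- the inequality for one class -/
theorem one (A : Finset Gi) (f g : Gi → ℂ) {φ : ℝ} (s : Gi) (hφ : 0 < φ) (hφ' : φ ≤ Real.pi)
    (hs : s ≠ 0) (hA : ∀ z ∈ A, z ≠ 0) :
    ‖∑ z ∈ A, ∑ z' ∈ A, f z * conj (g z') * ((tri (ang z (s * z') / φ) : ℝ) : ℂ)‖ ≤
      ((∑ z ∈ A, ∑ z' ∈ A, f z * conj (f z') * ((tri (ang z z' / φ) : ℝ) : ℂ)).re +
        (∑ z ∈ A, ∑ z' ∈ A, g z * conj (g z') * ((tri (ang z z' / φ) : ℝ) : ℂ)).re) / 2 := by
  classical
  set B := ∑ z ∈ A, ∑ z' ∈ A, f z * conj (g z') * ((tri (ang z (s * z') / φ) : ℝ) : ℂ) with hB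
  obtain ⟨ω, hω, hωB⟩ := unit_ex B
  have h1 := psd_index (A.disjSum A) (fun i : Gi ⊕ Gi => Sum.elim (fun z => z) (fun z => s * z) i)
    (fun i : Gi ⊕ Gi => Sum.elim (fun z => f z) (fun z => - (ω * g z)) i) hφ hφ' (by
      intro i hi
      rcases i with z | z
      · exact hA z (Finset.inl_mem_disjSum.1 hi)
      · exact mul_ne_zero hs (hA z (Finset.inr_mem_disjSum.1 hi)))
  simp only [Finset.sum_disjSum, Sum.elim_inl, Sum.elim_inr] at h1
  have e2 : ∑ z ∈ A, ∑ z' ∈ A, f z * conj (-(ω * g z')) * ((tri (ang z (s * z') / φ) : ℝ) : ℂ) =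
      - (conj ω * B) := by
    rw [hB, Finset.mul_sum, ← Finset.sum_neg_distrib]
    refine Finset.sum_congr rfl fun z _ => ?_
    rw [Finset.mul_sum, ← Finset.sum_neg_distrib]
    refine Finset.sum_congr rfl fun z' _ => ?_
    rw [map_neg, map_mul]
    ring
  have e3 : ∑ z ∈ A, ∑ z' ∈ A, -(ω * g z) * conj (f z') * ((tri (ang (s * z) z' / φ) : ℝ) : ℂ) =
      - conj (conj ω * B) := by
    rw [map_mul, Complex.conj_conj, hB, map_sum, Finset.sum_comm, Finset.mul_sum,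
      ← Finset.sum_neg_distrib]
    refine Finset.sum_congr rfl fun z _ => ?_
    rw [map_sum, Finset.mul_sum, ← Finset.sum_neg_distrib]
    refine Finset.sum_congr rfl fun z' _ => ?_
    rw [map_mul, map_mul, Complex.conj_conj, Complex.conj_ofReal, ang_symm]
    ring
  have e4 : ∑ z ∈ A, ∑ z' ∈ A,
      -(ω * g z) * conj (-(ω * g z')) * ((tri (ang (s * z) (s * z') / φ) : ℝ) : ℂ) =
      ∑ z ∈ A, ∑ z' ∈ A, g z * conj (g z') * ((tri (ang z z' / φ) : ℝ) : ℂ) := by
    refine Finset.sum_congr rfl fun z _ => Finset.sum_congr rfl fun z' _ => ?_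
    rw [Cls.ang_mul hs, map_neg, map_mul]
    linear_combination (g z * conj (g z') * ((tri (ang z z' / φ) : ℝ) : ℂ)) * hω
  simp only [Finset.sum_add_distrib] at h1
  rw [e2, e3, e4, hωB] at h1
  simp only [Complex.add_re, Complex.neg_re, Complex.conj_re, Complex.ofReal_re] at h1
  linarith

open Classical in
theorem split (t : ℕ) (S : Finset Gi) : ∃ (κ : Type) (A : Finset κ)
    (Sa : κ → Finset Gi), (∀ a ∈ A, Sa a ⊆ S) ∧ ∀ h : Gi → Gi → ℂ,
      ∑ z ∈ S.filter (fun z => IsCoprime z (md t)), ∑ z' ∈ S.filter (fun z' => md t ∣ z' - z),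
        h z z' = ∑ a ∈ A, ∑ z ∈ Sa a, ∑ z' ∈ Sa a, h z z' := by
  set S' := S.filter (fun z => IsCoprime z (md t)) with hS'
  let mk : Gi → Gi ⧸ Ideal.span {md t} := Ideal.Quotient.mk (Ideal.span {md t})
  refine ⟨Gi ⧸ Ideal.span {md t}, S'.image mk, fun a => S'.filter (fun z => mk z = a),
    fun a _ => (filter_subset _ _).trans (filter_subset _ _), fun h => ?_⟩
  rw [← Finset.sum_fiberwise_of_maps_to (g := mk) (t := S'.image mk)
    (fun i hi => mem_image_of_mem mk hi)]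
  refine Finset.sum_congr rfl fun a _ => Finset.sum_congr rfl fun z hz => ?_
  obtain ⟨hz1, hz2⟩ := mem_filter.1 hz
  have hzc : IsCoprime z (md t) := (mem_filter.1 hz1).2
  refine Finset.sum_congr ?_ fun _ _ => rfl
  ext z'
  have hmk : mk z' = a ↔ md t ∣ z' - z := by
    rw [← hz2]
    change Ideal.Quotient.mk _ z' = Ideal.Quotient.mk _ z ↔ _
    rw [Ideal.Quotient.eq, Ideal.mem_span_singleton]
  rw [mem_filter, mem_filter, hS', mem_filter, hmk]
  constructor
  · rintro ⟨h1, h2⟩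
    refine ⟨⟨h1, ?_⟩, h2⟩
    obtain ⟨c, hc⟩ := h2
    have h3 : z' = z + md t * c := by rw [← hc]; ring
    rw [h3]
    exact hzc.add_mul_left_left c
  · rintro ⟨⟨h1, -⟩, h2⟩
    exact ⟨h1, h2⟩

end EXBM

theorem specEXB : SpecEXB := by
  classical
  intro t φ s S f g _ hφ hφ' hs hS
  have hs0 : s ≠ 0 := by
    rcases hs with rfl | rfl
    · exact one_ne_zero
    · exact neg_ne_zero.2 one_ne_zero
  obtain ⟨κ, A, Sa, hA, hsum⟩ := EXBM.split t S
  unfold TT
  rw [hsum (fun z z' => f z * conj (g z') * ((tri (ang z (s * z') / φ) : ℝ) : ℂ)),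
    hsum (fun z z' => f z * conj (f z') * ((tri (ang z z' / φ) : ℝ) : ℂ)),
    hsum (fun z z' => g z * conj (g z') * ((tri (ang z z' / φ) : ℝ) : ℂ)),
    Complex.re_sum, Complex.re_sum, ← Finset.sum_add_distrib, Finset.sum_div]
  refine (norm_sum_le _ _).trans (Finset.sum_le_sum fun a ha => ?_)
  exact EXBM.one (Sa a) f g s hφ hφ' hs0 fun z hz => hS z (hA a ha hz)

end Pool.Agent.Lib.MP391708.XV
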