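import Pool.Agent.Lib.MP_391708_nt.X.SpecVAR

/-!
# Theorem X of MP_391708_nt, part VAR, module EXL: lower bound for `TT`
-/

set_option autoImplicit false

namespace Pool.Agent.Lib.MP391708.XV

open Finset Filter Topology Pool.Agent.Lib.MP391708.MR
open scoped ComplexConjugate

namespace EXLM

theorem sum_IK (g : ℤ → ℝ) (K : ℕ) :
    ∑ k ∈ IK K, g k = g 0 + ∑ n ∈ range K, (g ((n + 1 : ℕ) : ℤ) + g (-((n + 1 : ℕ) : ℤ))) := by
  induction K with
  | zero => simp [IK]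
  | succ K ih =>
    have h1 : IK (K + 1) = insert (((K + 1 : ℕ) : ℤ)) (insert (-((K + 1 : ℕ) : ℤ)) (IK K)) := by
      ext k
      simp only [IK, Finset.mem_insert, Finset.mem_Icc]
      push_cast
      omega
    have h2 : -((K + 1 : ℕ) : ℤ) ∉ IK K := by
      simp only [IK, Finset.mem_Icc]
      push_cast
      omega
    have h3 : ((K + 1 : ℕ) : ℤ) ∉ insert (-((K + 1 : ℕ) : ℤ)) (IK K) := by
      simp only [IK, Finset.mem_insert, Finset.mem_Icc]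
      push_cast
      omega
    rw [h1, Finset.sum_insert h3, Finset.sum_insert h2, ih, Finset.sum_range_succ]
    ring

theorem HS_nonneg (t : ℕ) (k : ℤ) (S : Finset Gi) (f : Gi → ℂ) : 0 ≤ HS t k S f := by
  unfold HS
  positivity

theorem cc_lower {φ : ℝ} (hφ : 0 < φ) {n : ℕ} (hn : 1 ≤ n) (h : n * φ ≤ Real.pi) :
    2 * φ / Real.pi ^ 3 ≤ cc φ n := by
  have hπ := Real.pi_pos
  have hn' : (0 : ℝ) < n := by exact_mod_cast hn
  have h1 := Real.cos_le_one_sub_mul_cos_sq (x := n * φ) (by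
    rw [abs_of_nonneg (by positivity)]
    exact h)
  unfold cc
  rw [div_le_div_iff₀ (by positivity) (by positivity)]
  have h2 : 2 / Real.pi ^ 2 * (n * φ) ^ 2 ≤ 1 - Real.cos (n * φ) := by linarith
  calc 2 * φ * (Real.pi * φ * n ^ 2) = (2 / Real.pi ^ 2 * (n * φ) ^ 2) * Real.pi ^ 3 := by
        field_simp
    _ ≤ (1 - Real.cos (n * φ)) * Real.pi ^ 3 :=
        mul_le_mul_of_nonneg_right h2 (by positivity)

end EXLM

/-- Lower bound for `TT`. -/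
theorem specEXL (hEXP : SpecEXP) : SpecEXL := by
  intro t Km φ S f ht hφ hφπ hK hS
  have hπ := Real.pi_pos
  have h1 := hEXP t φ S f ht hφ hφπ hS
  have h2 : ∑ n ∈ range (Km + 1), cc φ n * (HS t n S f + HS t (-n) S f) ≤
      TT t φ S f - φ / (2 * Real.pi) * HS t 0 S f :=
    sum_le_hasSum _ (fun n _ => mul_nonneg (cc_nonneg hφ n)
      (add_nonneg (EXLM.HS_nonneg _ _ _ _) (EXLM.HS_nonneg _ _ _ _))) h1
  rw [Finset.sum_range_succ'] at h2
  have h2' : ∑ n ∈ range Km, cc φ (n + 1) * (HS t ((n + 1 : ℕ) : ℤ) S f +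
      HS t (-((n + 1 : ℕ) : ℤ)) S f) + cc φ 0 * (HS t ((0 : ℕ) : ℤ) S f +
      HS t (-((0 : ℕ) : ℤ)) S f) ≤ TT t φ S f - φ / (2 * Real.pi) * HS t 0 S f := h2
  have h3 : 0 ≤ cc φ 0 * (HS t ((0 : ℕ) : ℤ) S f + HS t (-((0 : ℕ) : ℤ)) S f) :=
    mul_nonneg (cc_nonneg hφ 0) (add_nonneg (EXLM.HS_nonneg _ _ _ _) (EXLM.HS_nonneg _ _ _ _))
  have h4 : ∑ n ∈ range Km, 2 * φ / Real.pi ^ 3 *
      (HS t ((n + 1 : ℕ) : ℤ) S f + HS t (-((n + 1 : ℕ) : ℤ)) S f) ≤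
      ∑ n ∈ range Km, cc φ (n + 1) * (HS t ((n + 1 : ℕ) : ℤ) S f + HS t (-((n + 1 : ℕ) : ℤ)) S f) := by
    refine Finset.sum_le_sum fun n hn => mul_le_mul_of_nonneg_right
      (EXLM.cc_lower hφ (by omega) ?_)
      (add_nonneg (EXLM.HS_nonneg _ _ _ _) (EXLM.HS_nonneg _ _ _ _))
    have h5 : ((n + 1 : ℕ) : ℝ) ≤ Km := by exact_mod_cast Finset.mem_range.1 hn
    calc ((n + 1 : ℕ) : ℝ) * φ ≤ Km * φ := mul_le_mul_of_nonneg_right h5 hφ.le
      _ = φ * Km := mul_comm _ _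
      _ ≤ Real.pi := hK
  have h6 : 2 * φ / Real.pi ^ 3 * HS t 0 S f ≤ φ / (2 * Real.pi) * HS t 0 S f := by
    refine mul_le_mul_of_nonneg_right ?_ (EXLM.HS_nonneg _ _ _ _)
    rw [div_le_div_iff₀ (by positivity) (by positivity)]
    have h7 : (4 : ℝ) ≤ Real.pi ^ 2 := by nlinarith [Real.pi_gt_three]
    have h8 : 0 ≤ φ * Real.pi * (Real.pi ^ 2 - 4) :=
      mul_nonneg (by positivity) (by linarith)
    nlinarith
  rw [EXLM.sum_IK, mul_add, Finset.mul_sum]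
  refine (add_le_add h6 h4).trans ?_
  have key : ∀ A B C D : ℝ, A + B ≤ D - C → 0 ≤ B → C + A ≤ D := by
    intro A B C D h1 h2
    linarith
  exact key _ _ _ _ h2' h3

end Pool.Agent.Lib.MP391708.XV
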