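import Pool.Agent.Lib.MP_391708_nt.X.SpecVAR

/-!
# EXP: expansion of the tent form in residue classes in Hecke characters
-/

set_option autoImplicit false

namespace Pool.Agent.Lib.MP391708.XV

open Finset Filter Topology Pool.Agent.Lib.MP391708.MR
open scoped ComplexConjugate

namespace EXPM

lemma md_ne {t : ℕ} (ht : 1 ≤ t) : md t ≠ 0 := by
  intro h
  have h1 := congrArg Zsqrtd.re h
  rw [Zsqrtd.re_intCast] at h1
  simp only [Zsqrtd.re_zero] at h1
  omega

open Classical in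
lemma sum_units {M : Type*} [AddCommMonoid M] (q : Gi) [Fintype (Cls.RR q)ˣ] (S : Finset Gi)
    (G : Gi → M) :
    ∑ z ∈ S.filter (fun z => IsCoprime z q), G z =
      ∑ u : (Cls.RR q)ˣ, ∑ z ∈ S.filter
        (fun z => Ideal.Quotient.mk (Ideal.span {q}) z = (u : Cls.RR q)), G z := by
  simp_rw [sum_filter]
  rw [sum_comm]
  refine sum_congr rfl fun z _ => ?_
  by_cases hz : IsCoprime z q
  · rw [if_pos hz]
    obtain ⟨u, hu⟩ := Cls.isUnit_mk.2 hz
    rw [← hu]
    rw [sum_eq_single u]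
    · rw [if_pos rfl]
    · intro v _ hv
      rw [if_neg]
      intro h
      exact hv (Units.ext h).symm
    · intro h
      exact absurd (mem_univ u) h
  · rw [if_neg hz]
    symm
    apply sum_eq_zero
    intro u _
    rw [if_neg]
    intro h
    exact hz (Cls.isUnit_mk.1 (h ▸ u.isUnit))

lemma conj_char {q : Gi} (hq : q ≠ 0) (χ : MulChar (Cls.RR q) ℂ) (u : (Cls.RR q)ˣ) :
    conj (χ (u : Cls.RR q)) = χ ((u⁻¹ : (Cls.RR q)ˣ) : Cls.RR q) := by
  have h1 := Cls.norm_char_le hq χ (u : Cls.RR q)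
  have h2 := Cls.norm_char_le hq χ ((u⁻¹ : (Cls.RR q)ˣ) : Cls.RR q)
  have h3 : χ (u : Cls.RR q) * χ ((u⁻¹ : (Cls.RR q)ˣ) : Cls.RR q) = 1 := by
    rw [← map_mul, Units.mul_inv, map_one]
  have h4 : ‖χ (u : Cls.RR q)‖ * ‖χ ((u⁻¹ : (Cls.RR q)ˣ) : Cls.RR q)‖ = 1 := by
    rw [← norm_mul, h3, norm_one]
  have h5 : ‖χ (u : Cls.RR q)‖ = 1 := by
    apply le_antisymm h1
    nlinarith [norm_nonneg (χ (u : Cls.RR q)), norm_nonneg (χ ((u⁻¹ : (Cls.RR q)ˣ) : Cls.RR q))]
  have h6 : χ (u : Cls.RR q) * conj (χ (u : Cls.RR q)) = 1 := by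
    rw [Complex.mul_conj, Complex.normSq_eq_norm_sq, h5]
    simp
  have h7 : χ (u : Cls.RR q) ≠ 0 := by
    intro h
    rw [h, zero_mul] at h3
    exact zero_ne_one h3
  exact mul_left_cancel₀ h7 (h6.trans h3.symm)

open Classical in
/-- the sum over one class -/
noncomputable def Fc (q : Gi) (k : ℤ) (S : Finset Gi) (f : Gi → ℂ) (u : (Cls.RR q)ˣ) : ℂ :=
  ∑ z ∈ S.filter (fun z => Ideal.Quotient.mk (Ideal.span {q}) z = (u : Cls.RR q)), f z * xi k z

lemma hat_eq (t : ℕ) [Fintype (Cls.RR (md t))ˣ] (χ : MulChar (Cls.RR (md t)) ℂ) (k : ℤ)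
    (S : Finset Gi) (f : Gi → ℂ) :
    hat t χ k S f = ∑ u : (Cls.RR (md t))ˣ, χ (u : Cls.RR (md t)) * Fc (md t) k S f u := by
  classical
  have h1 : hat t χ k S f = ∑ z ∈ S.filter (fun z => IsCoprime z (md t)),
      f z * χ (Ideal.Quotient.mk (Ideal.span {md t}) z) * xi k z := by
    unfold hat
    rw [sum_filter]
    refine sum_congr rfl fun z _ => ?_
    split_ifs with h
    · rfl
    · rw [χ.map_nonunit (fun hu => h (Cls.isUnit_mk.1 hu))]
      ring
  rw [h1, sum_units]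
  refine sum_congr rfl fun u _ => ?_
  unfold Fc
  rw [mul_sum]
  have h2 : ∀ z ∈ S.filter (fun z => Ideal.Quotient.mk (Ideal.span {md t}) z =
      (u : Cls.RR (md t))), f z * χ (Ideal.Quotient.mk (Ideal.span {md t}) z) * xi k z =
      χ (u : Cls.RR (md t)) * (f z * xi k z) := by
    intro z hz
    rw [(mem_filter.1 hz).2]
    ring
  convert! sum_congr rfl h2

lemma sum_hat {t : ℕ} (ht : 1 ≤ t) [Fintype (Cls.RR (md t))ˣ]
    [Fintype (MulChar (Cls.RR (md t)) ℂ)] (k : ℤ) (S : Finset Gi) (f : Gi → ℂ) :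
    ∑ χ : MulChar (Cls.RR (md t)) ℂ, ‖hat t χ k S f‖ ^ 2 =
      (Fintype.card (MulChar (Cls.RR (md t)) ℂ) : ℝ) *
        ∑ u : (Cls.RR (md t))ˣ, ‖Fc (md t) k S f u‖ ^ 2 := by
  classical
  have hq := md_ne ht
  have key : ((∑ χ : MulChar (Cls.RR (md t)) ℂ, ‖hat t χ k S f‖ ^ 2 : ℝ) : ℂ) =
      (((Fintype.card (MulChar (Cls.RR (md t)) ℂ) : ℝ) *
        ∑ u : (Cls.RR (md t))ˣ, ‖Fc (md t) k S f u‖ ^ 2 : ℝ) : ℂ) := by
    push_cast
    have h1 : ∀ χ : MulChar (Cls.RR (md t)) ℂ, ((‖hat t χ k S f‖ : ℂ)) ^ 2 =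
        ∑ u : (Cls.RR (md t))ˣ, ∑ v : (Cls.RR (md t))ˣ, (Fc (md t) k S f u *
          conj (Fc (md t) k S f v)) * (χ ((v⁻¹ : (Cls.RR (md t))ˣ) : Cls.RR (md t)) *
            χ (u : Cls.RR (md t))) := by
      intro χ
      rw [← Complex.ofReal_pow, ← Complex.normSq_eq_norm_sq, ← Complex.mul_conj, hat_eq, map_sum,
        Finset.sum_mul_sum]
      refine sum_congr rfl fun u _ => sum_congr rfl fun v _ => ?_
      rw [map_mul, conj_char hq]
      ring
    simp_rw [h1]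
    rw [sum_comm, mul_sum]
    refine sum_congr rfl fun u _ => ?_
    rw [sum_comm]
    have h2 : ∀ v : (Cls.RR (md t))ˣ, ∑ χ : MulChar (Cls.RR (md t)) ℂ, (Fc (md t) k S f u *
          conj (Fc (md t) k S f v)) * (χ ((v⁻¹ : (Cls.RR (md t))ˣ) : Cls.RR (md t)) *
            χ (u : Cls.RR (md t))) = if v = u then (Fc (md t) k S f u *
          conj (Fc (md t) k S f v)) * (Fintype.card (MulChar (Cls.RR (md t)) ℂ) : ℂ) else 0 := by
      intro v
      rw [← mul_sum, Cls.sum_char hq]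
      by_cases h : v = u
      · rw [if_pos h, if_pos (by rw [h])]
      · rw [if_neg h, if_neg (fun h' => h (Units.ext h').symm), mul_zero]
    simp_rw [h2]
    rw [sum_ite_eq' univ u, if_pos (mem_univ u), Complex.mul_conj, Complex.normSq_eq_norm_sq]
    push_cast
    ring
  exact_mod_cast key

lemma HS_eq {t : ℕ} (ht : 1 ≤ t) [Fintype (Cls.RR (md t))ˣ] (k : ℤ) (S : Finset Gi)
    (f : Gi → ℂ) :
    HS t k S f = ∑ u : (Cls.RR (md t))ˣ, ‖Fc (md t) k S f u‖ ^ 2 := by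
  classical
  have hq := md_ne ht
  have := Cls.finite_RR hq
  let _ : Fintype (MulChar (Cls.RR (md t)) ℂ) := Fintype.ofFinite _
  have hchs : chs t = univ := by
    ext χ
    unfold chs
    rw [dif_pos (Set.toFinite _)]
    simp
  have hcard : (0 : ℝ) < (Fintype.card (MulChar (Cls.RR (md t)) ℂ) : ℝ) := by
    exact_mod_cast Fintype.card_pos
  unfold HS ph
  rw [hchs, card_univ, sum_hat ht]
  field_simp

end EXPM

open EXPM in
theorem specEXP : SpecEXP := by
  classical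
  intro t φ S f ht hφ hφ' hS
  have hq := md_ne ht
  have := Cls.finite_RR hq
  let _ : Fintype (Cls.RR (md t))ˣ := Fintype.ofFinite _
  have hT := fun u : (Cls.RR (md t))ˣ => tent_form (S.filter
    (fun z => Ideal.Quotient.mk (Ideal.span {md t}) z = (u : Cls.RR (md t)))) f hφ hφ'
    (fun z hz => hS z (mem_filter.1 hz).1)
  choose R hR hE using hT
  have hF : ∀ (k : ℤ) (u : (Cls.RR (md t))ˣ), ∑ z ∈ S.filter
      (fun z => Ideal.Quotient.mk (Ideal.span {md t}) z = (u : Cls.RR (md t))), f z * xi k z =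
      Fc (md t) k S f u := by
    intro k u
    unfold Fc
    convert! rfl
  have hTT : TT t φ S f = ∑ u : (Cls.RR (md t))ˣ,
      (φ / (2 * Real.pi) * ‖Fc (md t) 0 S f u‖ ^ 2 + R u) := by
    have h1 : (∑ z ∈ S.filter (fun z => IsCoprime z (md t)),
        ∑ z' ∈ S.filter (fun z' => md t ∣ z' - z),
        f z * conj (f z') * ((tri (ang z z' / φ) : ℝ) : ℂ)) =
        ((∑ u : (Cls.RR (md t))ˣ,
      (φ / (2 * Real.pi) * ‖Fc (md t) 0 S f u‖ ^ 2 + R u) : ℝ) : ℂ) := by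
      rw [Complex.ofReal_sum, sum_units]
      refine sum_congr rfl fun u _ => ?_
      rw [← hF, ← hE u]
      refine sum_congr rfl fun z hz => ?_
      rw [mem_filter] at hz
      refine sum_congr (filter_congr fun z' _ => ?_) fun _ _ => rfl
      rw [← Cls.mk_eq_iff, hz.2]
    unfold TT
    have h2 := congrArg Complex.re h1
    rw [Complex.ofReal_re] at h2
    convert! h2
  have hsum := hasSum_sum (s := (univ : Finset (Cls.RR (md t))ˣ)) (fun u _ => hR u)
  convert! hsum using 1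
  · funext n
    rw [HS_eq ht, HS_eq ht, ← sum_add_distrib, mul_sum]
    refine sum_congr rfl fun u _ => ?_
    rw [hF, hF]
  · rw [hTT, HS_eq ht, sum_add_distrib, ← mul_sum]
    ring

end Pool.Agent.Lib.MP391708.XV
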