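import Pool.Agent.Lib.MP_391708_nt.X.SpecVAR
import Pool.Agent.Lib.MP_391708_nt.MR.Basic

/-!
Theorem X of MP_391708_nt, part VAR, module FNA: one `t` with `T0 < t ≤ T1`.
-/

set_option autoImplicit false

namespace Pool.Agent.Lib.MP391708.XV

open Finset Filter Topology Pool.Agent.Lib.MP391708.MR
open scoped ComplexConjugate

namespace FNAM

theorem mem_ms {P S : Finset Gi} {z : Gi} : z ∈ ms P S ↔ ∃ p ∈ P, ∃ z' ∈ S, p * z' = z := by
  classical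
  unfold ms
  rw [mem_image]
  constructor
  · rintro ⟨⟨p, z'⟩, h, rfl⟩
    rw [mem_product] at h
    exact ⟨p, h.1, z', h.2, rfl⟩
  · rintro ⟨p, hp, z', hz, rfl⟩
    exact ⟨(p, z'), mem_product.2 ⟨hp, hz⟩, rfl⟩

theorem mem_SU {I J : Finset ℕ} {P S : ℕ → Finset Gi} {z : Gi} :
    z ∈ SU I J P S ↔ ∃ i ∈ I, ∃ j ∈ J, ∃ p ∈ P i, ∃ z' ∈ S j, p * z' = z := by
  classical
  unfold SU
  simp only [mem_biUnion, mem_ms]

theorem mc_ne {P S : Finset Gi} {h : Gi → ℂ} {z : Gi} (hz : mc P S h z ≠ 0) :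
    ∃ p ∈ P, ∃ z' ∈ S, p * z' = z := by
  classical
  unfold mc at hz
  obtain ⟨q, hq, -⟩ := exists_ne_zero_of_sum_ne_zero hz
  rw [mem_filter, mem_product] at hq
  exact ⟨q.1, hq.1.1, q.2, hq.1.2, hq.2⟩

section par

variable {κ ρ K Y B η w M F : ℝ} {T0 T1 Km : ℕ} {I J : Finset ℕ} {L : ℕ → ℕ → ℝ}
  {P S : ℕ → Finset Gi} {h : ℕ → Gi → ℂ}

theorem SU_disc (hp : Par κ ρ K Y B η w M F T0 T1 Km I J L P S h) : SU I J P S ⊆ disc Y := by
  intro z hz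
  obtain ⟨i, hi, j, hj, p, hpi, z', hz', rfl⟩ := mem_SU.1 hz
  rw [mem_disc]
  refine ⟨mul_ne_zero (GP_ne_zero (hp.hP i hi hpi)) (mem_disc.1 (hp.hS j hj hz')).1, ?_⟩
  exact (hp.hL' i hi j hj p hpi z' hz').2.trans (hp.hL i hi j hj).2

theorem SU_rough (hp : Par κ ρ K Y B η w M F T0 T1 Km I J L P S h) :
    ∀ z ∈ SU I J P S, ∀ π : Gi, Prime π → π ∣ z → w ≤ (nm π : ℝ) := by
  intro z hz π hπ hd
  obtain ⟨i, hi, j, hj, p, hpi, z', hz', rfl⟩ := mem_SU.1 hz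
  rcases hπ.dvd_or_dvd hd with h1 | h1
  · have h2 : Prime p := GP_prime (hp.hP i hi hpi)
    have h3 : Associated π p := hπ.associated_of_dvd h2 h1
    have h4 : p ∣ π := h3.symm.dvd
    have h5 : nm p ∣ nm π := nm_dvd h4
    have h6 : nm p ≤ nm π := Nat.le_of_dvd (nm_pos hπ.ne_zero) h5
    have h7 : (nm p : ℝ) ≤ nm π := by exact_mod_cast h6
    exact (hp.hPw i hi p hpi).trans h7
  · exact hp.hSw j hj z' hz' π hπ h1

theorem ms_sub {i j : ℕ} (hi : i ∈ I) (hj : j ∈ J) : ms (P i) (S j) ⊆ SU I J P S := by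
  intro z hz
  obtain ⟨p, hp, z', hz', rfl⟩ := mem_ms.1 hz
  exact mem_SU.2 ⟨i, hi, j, hj, p, hp, z', hz', rfl⟩

theorem Y_two (hp : Par κ ρ K Y B η w M F T0 T1 Km I J L P S h) : 2 ≤ Y := by
  have h1 := hp.hKY
  have h2 := hp.hκ
  have h3 := hp.hK
  nlinarith

theorem F_le (hp : Par κ ρ K Y B η w M F T0 T1 Km I J L P S h) {j : ℕ} (hj : j ∈ J) :
    ∀ z ∈ S j, ‖h j z‖ ≤ F := by
  intro z hz
  refine le_trans ?_ (hp.hh z)
  have h1 : ‖h j z‖ = if z ∈ S j then ‖h j z‖ else 0 := by rw [if_pos hz]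
  rw [h1]
  exact single_le_sum (f := fun j => if z ∈ S j then ‖h j z‖ else 0)
    (fun j' _ => by
      show 0 ≤ if z ∈ S j' then ‖h j' z‖ else 0
      split_ifs
      · exact norm_nonneg _
      · exact le_rfl) hj

end par

/-- PCN for `X = 4 Y / t²` -/
theorem pcn_t {CP : ℝ} (hCP : 0 ≤ CP) (hPCN : ∀ X Y D : ℝ, X ≤ Y → 1 ≤ Y → 0 ≤ D →
    (pcn X Y D : ℝ) ≤ CP * (D + 1) * Real.sqrt (X * Y) * (1 + Real.log Y))
    {Y D t : ℝ} (hY : 1 ≤ Y) (hD : 0 ≤ D) (ht : 2 ≤ t) :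
    (pcn (4 * Y / t ^ 2) Y D : ℝ) ≤ CP * (D + 1) * (2 * Y / t) * (1 + Real.log Y) := by
  have h1 : 4 * Y / t ^ 2 ≤ Y := by
    rw [div_le_iff₀ (by positivity)]
    have h4 : 4 ≤ t ^ 2 := by nlinarith
    nlinarith
  have h2 := hPCN (4 * Y / t ^ 2) Y D h1 hY hD
  have h3 : Real.sqrt (4 * Y / t ^ 2 * Y) = 2 * Y / t := by
    have h4 : 4 * Y / t ^ 2 * Y = (2 * Y / t) ^ 2 := by
      field_simp
      ring
    rw [h4, Real.sqrt_sq (by positivity)]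
  rwa [h3] at h2

/-- bound for the pairs in the set of products -/
theorem num1 {CP : ℝ} (hCP : 0 ≤ CP) (hPCN : ∀ X Y D : ℝ, X ≤ Y → 1 ≤ Y → 0 ≤ D →
    (pcn X Y D : ℝ) ≤ CP * (D + 1) * Real.sqrt (X * Y) * (1 + Real.log Y))
    {Y D t B a c : ℝ} (hY : 1 ≤ Y) (hD : 0 ≤ D) (ht : 2 ≤ t) (hB : 1 ≤ B) (ha : 1 ≤ a)
    (hDa : D + 1 ≤ a * B) (hc : c ≤ 9 * Y) :
    c + pcn (4 * Y / t ^ 2) Y D ≤
      (9 + 2 * a * CP) * (1 + Real.log Y) * (Y + B * Y / t) := by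
  have h1 := pcn_t hCP hPCN hY hD ht
  have hl : 0 ≤ Real.log Y := Real.log_nonneg hY
  have h2 : CP * (D + 1) * (2 * Y / t) * (1 + Real.log Y) ≤
      CP * (a * B) * (2 * Y / t) * (1 + Real.log Y) := by
    gcongr
  have h3 : 9 * Y ≤ 9 * (1 + Real.log Y) * Y := by nlinarith
  have h4 : CP * (a * B) * (2 * Y / t) * (1 + Real.log Y) =
      2 * a * CP * (1 + Real.log Y) * (B * Y / t) := by
    ring
  have h5 : 0 ≤ 9 * (1 + Real.log Y) * (B * Y / t) := by positivity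
  have h6 : 0 ≤ 2 * a * CP * (1 + Real.log Y) * Y := by positivity
  calc c + pcn (4 * Y / t ^ 2) Y D
      ≤ 9 * (1 + Real.log Y) * Y + 2 * a * CP * (1 + Real.log Y) * (B * Y / t) := by linarith
    _ ≤ 9 * (1 + Real.log Y) * Y + 2 * a * CP * (1 + Real.log Y) * (B * Y / t) +
        (9 * (1 + Real.log Y) * (B * Y / t) + 2 * a * CP * (1 + Real.log Y) * Y) := by linarith
    _ = (9 + 2 * a * CP) * (1 + Real.log Y) * (Y + B * Y / t) := by ring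

/-- bound for the pairs in a cell -/
theorem num2 {CP : ℝ} (hCP : 0 ≤ CP) (hPCN : ∀ X Y D : ℝ, X ≤ Y → 1 ≤ Y → 0 ≤ D →
    (pcn X Y D : ℝ) ≤ CP * (D + 1) * Real.sqrt (X * Y) * (1 + Real.log Y))
    {Y M t B ρ φ c : ℝ} (hM : 1 ≤ M) (hMY : M ≤ Y) (ht : 2 ≤ t) (hB : 1 ≤ B) (hρ : 1 ≤ ρ)
    (hφ : 0 < φ) (hφ' : φ ≤ 4 * ρ * t * B / Y) (hc : c ≤ 9 * M) :
    c + pcn (4 * M / t ^ 2) M (M * φ / t) ≤
      (9 + 8 * ρ * CP) * (1 + Real.log Y) * (M + B * M ^ 2 / (Y * t)) := by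
  have hY : 1 ≤ Y := hM.trans hMY
  have hY0 : 0 < Y := by linarith
  have ht0 : 0 < t := by linarith
  have h1 := pcn_t hCP hPCN hM (D := M * φ / t) (by positivity) ht
  have hl : 0 ≤ Real.log Y := Real.log_nonneg hY
  have hlM : 0 ≤ Real.log M := Real.log_nonneg hM
  have hll : Real.log M ≤ Real.log Y := Real.log_le_log (by linarith) hMY
  have hD : M * φ / t ≤ 4 * ρ * M * B / Y := by
    calc M * φ / t ≤ M * (4 * ρ * t * B / Y) / t := by gcongr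
      _ = 4 * ρ * M * B / Y := by field_simp
  have h2 : CP * (M * φ / t + 1) * (2 * M / t) * (1 + Real.log M) ≤
      CP * (4 * ρ * M * B / Y + 1) * (2 * M / t) * (1 + Real.log Y) := by
    gcongr
  have h3 : CP * (4 * ρ * M * B / Y + 1) * (2 * M / t) * (1 + Real.log Y) =
      8 * ρ * CP * (1 + Real.log Y) * (B * M ^ 2 / (Y * t)) +
        CP * (1 + Real.log Y) * (2 * M / t) := by
    field_simp
    ring
  have h4 : 2 * M / t ≤ M := by
    rw [div_le_iff₀ ht0]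
    nlinarith
  have h5 : CP * (1 + Real.log Y) * (2 * M / t) ≤ 8 * ρ * CP * (1 + Real.log Y) * M := by
    have h6 : CP * (1 + Real.log Y) * (2 * M / t) ≤ CP * (1 + Real.log Y) * M := by gcongr
    have h7 : 0 ≤ CP * (1 + Real.log Y) * M := by positivity
    nlinarith
  have h8 : 9 * M ≤ 9 * (1 + Real.log Y) * M := by nlinarith
  have h9 : 0 ≤ 9 * (1 + Real.log Y) * (B * M ^ 2 / (Y * t)) := by positivity
  calc c + pcn (4 * M / t ^ 2) M (M * φ / t)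
      ≤ 9 * (1 + Real.log Y) * M + (8 * ρ * CP * (1 + Real.log Y) * (B * M ^ 2 / (Y * t)) +
        8 * ρ * CP * (1 + Real.log Y) * M) := by linarith
    _ ≤ 9 * (1 + Real.log Y) * M + (8 * ρ * CP * (1 + Real.log Y) * (B * M ^ 2 / (Y * t)) +
        8 * ρ * CP * (1 + Real.log Y) * M) + 9 * (1 + Real.log Y) * (B * M ^ 2 / (Y * t)) := by
        linarith
    _ = (9 + 8 * ρ * CP) * (1 + Real.log Y) * (M + B * M ^ 2 / (Y * t)) := by ring

theorem aux1 {ρ B t Y : ℝ} (hρ : 1 ≤ ρ) (hB : 1 ≤ B) (ht : 0 < t) (h : 32 * ρ * t * B ≤ Y) :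
    t ≤ Y := by
  have h1 : 1 ≤ ρ * B := one_le_mul_of_one_le_of_one_le hρ hB
  nlinarith

theorem aux2 {κ : ℝ} (hκ : 1 ≤ κ) : 2 * κ ≤ (2 * κ) ^ 2 := by nlinarith

theorem aux3 {κ B K s w x : ℝ} (hκ : 1 ≤ κ) (hB : 0 < B) (hw : 0 < w) (hs : 0 ≤ s)
    (hK : 0 < K) (hx : x ≤ 2 * κ * s) :
    4 * B * x / w + 4 * B * (2 * κ * K) + x ≤ 8 * κ * (B * s / w + B * K + s) := by
  have h3 : 4 * B * x / w ≤ 4 * B * (2 * κ * s) / w := by gcongr
  have h4 : 4 * B * (2 * κ * s) / w = 8 * κ * (B * s / w) := by ring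
  have h5 : 0 ≤ κ * s := by positivity
  have h6 : 4 * B * (2 * κ * K) = 8 * κ * (B * K) := by ring
  rw [h4] at h3
  rw [h6]
  linarith

/-- the final inequality -/
theorem fin_ineq {C C1 C2 C3 C4 C5 V a1 a2 a3 a4 G n2 x : ℝ} (hG : 0 ≤ G) (h1 : 0 ≤ a1)
    (h2 : 0 ≤ a2) (h3 : 0 ≤ a3) (h4 : 0 ≤ a4) (hn : 0 ≤ n2) (hx : 0 ≤ x)
    (c1 : C1 ≤ C) (c2 : C2 ≤ C) (c3 : C3 ≤ C) (c4 : C4 ≤ C) (c5 : C5 ≤ C)
    (hV : V ≤ C1 * (G * a1) + C2 * (G * a2) + C3 * (G * (n2 * a3)) + C4 * (G * (n2 * a4)) +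
      C5 * x) :
    V ≤ C * (G * (a1 + a2 + n2 * (a3 + a4))) + C * x := by
  have e1 : C1 * (G * a1) ≤ C * (G * a1) := mul_le_mul_of_nonneg_right c1 (by positivity)
  have e2 : C2 * (G * a2) ≤ C * (G * a2) := mul_le_mul_of_nonneg_right c2 (by positivity)
  have e3 : C3 * (G * (n2 * a3)) ≤ C * (G * (n2 * a3)) :=
    mul_le_mul_of_nonneg_right c3 (by positivity)
  have e4 : C4 * (G * (n2 * a4)) ≤ C * (G * (n2 * a4)) :=
    mul_le_mul_of_nonneg_right c4 (by positivity)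
  have e5 : C5 * x ≤ C * x := mul_le_mul_of_nonneg_right c5 hx
  calc V ≤ C * (G * a1) + C * (G * a2) + C * (G * (n2 * a3)) + C * (G * (n2 * a4)) + C * x := by
        linarith
    _ = C * (G * (a1 + a2 + n2 * (a3 + a4))) + C * x := by ring

end FNAM

open FNAM

theorem specFNA (hBXS : SpecBXS) (hTTB : SpecTTB) (hPNC : SpecPNC) (hPCN : SpecPCN)
    (hNCS : SpecNCS) (hHTM : SpecHTM) : SpecFNA := by
  intro κ ρ hκ hρ
  obtain ⟨CP, hCP, hP⟩ := hPCN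
  obtain ⟨CN, hCN, hN⟩ := hNCS
  refine ⟨1000 * ρ ^ 2 * (9 + 18 * CP) + 16 * κ * CN + 4 * (9 + 8 * ρ * CP) +
    4 * Real.pi * (9 + 10 * ρ * CP) + 16 * ρ, by have := Real.pi_pos; positivity, ?_⟩
  intro K Y B η w M F τ T0 T1 Km I J L P S h t hp hτ hT0 hT1
  have hpi := Real.pi_pos
  have hκ0 : 0 < κ := by linarith
  have hρ0 : 0 < ρ := by linarith
  have hK0 : 0 < K := by linarith [hp.hK]
  have hB0 : 0 < B := by linarith [hp.hB]
  have hY2 : 2 ≤ Y := Y_two hp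
  have hY0 : 0 < Y := by linarith
  have hY1 : 1 ≤ Y := by linarith
  have hM0 : 0 < M := by linarith [hp.hM]
  have ht2' : 2 ≤ t := by have := hp.hT0; omega
  have ht2 : (2 : ℝ) ≤ t := by exact_mod_cast ht2'
  have ht0 : (0 : ℝ) < t := by linarith
  have ht1 : 1 ≤ t := by omega
  have htT1 : (t : ℝ) ≤ T1 := by exact_mod_cast hT1
  have hT0t : (T0 : ℝ) ≤ t := by exact_mod_cast hT0.le
  have hT0p : (1 : ℝ) ≤ T0 := by exact_mod_cast hp.hT0
  have hKm : (1 : ℝ) ≤ Km := by exact_mod_cast hp.hKm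
  have htB : 32 * ρ * t * B ≤ Y := by
    refine le_trans ?_ hp.hBY
    gcongr
  have hl : 0 ≤ Real.log Y := Real.log_nonneg hY1
  set ell := 1 + Real.log Y with hell
  have hell1 : 1 ≤ ell := by linarith
  have hell0 : 0 < ell := by linarith
  have hF := hp.hF
  have hw0 : 0 < w := by linarith [hp.hw]
  have hph : (0 : ℝ) ≤ ph t := Nat.cast_nonneg _
  set SS := SU I J P S with hSS
  have hSd : SS ⊆ disc Y := SU_disc hp
  have hF' : 0 ≤ F * ell := by positivity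
  -- HTM
  have hsum : ∀ z ∈ disc Y, ∑ i ∈ I, ∑ j ∈ J, ‖mc (P i) (S j) (h j) z‖ ≤ F * ell :=
    hHTM.2 Y F I J P S h hY1 hF hp.hP hp.hPd hp.hh
  -- BXS
  have hB1 := hBXS κ ρ η Y K B (F * ell) t (ℕ × ℕ) (I ×ˢ J) (fun β => L β.1 β.2) SS
    (fun β => mc (P β.1) (S β.2) (h β.2)) hκ hρ hp.hη hp.hη' hK0 hB0 ht1 hY0 htB hF' hSd
    (by
      intro β hβ
      rw [mem_product] at hβ
      exact hp.hL β.1 hβ.1 β.2 hβ.2)
    (by
      intro β hβ z _ hne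
      rw [mem_product] at hβ
      obtain ⟨p, hpp, z', hz', rfl⟩ := mc_ne hne
      exact hp.hL' β.1 hβ.1 β.2 hβ.2 p hpp z' hz')
    (by
      intro z hz
      rw [sum_product]
      exact hsum z (hSd hz))
  have hfU : (fun z => ∑ β ∈ I ×ˢ J, mc (P β.1) (S β.2) (h β.2) z) = fU I J P S h := by
    funext z
    unfold fU
    rw [sum_product]
  rw [hfU] at hB1
  -- (1)
  have hcard : ((SS.card : ℕ) : ℝ) ≤ 9 * Y := by
    refine le_trans ?_ (card_disc_le hY0.le)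
    exact_mod_cast card_le_card hSd
  have n1 : (SS.card : ℝ) + pcn (4 * Y / (t : ℝ) ^ 2) Y (8 * B) ≤
      (9 + 2 * 9 * CP) * ell * (Y + B * Y / t) :=
    num1 hCP.le hP hY1 (by positivity) ht2 hp.hB (by norm_num) (by linarith [hp.hB]) hcard
  obtain ⟨E, hE⟩ : ∃ E : ℝ, E = η * (Y / ((t : ℝ) ^ 2 * K) + 1) + (t * B / Y) ^ 2 +
    B ^ 2 / (K * Y) := ⟨_, rfl⟩
  have hE0 : 0 ≤ E := by
    rw [hE]
    have := hp.hη
    positivity
  have hEE : EE ρ η Y K B t = 1000 * ρ ^ 2 * E := by rw [hE]; rfl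
  obtain ⟨G, hG⟩ : ∃ G : ℝ, G = F ^ 2 * ell ^ 4 := ⟨_, rfl⟩
  have hG0 : 0 ≤ G := by rw [hG]; positivity
  have hG3 : F ^ 2 * ell ^ 3 ≤ G := by
    rw [hG]
    have : ell ^ 3 ≤ ell ^ 4 := pow_le_pow_right₀ hell1 (by norm_num)
    gcongr
  have hG1 : F ^ 2 * ell ≤ G := by
    rw [hG]
    have : ell ≤ ell ^ 4 := by
      calc ell = ell ^ 1 := (pow_one _).symm
        _ ≤ ell ^ 4 := pow_le_pow_right₀ hell1 (by norm_num)
    gcongr
  have p1 : (F * ell) ^ 2 * (EE ρ η Y K B t * (SS.card + pcn (4 * Y / (t : ℝ) ^ 2) Y (8 * B))) ≤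
      1000 * ρ ^ 2 * (9 + 18 * CP) * (G * (E * (Y + B * Y / t))) := by
    rw [hEE]
    calc (F * ell) ^ 2 * (1000 * ρ ^ 2 * E *
          (SS.card + pcn (4 * Y / (t : ℝ) ^ 2) Y (8 * B)))
        ≤ (F * ell) ^ 2 * (1000 * ρ ^ 2 * E * ((9 + 2 * 9 * CP) * ell * (Y + B * Y / t))) := by
          gcongr
      _ = (1000 * ρ ^ 2 * (9 + 18 * CP) * (E * (Y + B * Y / t))) * (F ^ 2 * ell ^ 3) := by ring
      _ ≤ (1000 * ρ ^ 2 * (9 + 18 * CP) * (E * (Y + B * Y / t))) * G := by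
          apply mul_le_mul_of_nonneg_left hG3
          positivity
      _ = 1000 * ρ ^ 2 * (9 + 18 * CP) * (G * (E * (Y + B * Y / t))) := by ring
  -- (2)
  have hlt : 1 + Real.log t ≤ ell := by
    have h1 : (t : ℝ) ≤ Y := aux1 hρ hp.hB ht0 htB
    have := Real.log_le_log ht0 h1
    rw [hell]
    linarith only [this]
  have hlt0 : 0 ≤ 1 + Real.log (t : ℝ) := by
    have := Real.log_nonneg (show (1 : ℝ) ≤ t by linarith only [ht2])
    linarith only [this]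
  have n2 := hN (2 * κ * K) Y (4 * B) w t SS (by positivity) hp.hKY hY1 (by positivity) hp.hw ht1
    hSd (SU_rough hp)
  have hsq : Real.sqrt (2 * κ * K * Y) ≤ 2 * κ * Real.sqrt (K * Y) := by
    rw [show 2 * κ * K * Y = (2 * κ) * (K * Y) by ring, Real.sqrt_mul (by positivity)]
    gcongr
    rw [Real.sqrt_le_left (by positivity)]
    exact aux2 hκ
  obtain ⟨s, hs⟩ : ∃ s : ℝ, s = Real.sqrt (K * Y) := ⟨_, rfl⟩
  have hs0 : 0 ≤ s := by rw [hs]; exact Real.sqrt_nonneg _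
  rw [← hs] at hsq
  have p2 : (F * ell) ^ 2 * (2 * (ncc t (2 * κ * K) (4 * B) SS : ℝ)) ≤
      16 * κ * CN * (G * (B * s / w + B * K + s)) := by
    have h1 : (ncc t (2 * κ * K) (4 * B) SS : ℝ) ≤
        CN * ell * ell * (8 * κ * (B * s / w + B * K + s)) := by
      refine n2.trans ?_
      have h2 : 4 * B * Real.sqrt (2 * κ * K * Y) / w + 4 * B * (2 * κ * K) +
          Real.sqrt (2 * κ * K * Y) ≤ 8 * κ * (B * s / w + B * K + s) :=
        aux3 hκ hB0 hw0 hs0 hK0 hsq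
      have h6 : 0 ≤ 4 * B * Real.sqrt (2 * κ * K * Y) / w + 4 * B * (2 * κ * K) +
          Real.sqrt (2 * κ * K * Y) := by positivity
      calc CN * (1 + Real.log t) * (1 + Real.log Y) *
            (4 * B * Real.sqrt (2 * κ * K * Y) / w + 4 * B * (2 * κ * K) +
              Real.sqrt (2 * κ * K * Y))
          ≤ CN * ell * ell * (4 * B * Real.sqrt (2 * κ * K * Y) / w + 4 * B * (2 * κ * K) +
              Real.sqrt (2 * κ * K * Y)) := by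
            apply mul_le_mul_of_nonneg_right _ h6
            rw [← hell]
            gcongr
        _ ≤ CN * ell * ell * (8 * κ * (B * s / w + B * K + s)) := by gcongr
    calc (F * ell) ^ 2 * (2 * (ncc t (2 * κ * K) (4 * B) SS : ℝ))
        ≤ (F * ell) ^ 2 * (2 * (CN * ell * ell * (8 * κ * (B * s / w + B * K + s)))) := by gcongr
      _ = 16 * κ * CN * (G * (B * s / w + B * K + s)) := by rw [hG]; ring
  -- (3)
  obtain ⟨A, hA⟩ : ∃ A : ℕ × ℕ → ℝ, A = fun β => ∑ q ∈ atyp t Km τ (P β.1),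
      ‖hat t q.1 q.2 (P β.1) (fun _ => 1)‖ ^ 2 * ‖hat t q.1 q.2 (S β.2) (h β.2)‖ ^ 2 := ⟨_, rfl⟩
  have hA0 : ∀ β, 0 ≤ A β := by
    intro β
    rw [hA]
    exact sum_nonneg fun q _ => by positivity
  have p3 : ∀ β ∈ I ×ˢ J, ∀ β' ∈ I ×ˢ J,
      TT t (4 * t * B / Real.sqrt (L β.1 β.2 * L β'.1 β'.2)) SS (mc (P β.1) (S β.2) (h β.2)) ≤
        τ ^ 2 * (F ^ 2 * ((9 + 8 * ρ * CP) * ell * (M + B * M ^ 2 / (Y * t)))) +
        16 * ρ / 4 * (B / Y * (t / ph t) * A β) +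
        Real.pi * Y / (t * B * Km) * (F * ell) ^ 2 *
          ((9 + 10 * ρ * CP) * ell * (Y + B * Y / t)) := by
    intro β hβ β' hβ'
    rw [mem_product] at hβ hβ'
    have hL1 := hp.hL β.1 hβ.1 β.2 hβ.2
    have hL2 := hp.hL β'.1 hβ'.1 β'.2 hβ'.2
    have hexp : 1 ≤ Real.exp η := Real.one_le_exp hp.hη
    have hYρ : 0 < Y / ρ := by positivity
    have hl1 : 0 < L β.1 β.2 := hYρ.trans_le hL1.1
    have hl2 : 0 < L β'.1 β'.2 := hYρ.trans_le hL2.1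
    have hu1 : L β.1 β.2 ≤ Y := (le_mul_of_one_le_left hl1.le hexp).trans hL1.2
    have hu2 : L β'.1 β'.2 ≤ Y := (le_mul_of_one_le_left hl2.le hexp).trans hL2.2
    obtain ⟨q, hq⟩ : ∃ q : ℝ, q = Real.sqrt (L β.1 β.2 * L β'.1 β'.2) := ⟨_, rfl⟩
    have hq1 : Y / ρ ≤ q := by
      rw [hq]
      apply Real.le_sqrt_of_sq_le
      rw [sq]
      exact mul_le_mul hL1.1 hL2.1 hYρ.le hl1.le
    have hq2 : q ≤ Y := by
      rw [hq, Real.sqrt_le_left hY0.le, sq]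
      exact mul_le_mul hu1 hu2 hl2.le hY0.le
    have hq0 : 0 < q := hYρ.trans_le hq1
    rw [← hq]
    obtain ⟨φ, hφ⟩ : ∃ φ : ℝ, φ = 4 * t * B / q := ⟨_, rfl⟩
    rw [← hφ]
    have hφ0 : 0 < φ := by rw [hφ]; positivity
    have hφ1 : φ ≤ 4 * ρ * t * B / Y := by
      rw [hφ, div_le_div_iff₀ hq0 hY0]
      have h1 : Y ≤ ρ * q := by
        rw [div_le_iff₀ hρ0] at hq1
        linarith only [hq1]
      have h2 : 0 ≤ 4 * t * B := by positivity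
      have h3 := mul_le_mul_of_nonneg_left h1 h2
      linarith only [h3]
    have hφ2 : 4 * t * B / Y ≤ φ := by
      rw [hφ]
      gcongr
    have hφ3 : φ ≤ 1 := by
      refine hφ1.trans ?_
      rw [div_le_one hY0]
      have h1 : 0 ≤ ρ * t * B := by positivity
      linarith only [htB, h1]
    have hφpi : φ ≤ Real.pi := by linarith only [Real.pi_gt_three, hφ3]
    have hφKm : Real.pi ≤ 2 * φ * Km := by
      have h1 : 4 * T0 * B / Y ≤ φ := by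
        refine le_trans ?_ hφ2
        gcongr
      have h2 : Real.pi ≤ 2 * (4 * T0 * B / Y) * Km := by
        have h3 : 2 * (4 * T0 * B / Y) * Km = 8 * T0 * B * Km / Y := by ring
        rw [h3, le_div_iff₀ hY0]
        exact hp.hKm'
      refine h2.trans ?_
      gcongr
    have hnz : ∀ z ∈ SS, z ≠ 0 := fun z hz => (mem_disc.1 (hSd hz)).1
    have hnz' : ∀ z ∈ S β.2, z ≠ 0 := fun z hz => (mem_disc.1 (hp.hS β.2 hβ.2 hz)).1
    have hmcF : ∀ z ∈ SS, ‖mc (P β.1) (S β.2) (h β.2) z‖ ≤ F * ell := by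
      intro z hz
      refine le_trans ?_ (hsum z (hSd hz))
      refine le_trans ?_ (single_le_sum (f := fun i => ∑ j ∈ J, ‖mc (P i) (S j) (h j) z‖)
        (fun i _ => sum_nonneg fun j _ => norm_nonneg _) hβ.1)
      exact single_le_sum (f := fun j => ‖mc (P β.1) (S j) (h j) z‖)
        (fun j _ => norm_nonneg _) hβ.2
    have hT := hTTB t Km φ τ (F * ell) (P β.1) (S β.2) SS (h β.2) ht1 hp.hKm hφ0 hφpi hφKm hτ hF'
      hnz hnz' (ms_sub hβ.1 hβ.2) hmcF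
    refine hT.trans ?_
    -- first term
    have t1 : TT t φ (S β.2) (h β.2) ≤
        F ^ 2 * ((9 + 8 * ρ * CP) * ell * (M + B * M ^ 2 / (Y * t))) := by
      refine (hPNC.1 t φ F (S β.2) (h β.2) ht1 hφ0 hF (F_le hp hβ.2)).trans ?_
      apply mul_le_mul_of_nonneg_left _ (by positivity)
      refine (hPNC.2 t φ M (S β.2) ht1 hφ0 (hp.hS β.2 hβ.2)).trans ?_
      refine num2 hCP.le hP hp.hM hp.hMY ht2 hp.hB hρ hφ0 hφ1 ?_
      refine le_trans ?_ (card_disc_le hM0.le)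
      exact_mod_cast card_le_card (hp.hS β.2 hβ.2)
    -- third term
    have t3 : (PN t φ SS : ℝ) ≤ (9 + 10 * ρ * CP) * ell * (Y + B * Y / t) := by
      refine (hPNC.2 t φ Y SS ht1 hφ0 hSd).trans ?_
      have h1 : (9 + 2 * (5 * ρ) * CP) * ell * (Y + B * Y / t) =
          (9 + 10 * ρ * CP) * ell * (Y + B * Y / t) := by ring
      rw [← h1]
      refine num1 hCP.le hP hY1 (by positivity) ht2 hp.hB (by linarith only [hρ]) ?_ hcard
      have h2 : Y * φ / t ≤ 4 * ρ * B := by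
        calc Y * φ / t ≤ Y * (4 * ρ * t * B / Y) / t := by gcongr
          _ = 4 * ρ * B := by field_simp
      have h3 : 1 ≤ ρ * B := one_le_mul_of_one_le_of_one_le hρ hp.hB
      linarith only [h2, h3]
    have t3' : 4 * Real.pi / (φ * Km) ≤ Real.pi * Y / (t * B * Km) := by
      calc 4 * Real.pi / (φ * Km) ≤ 4 * Real.pi / (4 * t * B / Y * Km) := by gcongr
        _ = Real.pi * Y / (t * B * Km) := by
            field_simp
    -- second term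
    have t2 : φ / ph t * A β ≤ 16 * ρ / 4 * (B / Y * (t / ph t) * A β) := by
      have h1 : φ / ph t ≤ 4 * ρ * t * B / Y / ph t := by gcongr
      calc φ / ph t * A β ≤ 4 * ρ * t * B / Y / ph t * A β :=
            mul_le_mul_of_nonneg_right h1 (hA0 β)
        _ = 16 * ρ / 4 * (B / Y * (t / ph t) * A β) := by ring
    have hAβ : A β = ∑ q ∈ atyp t Km τ (P β.1),
      ‖hat t q.1 q.2 (P β.1) (fun _ => 1)‖ ^ 2 * ‖hat t q.1 q.2 (S β.2) (h β.2)‖ ^ 2 := by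
      rw [hA]
    rw [← hAβ]
    have hPN0 : (0 : ℝ) ≤ PN t φ SS := Nat.cast_nonneg _
    have t4 : 4 * Real.pi / (φ * Km) * (F * ell) ^ 2 * (PN t φ SS : ℝ) ≤
        Real.pi * Y / (t * B * Km) * (F * ell) ^ 2 *
          ((9 + 10 * ρ * CP) * ell * (Y + B * Y / t)) := by
      gcongr
    have t5 : τ ^ 2 * TT t φ (S β.2) (h β.2) ≤
        τ ^ 2 * (F ^ 2 * ((9 + 8 * ρ * CP) * ell * (M + B * M ^ 2 / (Y * t)))) := by
      gcongr
    linarith only [t2, t4, t5]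
  -- sum over the pairs of cells
  obtain ⟨n, hn⟩ : ∃ n : ℝ, n = (I.card : ℝ) * J.card := ⟨_, rfl⟩
  have hn0 : 0 ≤ n := by rw [hn]; positivity
  have hcardn : ((I ×ˢ J).card : ℝ) = n := by rw [card_product, hn]; push_cast; ring
  obtain ⟨X1, hX1⟩ : ∃ X1 : ℝ, X1 =
    τ ^ 2 * (F ^ 2 * ((9 + 8 * ρ * CP) * ell * (M + B * M ^ 2 / (Y * t)))) := ⟨_, rfl⟩
  obtain ⟨X3, hX3⟩ : ∃ X3 : ℝ, X3 = Real.pi * Y / (t * B * Km) * (F * ell) ^ 2 *
          ((9 + 10 * ρ * CP) * ell * (Y + B * Y / t)) := ⟨_, rfl⟩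
  have p4 : ∑ β ∈ I ×ˢ J, ∑ β' ∈ I ×ˢ J,
      TT t (4 * t * B / Real.sqrt (L β.1 β.2 * L β'.1 β'.2)) SS (mc (P β.1) (S β.2) (h β.2)) ≤
      n ^ 2 * X1 + n ^ 2 * X3 + n * (16 * ρ / 4 * (B / Y * (t / ph t))) * ∑ β ∈ I ×ˢ J, A β := by
    have h1 : ∑ β ∈ I ×ˢ J, ∑ β' ∈ I ×ˢ J,
      TT t (4 * t * B / Real.sqrt (L β.1 β.2 * L β'.1 β'.2)) SS (mc (P β.1) (S β.2) (h β.2)) ≤
        ∑ β ∈ I ×ˢ J, ∑ β' ∈ I ×ˢ J, (X1 + 16 * ρ / 4 * (B / Y * (t / ph t) * A β) + X3) := by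
      refine sum_le_sum fun β hβ => sum_le_sum fun β' hβ' => ?_
      rw [hX1, hX3]
      exact p3 β hβ β' hβ'
    refine h1.trans (le_of_eq ?_)
    simp only [sum_const, nsmul_eq_mul, hcardn, mul_add, sum_add_distrib, ← mul_sum]
    ring
  have hAs : ∑ β ∈ I ×ˢ J, A β = ∑ i ∈ I, ∑ j ∈ J, ∑ q ∈ atyp t Km τ (P i),
      ‖hat t q.1 q.2 (P i) (fun _ => 1)‖ ^ 2 * ‖hat t q.1 q.2 (S j) (h j)‖ ^ 2 := by
    rw [hA, sum_product]
  have hAs0 : 0 ≤ ∑ β ∈ I ×ˢ J, A β := sum_nonneg fun β _ => hA0 β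
  -- final
  have hx1 : 4 * (n ^ 2 * X1) ≤
      4 * (9 + 8 * ρ * CP) * (G * (n ^ 2 * (τ ^ 2 * (M + B * M ^ 2 / (Y * t))))) := by
    rw [hX1]
    calc 4 * (n ^ 2 * (τ ^ 2 * (F ^ 2 * ((9 + 8 * ρ * CP) * ell * (M + B * M ^ 2 / (Y * t))))))
        = (4 * (9 + 8 * ρ * CP) * (n ^ 2 * (τ ^ 2 * (M + B * M ^ 2 / (Y * t))))) *
          (F ^ 2 * ell) := by ring
      _ ≤ (4 * (9 + 8 * ρ * CP) * (n ^ 2 * (τ ^ 2 * (M + B * M ^ 2 / (Y * t))))) * G := by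
          apply mul_le_mul_of_nonneg_left hG1
          positivity
      _ = 4 * (9 + 8 * ρ * CP) * (G * (n ^ 2 * (τ ^ 2 * (M + B * M ^ 2 / (Y * t))))) := by ring
  have hx3 : 4 * (n ^ 2 * X3) ≤
      4 * Real.pi * (9 + 10 * ρ * CP) *
        (G * (n ^ 2 * (Y / (t * B * Km) * (Y + B * Y / t)))) := by
    rw [hX3]
    calc 4 * (n ^ 2 * (Real.pi * Y / (t * B * Km) * (F * ell) ^ 2 *
          ((9 + 10 * ρ * CP) * ell * (Y + B * Y / t))))
        = (4 * Real.pi * (9 + 10 * ρ * CP) * (n ^ 2 * (Y / (t * B * Km) * (Y + B * Y / t)))) *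
          (F ^ 2 * ell ^ 3) := by ring
      _ ≤ (4 * Real.pi * (9 + 10 * ρ * CP) * (n ^ 2 * (Y / (t * B * Km) * (Y + B * Y / t)))) *
          G := by
          apply mul_le_mul_of_nonneg_left hG3
          positivity
      _ = _ := by ring
  have hV : |VT κ K B t SS (fU I J P S h)| ≤
      1000 * ρ ^ 2 * (9 + 18 * CP) * (G * (E * (Y + B * Y / t))) +
      16 * κ * CN * (G * (B * s / w + B * K + s)) +
      4 * (9 + 8 * ρ * CP) * (G * (n ^ 2 * (τ ^ 2 * (M + B * M ^ 2 / (Y * t))))) +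
      4 * Real.pi * (9 + 10 * ρ * CP) * (G * (n ^ 2 * (Y / (t * B * Km) * (Y + B * Y / t)))) +
      16 * ρ * (n * (B / Y) * (t / ph t) * ∑ β ∈ I ×ˢ J, A β) := by
    refine hB1.trans ?_
    have e1 : (F * ell) ^ 2 * (EE ρ η Y K B t *
        (SS.card + pcn (4 * Y / (t : ℝ) ^ 2) Y (8 * B)) +
        2 * (ncc t (2 * κ * K) (4 * B) SS : ℝ)) =
        (F * ell) ^ 2 * (EE ρ η Y K B t * (SS.card + pcn (4 * Y / (t : ℝ) ^ 2) Y (8 * B))) +
        (F * ell) ^ 2 * (2 * (ncc t (2 * κ * K) (4 * B) SS : ℝ)) := by ring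
    rw [e1]
    have e2 : 4 * (n * (16 * ρ / 4 * (B / Y * (t / ph t))) * ∑ β ∈ I ×ˢ J, A β) =
        16 * ρ * (n * (B / Y) * (t / ph t) * ∑ β ∈ I ×ˢ J, A β) := by ring
    linarith only [p1, p2, p4, hx1, hx3, e2]
  have hfin := fin_ineq (C := 1000 * ρ ^ 2 * (9 + 18 * CP) + 16 * κ * CN +
      4 * (9 + 8 * ρ * CP) + 4 * Real.pi * (9 + 10 * ρ * CP) + 16 * ρ)
    (G := G) (a1 := E * (Y + B * Y / t)) (a2 := B * s / w + B * K + s)
    (a3 := τ ^ 2 * (M + B * M ^ 2 / (Y * t))) (a4 := Y / (t * B * Km) * (Y + B * Y / t))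
    (n2 := n ^ 2) (x := n * (B / Y) * (t / ph t) * ∑ β ∈ I ×ˢ J, A β)
    hG0 (by positivity) (by positivity) (by positivity) (by positivity) (by positivity)
    (by positivity)
    (by
      have : 0 ≤ 16 * κ * CN + 4 * (9 + 8 * ρ * CP) + 4 * Real.pi * (9 + 10 * ρ * CP) +
        16 * ρ := by positivity
      linarith only [this])
    (by
      have : 0 ≤ 1000 * ρ ^ 2 * (9 + 18 * CP) + 4 * (9 + 8 * ρ * CP) +
        4 * Real.pi * (9 + 10 * ρ * CP) + 16 * ρ := by positivity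
      linarith only [this])
    (by
      have : 0 ≤ 1000 * ρ ^ 2 * (9 + 18 * CP) + 16 * κ * CN +
        4 * Real.pi * (9 + 10 * ρ * CP) + 16 * ρ := by positivity
      linarith only [this])
    (by
      have : 0 ≤ 1000 * ρ ^ 2 * (9 + 18 * CP) + 16 * κ * CN + 4 * (9 + 8 * ρ * CP) +
        16 * ρ := by positivity
      linarith only [this])
    (by
      have : 0 ≤ 1000 * ρ ^ 2 * (9 + 18 * CP) + 16 * κ * CN + 4 * (9 + 8 * ρ * CP) +
        4 * Real.pi * (9 + 10 * ρ * CP) := by positivity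
      linarith only [this])
    hV
  refine hfin.trans (le_of_eq ?_)
  rw [← hAs, ← hE, ← hs, ← hn, hG]
  ring

end Pool.Agent.Lib.MP391708.XV
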