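import Pool.Agent.Lib.MP_391708_nt.X.SpecVAR
import Pool.Agent.Lib.MP_391708_nt.MR.Basic

/-!
# Theorem X of MP_391708_nt, part VAR, module HTM: multiplicative convolutions (helper77)
-/

set_option autoImplicit false

namespace Pool.Agent.Lib.MP391708.XV

open Finset Filter Topology Pool.Agent.Lib.MP391708.MR
open scoped ComplexConjugate

namespace HTMM

theorem part1 (t : ℕ) (χ : MulChar (Cls.RR (md t)) ℂ) (k : ℤ) (P S S'' : Finset Gi) (h : Gi → ℂ)
    (hS : ms P S ⊆ S'') :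
    hat t χ k S'' (mc P S h) = hat t χ k P (fun _ => 1) * hat t χ k S h := by
  classical
  have e1 : hat t χ k S'' (mc P S h) = ∑ z ∈ S'', ∑ q ∈ (P ×ˢ S).filter (fun q => q.1 * q.2 = z),
      (1 * χ (Ideal.Quotient.mk (Ideal.span {md t}) q.1) * xi k q.1) *
        (h q.2 * χ (Ideal.Quotient.mk (Ideal.span {md t}) q.2) * xi k q.2) := by
    unfold hat mc
    refine Finset.sum_congr rfl fun z _ => ?_
    rw [mul_assoc, Finset.sum_mul]
    refine Finset.sum_congr ?_ fun q hq => ?_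
    · ext q
      simp
    · have hq' : q.1 * q.2 = z := (Finset.mem_filter.1 hq).2
      rw [← hq', map_mul, map_mul, xi_mul]
      ring
  have e2 : ∑ z ∈ S'', ∑ q ∈ (P ×ˢ S).filter (fun q => q.1 * q.2 = z),
      (1 * χ (Ideal.Quotient.mk (Ideal.span {md t}) q.1) * xi k q.1) *
        (h q.2 * χ (Ideal.Quotient.mk (Ideal.span {md t}) q.2) * xi k q.2) =
      ∑ q ∈ P ×ˢ S, (1 * χ (Ideal.Quotient.mk (Ideal.span {md t}) q.1) * xi k q.1) *
        (h q.2 * χ (Ideal.Quotient.mk (Ideal.span {md t}) q.2) * xi k q.2) := by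
    refine Finset.sum_fiberwise_of_maps_to (fun q hq => hS ?_) _
    unfold ms
    rw [Finset.mem_image]
    exact ⟨q, hq, rfl⟩
  rw [e1, e2, Finset.sum_product]
  unfold hat
  rw [Finset.sum_mul_sum]

/-- The number of primes dividing `z`. -/
theorem card_le {Y : ℝ} {z : Gi} (hz : z ∈ disc Y) (T : Finset Gi)
    (hT : ∀ p ∈ T, p ∈ GP 0 Y ∧ p ∣ z) : (T.card : ℝ) ≤ Real.log Y := by
  classical
  rw [mem_disc] at hz
  have hd : ∏ p ∈ T, p ∣ z := by
    refine Finset.prod_dvd_of_coprime ?_ fun p hp => (hT p hp).2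
    intro p hp q hq hne
    exact GP_coprime (hT p hp).1 (hT q hq).1 hne
  have h1 : nm (∏ p ∈ T, p) = ∏ p ∈ T, nm p := by
    clear hd hT
    induction T using Finset.induction_on with
    | empty => simp
    | insert a s ha ih => rw [Finset.prod_insert ha, Finset.prod_insert ha, nm_mul, ih]
  have h2 : 3 ^ T.card ≤ ∏ p ∈ T, nm p := by
    refine Finset.pow_card_le_prod T _ 3 fun p hp => ?_
    obtain ⟨-, -, hpr, hm, -, -⟩ := mem_GP.1 (hT p hp).1
    have := hpr.two_le
    omega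
  have h3 : nm (∏ p ∈ T, p) ≤ nm z := Nat.le_of_dvd (nm_pos hz.1) (nm_dvd hd)
  have h4 : ((3 : ℝ)) ^ T.card ≤ Y := by
    have : ((3 ^ T.card : ℕ) : ℝ) ≤ (nm z : ℝ) := by
      exact_mod_cast (h2.trans_eq h1.symm).trans h3
    push_cast at this
    exact this.trans hz.2
  have h5 : Real.exp T.card ≤ Y := by
    refine le_trans ?_ h4
    rw [← Real.exp_one_pow]
    exact pow_le_pow_left₀ (Real.exp_pos 1).le (Real.exp_one_lt_d9.le.trans (by norm_num)) _
  rw [Real.le_log_iff_exp_le ((Real.exp_pos _).trans_le h5)]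
  exact h5

theorem inner_le {F : ℝ} (P : Finset Gi) (J : Finset ℕ) (S : ℕ → Finset Gi)
    (h : ℕ → Gi → ℂ) (hP : ∀ p ∈ P, p ≠ 0)
    (hh : ∀ z : Gi, ∑ j ∈ J, (if z ∈ S j then ‖h j z‖ else 0) ≤ F) (z : Gi)
    [DecidablePred fun p : Gi => p ∣ z] :
    ∑ j ∈ J, ‖mc P (S j) (h j) z‖ ≤ (P.filter (fun p => p ∣ z)).card * F := by
  classical
  have e1 : ∀ j ∈ J, ‖mc P (S j) (h j) z‖ ≤
      ∑ p ∈ P, ∑ s ∈ S j, (if p * s = z then ‖h j s‖ else 0) := by
    intro j _
    unfold mc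
    refine (norm_sum_le _ _).trans (le_of_eq ?_)
    rw [← Finset.sum_product', Finset.sum_filter]
  refine (Finset.sum_le_sum e1).trans ?_
  rw [Finset.sum_comm, Finset.card_filter, Nat.cast_sum, Finset.sum_mul]
  refine Finset.sum_le_sum fun p hp => ?_
  by_cases hd : p ∣ z
  · obtain ⟨s₀, hs₀⟩ := hd
    have hd' : p ∣ z := ⟨s₀, hs₀⟩
    rw [if_pos hd', Nat.cast_one, one_mul]
    refine le_trans (le_of_eq ?_) (hh s₀)
    refine Finset.sum_congr rfl fun j _ => ?_
    have e2 : ∀ s : Gi, p * s = z ↔ s = s₀ := by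
      intro s
      rw [hs₀]
      exact ⟨fun h => mul_left_cancel₀ (hP p hp) h, fun h => by rw [h]⟩
    simp only [e2]
    rw [Finset.sum_ite_eq']
  · rw [if_neg hd, Nat.cast_zero, zero_mul]
    refine le_of_eq (Finset.sum_eq_zero fun j _ => Finset.sum_eq_zero fun s _ => ?_)
    rw [if_neg]
    intro h
    exact hd ⟨s, h.symm⟩

end HTMM

open HTMM

/-- **HTM**. -/
theorem specHTM : SpecHTM := by
  classical
  refine ⟨part1, ?_⟩
  intro Y F I J P S h hY hF hP hd hh z hz
  have h1 : ∀ i ∈ I, ∑ j ∈ J, ‖mc (P i) (S j) (h j) z‖ ≤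
      ((P i).filter (fun p => p ∣ z)).card * F := by
    intro i hi
    exact inner_le (P i) J S h (fun p hp => GP_ne_zero (hP i hi hp)) hh z
  refine (Finset.sum_le_sum h1).trans ?_
  rw [← Finset.sum_mul, ← Nat.cast_sum, ← Finset.card_biUnion]
  · have h2 : ((I.biUnion fun i => (P i).filter (fun p => p ∣ z)).card : ℝ) ≤ Real.log Y := by
      refine card_le hz _ fun p hp => ?_
      rw [Finset.mem_biUnion] at hp
      obtain ⟨i, hi, hp⟩ := hp
      rw [Finset.mem_filter] at hp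
      exact ⟨hP i hi hp.1, hp.2⟩
    calc ((I.biUnion fun i => (P i).filter (fun p => p ∣ z)).card : ℝ) * F
        ≤ Real.log Y * F := mul_le_mul_of_nonneg_right h2 hF
      _ ≤ F * (1 + Real.log Y) := by nlinarith
  · intro i hi j hj hne
    exact Finset.disjoint_filter_filter (hd i hi j hj hne)

end Pool.Agent.Lib.MP391708.XV
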