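import Pool.Agent.Lib.MP_391708_nt.X.SpecVAR
import Pool.Agent.Lib.MP_391708_nt.MR.Basic

/-!
# Theorem X (MP_391708_nt), part VAR, module KER: the kernel is a multiple of a tent
-/

set_option autoImplicit false

namespace Pool.Agent.Lib.MP391708.XV

open Finset Filter Topology Pool.Agent.Lib.MP391708.MR
open scoped ComplexConjugate

namespace KERM

theorem tri_nonneg (x : ℝ) : 0 ≤ tri x := le_max_left _ _

theorem tri_le_one (x : ℝ) : tri x ≤ 1 := by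
  unfold tri
  exact max_le zero_le_one (by linarith [abs_nonneg x])

theorem tri_zero {x : ℝ} (h : 1 ≤ |x|) : tri x = 0 := by
  unfold tri
  exact max_eq_left (by linarith)

theorem tri_neg (x : ℝ) : tri (-x) = tri x := by
  unfold tri
  rw [abs_neg]

theorem tri_lip (x y : ℝ) : |tri x - tri y| ≤ |x - y| := by
  unfold tri
  refine (abs_max_sub_max_le_max 0 (1 - |x|) 0 (1 - |y|)).trans ?_
  refine max_le (by rw [sub_zero, abs_zero]; exact abs_nonneg _) ?_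
  rw [show 1 - |x| - (1 - |y|) = |y| - |x| by ring]
  refine (abs_abs_sub_abs_le_abs_sub y x).trans ?_
  rw [abs_sub_comm]

theorem om1_nonneg (κ x : ℝ) : 0 ≤ om1 κ x := le_max_left _ _

theorem om1_le_one (κ x : ℝ) : om1 κ x ≤ 1 := by
  unfold om1
  exact max_le zero_le_one (min_le_left _ _)

theorem om1_lip {κ : ℝ} (hκ : 1 ≤ κ) (x y : ℝ) : |om1 κ x - om1 κ y| ≤ 2 * |x - y| := by
  unfold om1
  have h0 := abs_nonneg (x - y)
  have h1 : |(2 * x - 1) - (2 * y - 1)| = 2 * |x - y| := by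
    rw [show (2 * x - 1) - (2 * y - 1) = 2 * (x - y) by ring, abs_mul, abs_of_pos two_pos]
  have h2 : |(2 - x / κ) - (2 - y / κ)| ≤ |x - y| := by
    rw [show (2 - x / κ) - (2 - y / κ) = -((x - y) / κ) by ring, abs_neg, abs_div,
      abs_of_pos (show (0 : ℝ) < κ by linarith)]
    exact div_le_self h0 hκ
  have h3 := abs_min_sub_min_le_max (2 * x - 1) (2 - x / κ) (2 * y - 1) (2 - y / κ)
  have h4 := abs_min_sub_min_le_max 1 (min (2 * x - 1) (2 - x / κ)) 1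
    (min (2 * y - 1) (2 - y / κ))
  have h5 := abs_max_sub_max_le_max 0 (min 1 (min (2 * x - 1) (2 - x / κ))) 0
    (min 1 (min (2 * y - 1) (2 - y / κ)))
  rw [sub_self, abs_zero] at h4 h5
  have h6 : |min (2 * x - 1) (2 - x / κ) - min (2 * y - 1) (2 - y / κ)| ≤ 2 * |x - y| := by
    refine h3.trans (max_le h1.le (by linarith))
  have h7 := h4.trans (max_le (by linarith) h6)
  exact h5.trans (max_le (by linarith) h7)

theorem exp_bd {η : ℝ} (h0 : 0 ≤ η) (h1 : η ≤ 1 / 2) :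
    1 ≤ Real.exp η ∧ Real.exp η ≤ 1 + 2 * η := by
  refine ⟨Real.one_le_exp h0, ?_⟩
  have h2 := Real.one_sub_le_exp_neg η
  have h3 : Real.exp η * Real.exp (-η) = 1 := by rw [← Real.exp_add]; simp
  have h4 := Real.exp_pos η
  have h5 : Real.exp η * (1 - η) ≤ 1 := by
    calc Real.exp η * (1 - η) ≤ Real.exp η * Real.exp (-η) :=
          mul_le_mul_of_nonneg_left h2 h4.le
      _ = 1 := h3
  nlinarith

theorem sub_root {a P η E L : ℝ} (hP0 : 0 < P) (hP2 : P ^ 2 = L) (hη : 0 ≤ η)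
    (hE2 : E ≤ 1 + 2 * η) (ha2 : a ^ 2 ≤ E * L) (hPa : P ≤ a) : a - P ≤ η * P := by
  have h1 : a ^ 2 - P ^ 2 ≤ 2 * η * P ^ 2 := by
    have h3 : E * L ≤ (1 + 2 * η) * L := mul_le_mul_of_nonneg_right hE2 (by rw [← hP2]; positivity)
    rw [hP2]
    linarith
  have h2 : (a - P) * (2 * P) ≤ (η * P) * (2 * P) := by
    have h3 := sq_nonneg (a - P)
    nlinarith only [h1, h3]
  exact le_of_mul_le_mul_right h2 (by linarith)

theorem aux1 {a b G E η : ℝ} (hG0 : 0 < G) (hE2 : E ≤ 1 + 2 * η) (hη2 : η ≤ 1 / 2)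
    (h : a * b ≤ E * G) : a * b - G ≤ 2 * η * G ∧ a * b ≤ 2 * G := by
  have h1 : E * G ≤ (1 + 2 * η) * G := mul_le_mul_of_nonneg_right hE2 hG0.le
  have h2 : (1 + 2 * η) * G ≤ 2 * G := mul_le_mul_of_nonneg_right (by linarith) hG0.le
  have h3 : (1 + 2 * η) * G = G + 2 * η * G := by ring
  constructor <;> linarith

theorem aux2 {u η φ : ℝ} (hu0 : 0 ≤ u) (hu1 : u ≤ 1.6) (hη : 0 ≤ η) :
    u * (2 * η + (u * φ) ^ 2 / 6) ≤ 4 * η + φ ^ 2 := by
  have h6 : u ^ 2 ≤ 2.56 := by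
    calc u ^ 2 = u * u := sq u
      _ ≤ 1.6 * 1.6 := mul_le_mul hu1 hu1 hu0 (by norm_num)
      _ = 2.56 := by norm_num
  have h7 : u ^ 3 ≤ 4.1 := by
    calc u ^ 3 = u ^ 2 * u := by ring
      _ ≤ 2.56 * 1.6 := mul_le_mul h6 hu1 hu0 (by norm_num)
      _ ≤ 4.1 := by norm_num
  have h8 : 0 ≤ φ ^ 2 := sq_nonneg _
  have h9 : u * η ≤ 1.6 * η := mul_le_mul_of_nonneg_right hu1 hη
  have h10 : u ^ 3 * φ ^ 2 ≤ 4.1 * φ ^ 2 := mul_le_mul_of_nonneg_right h7 h8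
  have h11 : u * (2 * η + (u * φ) ^ 2 / 6) = 2 * (u * η) + u ^ 3 * φ ^ 2 / 6 := by ring
  rw [h11]
  linarith

theorem aux3 {a b s G α η : ℝ} (hG0 : 0 < G) (hη : 0 ≤ η) (hα : 0 ≤ α) (hs0 : 0 ≤ s)
    (hsα : s ≤ α) (h3 : α - s ≤ α ^ 3 / 6) (hab1 : G ≤ a * b) (hab4 : a * b - G ≤ 2 * η * G) :
    |a * b * s - G * α| ≤ G * α * (2 * η + α ^ 2 / 6) := by
  have hGα : 0 ≤ G * α := by positivity
  have hab0 : 0 ≤ a * b := by linarith
  rw [abs_le]
  constructor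
  · have h5 : G * s ≤ a * b * s := mul_le_mul_of_nonneg_right hab1 hs0
    have h6 : G * (α - s) ≤ G * (α ^ 3 / 6) := mul_le_mul_of_nonneg_left h3 hG0.le
    have h7 : 0 ≤ G * α * (2 * η) := by positivity
    have h8 : G * α * (2 * η + α ^ 2 / 6) = G * α * (2 * η) + G * (α ^ 3 / 6) := by ring
    rw [h8]
    linarith
  · have h5 : a * b * s ≤ a * b * α := mul_le_mul_of_nonneg_left hsα hab0
    have h6 : (a * b - G) * α ≤ 2 * η * G * α := mul_le_mul_of_nonneg_right hab4 hα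
    have h7 : 0 ≤ G * α * (α ^ 2 / 6) := by positivity
    have h8 : G * α * (2 * η + α ^ 2 / 6) = 2 * η * G * α + G * α * (α ^ 2 / 6) := by ring
    rw [h8]
    linarith

/-- the norm of the difference -/
theorem aux4 {a b P Q η y0 c α G σ W : ℝ} (hP0 : 0 < P) (hQ0 : 0 < Q) (hη : 0 ≤ η)
    (hPa : P ≤ a) (hQb : Q ≤ b) (haP : a - P ≤ η * P) (hbQ : b - Q ≤ η * Q)
    (hay : a ≤ y0) (hby : b ≤ y0) (hab3 : a * b ≤ 2 * G) (hG0 : 0 < G)
    (hσ : σ = 1 ∨ σ = -1) (hc : 1 - α ^ 2 / 2 ≤ c) (hc1 : c ≤ 1) (hα : G * α ^ 2 ≤ W) :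
    |(a ^ 2 + b ^ 2 - 2 * σ * (a * b * c)) - (P - σ * Q) ^ 2| ≤ 8 * η * y0 ^ 2 + 2 * W := by
  have hσ2 : σ ^ 2 = 1 := by rcases hσ with h | h <;> rw [h] <;> norm_num
  have hσa : |σ| = 1 := by rcases hσ with h | h <;> rw [h] <;> norm_num
  have hy : 0 < y0 := by linarith
  have h1 : (a ^ 2 + b ^ 2 - 2 * σ * (a * b * c)) - (P - σ * Q) ^ 2 =
      ((a - P) - σ * (b - Q)) * ((a + P) - σ * (b + Q)) + σ * (2 * (a * b) * (1 - c)) := by
    linear_combination (-b ^ 2) * hσ2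
  have hηP : η * P ≤ η * y0 := mul_le_mul_of_nonneg_left (by linarith) hη
  have hηQ : η * Q ≤ η * y0 := mul_le_mul_of_nonneg_left (by linarith) hη
  have h2 : |(a - P) - σ * (b - Q)| ≤ 2 * η * y0 := by
    refine (abs_sub _ _).trans ?_
    rw [abs_mul, hσa, one_mul, abs_of_nonneg (by linarith : 0 ≤ a - P),
      abs_of_nonneg (by linarith : 0 ≤ b - Q)]
    linarith
  have h3 : |(a + P) - σ * (b + Q)| ≤ 4 * y0 := by
    refine (abs_sub _ _).trans ?_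
    rw [abs_mul, hσa, one_mul, abs_of_nonneg (by linarith : 0 ≤ a + P),
      abs_of_nonneg (by linarith : 0 ≤ b + Q)]
    linarith
  have hab0 : 0 ≤ a * b := mul_nonneg (by linarith) (by linarith)
  have h4 : |σ * (2 * (a * b) * (1 - c))| ≤ 2 * W := by
    rw [abs_mul, hσa, one_mul, abs_of_nonneg (mul_nonneg (by linarith) (by linarith))]
    calc 2 * (a * b) * (1 - c) ≤ 2 * (a * b) * (α ^ 2 / 2) :=
          mul_le_mul_of_nonneg_left (by linarith) (by linarith)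
      _ = (a * b) * α ^ 2 := by ring
      _ ≤ (2 * G) * α ^ 2 := mul_le_mul_of_nonneg_right hab3 (sq_nonneg _)
      _ = 2 * (G * α ^ 2) := by ring
      _ ≤ 2 * W := by linarith
  rw [h1]
  refine (abs_add_le _ _).trans (add_le_add ?_ h4)
  rw [abs_mul]
  calc |(a - P) - σ * (b - Q)| * |(a + P) - σ * (b + Q)| ≤ (2 * η * y0) * (4 * y0) :=
        mul_le_mul h2 h3 (abs_nonneg _) (by positivity)
    _ = 8 * η * y0 ^ 2 := by ring

theorem aux5 {o1 o2 T1 T2 X1 X2 : ℝ} (h1 : |o1 - o2| ≤ X1) (h2 : |T1 - T2| ≤ X2)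
    (ho0 : 0 ≤ o2) (ho1 : o2 ≤ 1) (hT0 : 0 ≤ T1) (hT1 : T1 ≤ 1) :
    |o1 * T1 - o2 * T2| ≤ X1 + X2 := by
  have h3 : o1 * T1 - o2 * T2 = (o1 - o2) * T1 + o2 * (T1 - T2) := by ring
  rw [h3]
  refine (abs_add_le _ _).trans (add_le_add ?_ ?_)
  · rw [abs_mul, abs_of_nonneg hT0]
    exact (mul_le_of_le_one_right (abs_nonneg _) hT1).trans h1
  · rw [abs_mul, abs_of_nonneg ho0]
    exact (mul_le_of_le_one_left (abs_nonneg _) ho1).trans h2

theorem aux6 {ρ η U V Z : ℝ} (hρ : 1 ≤ ρ) (hη : 0 ≤ η) (hU : 0 ≤ U) (hV : 0 ≤ V) (hZ : 0 ≤ Z) :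
    2 * (8 * η * U + 100 * ρ * V) + (4 * η + 16 * ρ ^ 2 * Z) ≤
      1000 * ρ ^ 2 * (η * (U + 1) + Z + V) / 2 := by
  have h1 : 1 ≤ ρ ^ 2 := one_le_pow₀ hρ
  have h2 : ρ ≤ ρ ^ 2 := by
    calc ρ = ρ * 1 := (mul_one _).symm
      _ ≤ ρ * ρ := mul_le_mul_of_nonneg_left hρ (by linarith)
      _ = ρ ^ 2 := (sq ρ).symm
  have h3 : η * U * 1 ≤ η * U * ρ ^ 2 := mul_le_mul_of_nonneg_left h1 (mul_nonneg hη hU)
  have h4 : η * 1 ≤ η * ρ ^ 2 := mul_le_mul_of_nonneg_left h1 hη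
  have h5 : ρ * V ≤ ρ ^ 2 * V := mul_le_mul_of_nonneg_right h2 hV
  have h6 : 0 ≤ ρ ^ 2 * Z := by positivity
  have h7 : 0 ≤ ρ ^ 2 * V := by positivity
  have h8 : 0 ≤ η * U := mul_nonneg hη hU
  have h9 : 1000 * ρ ^ 2 * (η * (U + 1) + Z + V) / 2 = 500 * (η * U * ρ ^ 2) +
      500 * (η * ρ ^ 2) + 500 * (ρ ^ 2 * Z) + 500 * (ρ ^ 2 * V) := by ring
  rw [h9]
  nlinarith only [h3, h4, h5, h6, h7, h8, hη]

/-- the angle is small unless both tents vanish -/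
theorem pre {ρ η Y B La Lb t a b α : ℝ} (hρ : 1 ≤ ρ) (hη : 0 ≤ η)
    (hη2 : η ≤ 1 / 2) (hB : 0 < B) (ht : 1 ≤ t) (hY : 0 < Y)
    (hYB : 32 * ρ * t * B ≤ Y) (hLa : Y / ρ ≤ La) (hLb : Y / ρ ≤ Lb)
    (ha : 0 ≤ a) (hb : 0 ≤ b)
    (ha1 : La ≤ a ^ 2) (ha2 : a ^ 2 ≤ Real.exp η * La) (hb1 : Lb ≤ b ^ 2)
    (hb2 : b ^ 2 ≤ Real.exp η * Lb) (hα : 0 ≤ α) (hα2 : α ≤ Real.pi / 2)
    (hxy : ¬ (1 ≤ a * b * Real.sin α / (4 * t * B) ∧
      1 ≤ α / (4 * t * B / Real.sqrt (La * Lb)))) :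
    a * b * Real.sin α ≤ 8 * t * B ∧ Real.sqrt (La * Lb) * α ^ 2 ≤ 50 * ρ * (t ^ 2 * B ^ 2 / Y) ∧
      a * b ≤ 2 * Real.sqrt (La * Lb) ∧ α ^ 2 ≤ 1 ∧
      α ^ 2 ≤ 50 * ρ ^ 2 * (t ^ 2 * B ^ 2 / Y ^ 2) := by

  obtain ⟨hE1, hE2⟩ := exp_bd hη hη2
  set E := Real.exp η with hE
  have hρ0 : 0 < ρ := by linarith
  have ht0 : 0 < t := by linarith
  have htB : 0 < t * B := mul_pos ht0 hB
  have hYρ : 0 < Y / ρ := div_pos hY hρ0
  have hLa0 : 0 < La := by linarith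
  have hLb0 : 0 < Lb := by linarith
  set P := Real.sqrt La with hP
  set Q := Real.sqrt Lb with hQ
  have hP0 : 0 < P := Real.sqrt_pos.2 hLa0
  have hQ0 : 0 < Q := Real.sqrt_pos.2 hLb0
  have hP2 : P ^ 2 = La := Real.sq_sqrt hLa0.le
  have hQ2 : Q ^ 2 = Lb := Real.sq_sqrt hLb0.le
  have hG : Real.sqrt (La * Lb) = P * Q := Real.sqrt_mul hLa0.le _
  rw [hG] at hxy ⊢
  set G := P * Q with hGd
  have hG0 : 0 < G := mul_pos hP0 hQ0
  have hG2 : G ^ 2 = La * Lb := by rw [hGd, mul_pow, hP2, hQ2]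
  have hPa : P ≤ a := Real.sqrt_le_iff.2 ⟨ha, ha1⟩
  have hQb : Q ≤ b := Real.sqrt_le_iff.2 ⟨hb, hb1⟩
  have hab1 : G ≤ a * b := mul_le_mul hPa hQb hQ0.le ha
  have hab0 : 0 ≤ a * b := hG0.le.trans hab1
  have hab2 : a * b ≤ E * G := by
    rw [← sq_le_sq₀ hab0 (by positivity), mul_pow, mul_pow, hG2]
    calc a ^ 2 * b ^ 2 ≤ (E * La) * (E * Lb) :=
          mul_le_mul ha2 hb2 (sq_nonneg _) (by positivity)
      _ = E ^ 2 * (La * Lb) := by ring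
  obtain ⟨hab4, hab3⟩ := aux1 hG0 hE2 hη2 hab2
  have hGY : Y / ρ ≤ G := by
    rw [← sq_le_sq₀ hYρ.le hG0.le, hG2, sq]
    exact mul_le_mul hLa hLb hYρ.le hLa0.le
  have hG32 : 32 * (t * B) ≤ G := by
    refine le_trans ?_ hGY
    rw [le_div_iff₀ hρ0]
    linarith
  set φ := 4 * t * B / G with hφd
  have hφG : φ * G = 4 * t * B := div_mul_cancel₀ _ hG0.ne'
  have hφ0 : 0 < φ := by positivity
  have hφ8 : φ ≤ 1 / 8 := by
    rw [hφd, div_le_iff₀ hG0]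
    linarith
  have hφY : φ ≤ 4 * ρ * (t * B / Y) := by
    rw [hφd, div_le_iff₀ hG0]
    have h1 : 4 * ρ * (t * B / Y) * (Y / ρ) = 4 * t * B := by field_simp
    calc 4 * t * B = 4 * ρ * (t * B / Y) * (Y / ρ) := h1.symm
      _ ≤ 4 * ρ * (t * B / Y) * G := mul_le_mul_of_nonneg_left hGY (by positivity)
  set s := Real.sin α with hs
  have hpi : Real.pi < 3.15 := Real.pi_lt_d2
  have hpi0 := Real.pi_pos
  have hs0 : 0 ≤ s := Real.sin_nonneg_of_nonneg_of_le_pi hα (by linarith)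
  have hsα : s ≤ α := Real.sin_le hα
  have h4 : 0 < 4 * t * B := by linarith
  -- the other case
  have hαφ : α ≤ Real.pi / 2 * φ := by
    by_cases hy : 1 ≤ α / φ
    · have hx : a * b * s / (4 * t * B) < 1 := by
        by_contra h
        exact hxy ⟨not_lt.1 h, hy⟩
      rw [div_lt_one h4] at hx
      have h1 : G * s ≤ a * b * s := mul_le_mul_of_nonneg_right hab1 hs0
      have h2 : s ≤ φ := by
        rw [hφd, le_div_iff₀ hG0]
        linarith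
      have h3 := Real.mul_le_sin hα hα2
      have h5 : α = Real.pi / 2 * (2 / Real.pi * α) := by field_simp
      calc α = Real.pi / 2 * (2 / Real.pi * α) := h5
        _ ≤ Real.pi / 2 * φ := mul_le_mul_of_nonneg_left (h3.trans h2) (by positivity)
    · have h1 : α / φ < 1 := not_le.1 hy
      rw [div_lt_one hφ0] at h1
      have h2 : (1 : ℝ) ≤ Real.pi / 2 := by linarith only [Real.pi_gt_three]
      calc α ≤ φ := h1.le
        _ = 1 * φ := (one_mul _).symm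
        _ ≤ Real.pi / 2 * φ := mul_le_mul_of_nonneg_right h2 hφ0.le
  have hcr : a * b * s ≤ 8 * t * B := by
    by_cases hy : 1 ≤ α / φ
    · have hx : a * b * s / (4 * t * B) < 1 := by
        by_contra h
        exact hxy ⟨not_lt.1 h, hy⟩
      rw [div_lt_one h4] at hx
      linarith
    · have h1 : α / φ < 1 := not_le.1 hy
      rw [div_lt_one hφ0] at h1
      calc a * b * s ≤ (2 * G) * φ :=
            mul_le_mul hab3 (hsα.trans h1.le) hs0 (by positivity)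
        _ = 8 * t * B := by linarith [hφG]
  set u := α / φ with hu
  have huφ : u * φ = α := div_mul_cancel₀ _ hφ0.ne'
  have hu0 : 0 ≤ u := div_nonneg hα hφ0.le
  have hu1 : u ≤ 1.6 := by
    rw [hu, div_le_iff₀ hφ0]
    exact hαφ.trans (mul_le_mul_of_nonneg_right (by linarith only [hpi]) hφ0.le)
  have hW : G * α ^ 2 ≤ 50 * ρ * (t ^ 2 * B ^ 2 / Y) := by
    rw [← huφ]
    have h1 : u ^ 2 ≤ 2.56 := by
      calc u ^ 2 = u * u := sq u
        _ ≤ 1.6 * 1.6 := mul_le_mul hu1 hu1 hu0 (by norm_num)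
        _ = 2.56 := by norm_num
    calc G * (u * φ) ^ 2 = (u ^ 2) * (φ * G * φ) := by ring
      _ ≤ 2.56 * (φ * G * φ) := mul_le_mul_of_nonneg_right h1 (by positivity)
      _ = 2.56 * (4 * t * B) * φ := by rw [hφG]; ring
      _ ≤ 2.56 * (4 * t * B) * (4 * ρ * (t * B / Y)) :=
          mul_le_mul_of_nonneg_left hφY (by positivity)
      _ = 40.96 * ρ * (t ^ 2 * B ^ 2 / Y) := by ring
      _ ≤ 50 * ρ * (t ^ 2 * B ^ 2 / Y) := by
          refine mul_le_mul_of_nonneg_right ?_ (by positivity)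
          linarith
  have hα4 : α ^ 2 ≤ 1 := by
    rw [← huφ]
    have h1 : u * φ ≤ 1.6 * (1 / 8) := mul_le_mul hu1 hφ8 hφ0.le (by norm_num)
    have h2 : 0 ≤ u * φ := mul_nonneg hu0 hφ0.le
    calc (u * φ) ^ 2 ≤ 1 ^ 2 := pow_le_pow_left₀ h2 (h1.trans (by norm_num)) 2
      _ = 1 := one_pow 2
  refine ⟨hcr, hW, hab3, hα4, ?_⟩
  have h1 : Y / ρ * α ^ 2 ≤ 50 * ρ * (t ^ 2 * B ^ 2 / Y) :=
    (mul_le_mul_of_nonneg_right hGY (sq_nonneg _)).trans hW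
  have h2 : α ^ 2 = ρ / Y * (Y / ρ * α ^ 2) := by field_simp
  rw [h2]
  calc ρ / Y * (Y / ρ * α ^ 2) ≤ ρ / Y * (50 * ρ * (t ^ 2 * B ^ 2 / Y)) :=
        mul_le_mul_of_nonneg_left h1 (by positivity)
    _ = 50 * ρ ^ 2 * (t ^ 2 * B ^ 2 / Y ^ 2) := by field_simp

theorem om1_le {κ x : ℝ} (hx : 0 ≤ x) : om1 κ x ≤ 2 * x := by
  unfold om1
  refine max_le (by linarith) ?_
  refine (min_le_right _ _).trans ((min_le_left _ _).trans (by linarith))

theorem EE_ge {ρ η Y K B t : ℝ} (hρ : 1 ≤ ρ) (hη : 0 ≤ η) (hη2 : η ≤ 1 / 2) (hK : 0 < K)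
    (hY : 0 < Y) (ht : 1 ≤ t) {X : ℝ} (hX : X ≤ 2 * η ^ 2 * Y + 100 * ρ ^ 2 * (t ^ 2 * B ^ 2 / Y)) :
    2 * (2 * (X / (t ^ 2 * K))) ≤ EE ρ η Y K B t := by
  have ht0 : 0 < t := by linarith
  have htK : 0 < t ^ 2 * K := by positivity
  have h1 : X / (t ^ 2 * K) ≤ 2 * η ^ 2 * (Y / (t ^ 2 * K)) + 100 * ρ ^ 2 * (B ^ 2 / (K * Y)) := by
    rw [div_le_iff₀ htK]
    refine hX.trans (le_of_eq ?_)
    field_simp
  have h2 : η ^ 2 ≤ η := by
    calc η ^ 2 = η * η := sq η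
      _ ≤ η * 1 := mul_le_mul_of_nonneg_left (by linarith) hη
      _ = η := mul_one η
  have hU : 0 ≤ Y / (t ^ 2 * K) := by positivity
  have hV : 0 ≤ B ^ 2 / (K * Y) := by positivity
  have hZ : 0 ≤ (t * B / Y) ^ 2 := by positivity
  have h3 : 1 ≤ ρ ^ 2 := one_le_pow₀ hρ
  have h4 : η ^ 2 * (Y / (t ^ 2 * K)) ≤ η * (Y / (t ^ 2 * K)) := mul_le_mul_of_nonneg_right h2 hU
  have h5 : η * (Y / (t ^ 2 * K)) * 1 ≤ η * (Y / (t ^ 2 * K)) * ρ ^ 2 :=
    mul_le_mul_of_nonneg_left h3 (mul_nonneg hη hU)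
  have h6 : 0 ≤ ρ ^ 2 * η := by positivity
  have h7 : 0 ≤ ρ ^ 2 * (t * B / Y) ^ 2 := by positivity
  have h8 : 0 ≤ ρ ^ 2 * (B ^ 2 / (K * Y)) := by positivity
  have h9 : 0 ≤ η * (Y / (t ^ 2 * K)) := mul_nonneg hη hU
  have h10 : EE ρ η Y K B t = 1000 * (η * (Y / (t ^ 2 * K)) * ρ ^ 2) + 1000 * (ρ ^ 2 * η) +
      1000 * (ρ ^ 2 * (t * B / Y) ^ 2) + 1000 * (ρ ^ 2 * (B ^ 2 / (K * Y))) := by
    unfold EE
    ring
  rw [h10]
  linarith only [h1, h4, h5, h6, h7, h8, h9]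

/-- case (iii) -/
theorem c3 {η Y ρ t B P Q a b c α G y0 : ℝ} (hρ : 1 ≤ ρ) (hη : 0 ≤ η) (hY : 0 < Y)
    (hQ0 : 0 < Q) (hy2 : y0 ^ 2 = Y)
    (hPa : P ≤ a) (hQP : Q ≤ P) (hbQ : b - Q ≤ η * Q) (hby : Q ≤ y0)
    (hab3 : a * b ≤ 2 * G) (hc : 1 - α ^ 2 / 2 ≤ c) (hc1 : c ≤ 1) (hb : 0 ≤ b)
    (hpos : a < b * c) (hW : G * α ^ 2 ≤ 50 * ρ * (t ^ 2 * B ^ 2 / Y)) :
    a ^ 2 + b ^ 2 - 2 * 1 * (a * b * c) ≤
      2 * η ^ 2 * Y + 100 * ρ ^ 2 * (t ^ 2 * B ^ 2 / Y) := by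
  have h1 : b * c ≤ b := mul_le_of_le_one_right hb hc1
  have h2 : 0 < b - a := by linarith
  have hηQ : η * Q ≤ η * y0 := mul_le_mul_of_nonneg_left hby hη
  have h3 : b - a ≤ η * y0 := by linarith
  have h4 : (b - a) ^ 2 ≤ η ^ 2 * Y := by
    calc (b - a) ^ 2 ≤ (η * y0) ^ 2 := pow_le_pow_left₀ h2.le h3 2
      _ = η ^ 2 * Y := by rw [mul_pow, hy2]
  have hab0 : 0 ≤ a * b := mul_nonneg (by linarith) hb
  have h5 : 2 * (a * b) * (1 - c) ≤ 2 * (50 * ρ * (t ^ 2 * B ^ 2 / Y)) := by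
    calc 2 * (a * b) * (1 - c) ≤ 2 * (a * b) * (α ^ 2 / 2) :=
          mul_le_mul_of_nonneg_left (by linarith) (by linarith)
      _ = (a * b) * α ^ 2 := by ring
      _ ≤ (2 * G) * α ^ 2 := mul_le_mul_of_nonneg_right hab3 (sq_nonneg _)
      _ = 2 * (G * α ^ 2) := by ring
      _ ≤ _ := by linarith
  have h6 : ρ * (t ^ 2 * B ^ 2 / Y) ≤ ρ ^ 2 * (t ^ 2 * B ^ 2 / Y) := by
    refine mul_le_mul_of_nonneg_right ?_ (by positivity)
    calc ρ = ρ * 1 := (mul_one _).symm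
      _ ≤ ρ * ρ := mul_le_mul_of_nonneg_left hρ (by linarith)
      _ = ρ ^ 2 := (sq ρ).symm
  have h7 : 0 ≤ η ^ 2 * Y := by positivity
  have h8 : a ^ 2 + b ^ 2 - 2 * 1 * (a * b * c) = (b - a) ^ 2 + 2 * (a * b) * (1 - c) := by ring
  rw [h8]
  linarith only [h4, h5, h6, h7]

/-- case (iv) -/
theorem c4 {η Y ρ t B P Q a b c α y0 : ℝ} (hη : 0 ≤ η) (hY : 0 < Y)
    (hy2 : y0 ^ 2 = Y) (hy0 : 0 < y0)
    (hQb : Q ≤ b) (hPQ : P < Q) (haP : a - P ≤ η * P) (hPy : P ≤ y0) (hby : b ≤ y0)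
    (hc : 1 - α ^ 2 / 2 ≤ c) (hb : 0 ≤ b) (hpos : b * c ≤ a) (hα4 : α ^ 2 ≤ 1)
    (hα5 : α ^ 2 ≤ 50 * ρ ^ 2 * (t ^ 2 * B ^ 2 / Y ^ 2)) :
    (P - Q) ^ 2 ≤ 2 * η ^ 2 * Y + 100 * ρ ^ 2 * (t ^ 2 * B ^ 2 / Y) := by
  have hηP : η * P ≤ η * y0 := mul_le_mul_of_nonneg_left hPy hη
  have h1 : b * (1 - c) ≤ y0 * (α ^ 2 / 2) := by
    calc b * (1 - c) ≤ b * (α ^ 2 / 2) := mul_le_mul_of_nonneg_left (by linarith) hb
      _ ≤ y0 * (α ^ 2 / 2) := mul_le_mul_of_nonneg_right hby (by positivity)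
  have h2 : Q - P ≤ y0 * (α ^ 2 / 2) + η * y0 := by linarith
  have h3 : (Q - P) ^ 2 ≤ (y0 * (α ^ 2 / 2) + η * y0) ^ 2 :=
    pow_le_pow_left₀ (by linarith) h2 2
  have h4 : (y0 * (α ^ 2 / 2) + η * y0) ^ 2 ≤ 2 * (y0 * (α ^ 2 / 2)) ^ 2 + 2 * (η * y0) ^ 2 := by
    have := sq_nonneg (y0 * (α ^ 2 / 2) - η * y0)
    linarith only [this]
  have h5 : (y0 * (α ^ 2 / 2)) ^ 2 ≤ 50 * ρ ^ 2 * (t ^ 2 * B ^ 2 / Y) := by
    calc (y0 * (α ^ 2 / 2)) ^ 2 = Y / 4 * (α ^ 2 * α ^ 2) := by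
          rw [mul_pow, hy2]
          ring
      _ ≤ Y / 4 * (1 * (50 * ρ ^ 2 * (t ^ 2 * B ^ 2 / Y ^ 2))) :=
          mul_le_mul_of_nonneg_left (mul_le_mul hα4 hα5 (sq_nonneg _) zero_le_one) (by positivity)
      _ = (50 * ρ ^ 2 * (t ^ 2 * B ^ 2 / Y)) / 4 := by field_simp
      _ ≤ 50 * ρ ^ 2 * (t ^ 2 * B ^ 2 / Y) := by
          have : 0 ≤ 50 * ρ ^ 2 * (t ^ 2 * B ^ 2 / Y) := by positivity
          linarith only [this]
  have h6 : (η * y0) ^ 2 = η ^ 2 * Y := by rw [mul_pow, hy2]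
  have h7 : (P - Q) ^ 2 = (Q - P) ^ 2 := by ring
  rw [h7]
  rw [h6] at h4
  linarith only [h3, h4, h5]

/-- the main inequality -/
theorem core {κ ρ η Y K B La Lb t a b α σ : ℝ} (hκ : 1 ≤ κ) (hρ : 1 ≤ ρ) (hη : 0 ≤ η)
    (hη2 : η ≤ 1 / 2) (hK : 0 < K) (hB : 0 < B) (ht : 1 ≤ t) (hY : 0 < Y)
    (hYB : 32 * ρ * t * B ≤ Y) (hLa : Y / ρ ≤ La) (hLb : Y / ρ ≤ Lb)
    (hLaY : Real.exp η * La ≤ Y) (hLbY : Real.exp η * Lb ≤ Y) (ha : 0 ≤ a) (hb : 0 ≤ b)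
    (ha1 : La ≤ a ^ 2) (ha2 : a ^ 2 ≤ Real.exp η * La) (hb1 : Lb ≤ b ^ 2)
    (hb2 : b ^ 2 ≤ Real.exp η * Lb) (hα : 0 ≤ α) (hα2 : α ≤ Real.pi / 2)
    (hσ : σ = 1 ∨ σ = -1) :
    |om1 κ ((a ^ 2 + b ^ 2 - 2 * σ * (a * b * Real.cos α)) / (t ^ 2 * K)) *
        tri (a * b * Real.sin α / (4 * t * B)) -
      om1 κ ((Real.sqrt La - σ * Real.sqrt Lb) ^ 2 / (t ^ 2 * K)) *
        tri (α / (4 * t * B / Real.sqrt (La * Lb)))| ≤
      if a * b * Real.sin α ≤ 8 * t * B then EE ρ η Y K B t / 2 else 0 := by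
  obtain ⟨hE1, hE2⟩ := exp_bd hη hη2
  set E := Real.exp η with hE
  have hρ0 : 0 < ρ := by linarith
  have ht0 : 0 < t := by linarith
  have htB : 0 < t * B := mul_pos ht0 hB
  have hYρ : 0 < Y / ρ := div_pos hY hρ0
  have hLa0 : 0 < La := by linarith
  have hLb0 : 0 < Lb := by linarith
  set P := Real.sqrt La with hP
  set Q := Real.sqrt Lb with hQ
  have hP0 : 0 < P := Real.sqrt_pos.2 hLa0
  have hQ0 : 0 < Q := Real.sqrt_pos.2 hLb0
  have hP2 : P ^ 2 = La := Real.sq_sqrt hLa0.le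
  have hQ2 : Q ^ 2 = Lb := Real.sq_sqrt hLb0.le
  have hG : Real.sqrt (La * Lb) = P * Q := Real.sqrt_mul hLa0.le _
  rw [hG]
  set G := P * Q with hGd
  have hG0 : 0 < G := mul_pos hP0 hQ0
  have hG2 : G ^ 2 = La * Lb := by rw [hGd, mul_pow, hP2, hQ2]
  have hPa : P ≤ a := Real.sqrt_le_iff.2 ⟨ha, ha1⟩
  have hQb : Q ≤ b := Real.sqrt_le_iff.2 ⟨hb, hb1⟩
  have haP : a - P ≤ η * P := sub_root hP0 hP2 hη hE2 ha2 hPa
  have hbQ : b - Q ≤ η * Q := sub_root hQ0 hQ2 hη hE2 hb2 hQb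
  set y0 := Real.sqrt Y with hy0
  have hy00 : 0 < y0 := Real.sqrt_pos.2 hY
  have hy2 : y0 ^ 2 = Y := Real.sq_sqrt hY.le
  have hay : a ≤ y0 := (Real.le_sqrt ha hY.le).2 (ha2.trans hLaY)
  have hby : b ≤ y0 := (Real.le_sqrt hb hY.le).2 (hb2.trans hLbY)
  have hab1 : G ≤ a * b := mul_le_mul hPa hQb hQ0.le ha
  have hab0 : 0 ≤ a * b := hG0.le.trans hab1
  have hab2 : a * b ≤ E * G := by
    rw [← sq_le_sq₀ hab0 (by positivity), mul_pow, mul_pow, hG2]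
    calc a ^ 2 * b ^ 2 ≤ (E * La) * (E * Lb) :=
          mul_le_mul ha2 hb2 (sq_nonneg _) (by positivity)
      _ = E ^ 2 * (La * Lb) := by ring
  obtain ⟨hab4, hab3⟩ := aux1 hG0 hE2 hη2 hab2
  have hGY : Y / ρ ≤ G := by
    rw [← sq_le_sq₀ hYρ.le hG0.le, hG2, sq]
    exact mul_le_mul hLa hLb hYρ.le hLa0.le
  have hG32 : 32 * (t * B) ≤ G := by
    refine le_trans ?_ hGY
    rw [le_div_iff₀ hρ0]
    linarith
  set φ := 4 * t * B / G with hφd
  have hφG : φ * G = 4 * t * B := div_mul_cancel₀ _ hG0.ne'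
  have hφ0 : 0 < φ := by positivity
  have hφ8 : φ ≤ 1 / 8 := by
    rw [hφd, div_le_iff₀ hG0]
    linarith
  have hφY : φ ≤ 4 * ρ * (t * B / Y) := by
    rw [hφd, div_le_iff₀ hG0]
    have h1 : 4 * ρ * (t * B / Y) * (Y / ρ) = 4 * t * B := by field_simp
    calc 4 * t * B = 4 * ρ * (t * B / Y) * (Y / ρ) := h1.symm
      _ ≤ 4 * ρ * (t * B / Y) * G := mul_le_mul_of_nonneg_left hGY (by positivity)
  set s := Real.sin α with hs
  have hpi : Real.pi < 3.15 := Real.pi_lt_d2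
  have hpi0 := Real.pi_pos
  have hs0 : 0 ≤ s := Real.sin_nonneg_of_nonneg_of_le_pi hα (by linarith)
  have hsα : s ≤ α := Real.sin_le hα
  have hEE : 0 ≤ EE ρ η Y K B t := by
    unfold EE
    positivity
  have h4 : 0 < 4 * t * B := by linarith
  by_cases hxy : 1 ≤ a * b * s / (4 * t * B) ∧ 1 ≤ α / φ
  · rw [tri_zero (hxy.1.trans (le_abs_self _)), tri_zero (hxy.2.trans (le_abs_self _)), mul_zero,
      mul_zero, sub_zero, abs_zero]
    split_ifs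
    · linarith
    · exact le_refl _
  -- the other case
  have hαφ : α ≤ Real.pi / 2 * φ := by
    by_cases hy : 1 ≤ α / φ
    · have hx : a * b * s / (4 * t * B) < 1 := by
        by_contra h
        exact hxy ⟨not_lt.1 h, hy⟩
      rw [div_lt_one h4] at hx
      have h1 : G * s ≤ a * b * s := mul_le_mul_of_nonneg_right hab1 hs0
      have h2 : s ≤ φ := by
        rw [hφd, le_div_iff₀ hG0]
        linarith
      have h3 := Real.mul_le_sin hα hα2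
      have h5 : α = Real.pi / 2 * (2 / Real.pi * α) := by field_simp
      calc α = Real.pi / 2 * (2 / Real.pi * α) := h5
        _ ≤ Real.pi / 2 * φ := mul_le_mul_of_nonneg_left (h3.trans h2) (by positivity)
    · have h1 : α / φ < 1 := not_le.1 hy
      rw [div_lt_one hφ0] at h1
      have h2 : (1 : ℝ) ≤ Real.pi / 2 := by linarith only [Real.pi_gt_three]
      calc α ≤ φ := h1.le
        _ = 1 * φ := (one_mul _).symm
        _ ≤ Real.pi / 2 * φ := mul_le_mul_of_nonneg_right h2 hφ0.le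
  have hcr : a * b * s ≤ 8 * t * B := by
    by_cases hy : 1 ≤ α / φ
    · have hx : a * b * s / (4 * t * B) < 1 := by
        by_contra h
        exact hxy ⟨not_lt.1 h, hy⟩
      rw [div_lt_one h4] at hx
      linarith
    · have h1 : α / φ < 1 := not_le.1 hy
      rw [div_lt_one hφ0] at h1
      calc a * b * s ≤ (2 * G) * φ :=
            mul_le_mul hab3 (hsα.trans h1.le) hs0 (by positivity)
        _ = 8 * t * B := by linarith [hφG]
  rw [if_pos hcr]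
  set u := α / φ with hu
  have huφ : u * φ = α := div_mul_cancel₀ _ hφ0.ne'
  have hu0 : 0 ≤ u := div_nonneg hα hφ0.le
  have hu1 : u ≤ 1.6 := by
    rw [hu, div_le_iff₀ hφ0]
    exact hαφ.trans (mul_le_mul_of_nonneg_right (by linarith only [hpi]) hφ0.le)
  have hd1 : |a * b * s / (4 * t * B) - u| ≤ 4 * η + φ ^ 2 := by
    have h1 : a * b * s / (4 * t * B) - u = (a * b * s - G * α) / (4 * t * B) := by
      rw [sub_div, ← hφG, ← huφ]
      congr 1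
      field_simp
    have h3 : α - s ≤ α ^ 3 / 6 := by
      rcases hα.eq_or_lt with h | h
      · rw [← h] at hs ⊢
        rw [hs, Real.sin_zero]
        norm_num
      · have := Real.sin_gt_sub_cube h
        linarith
    have h2 := aux3 hG0 hη hα hs0 hsα h3 hab1 hab4
    rw [h1, abs_div, abs_of_pos h4]
    have h5 : G * α * (2 * η + α ^ 2 / 6) / (4 * t * B) = u * (2 * η + (u * φ) ^ 2 / 6) := by
      rw [← hφG, ← huφ]
      field_simp
    refine (div_le_div_of_nonneg_right h2 h4.le).trans ?_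
    rw [h5]
    exact aux2 hu0 hu1 hη
  have hW : G * α ^ 2 ≤ 50 * ρ * (t ^ 2 * B ^ 2 / Y) := by
    rw [← huφ]
    have h1 : u ^ 2 ≤ 2.56 := by
      calc u ^ 2 = u * u := sq u
        _ ≤ 1.6 * 1.6 := mul_le_mul hu1 hu1 hu0 (by norm_num)
        _ = 2.56 := by norm_num
    calc G * (u * φ) ^ 2 = (u ^ 2) * (φ * G * φ) := by ring
      _ ≤ 2.56 * (φ * G * φ) := mul_le_mul_of_nonneg_right h1 (by positivity)
      _ = 2.56 * (4 * t * B) * φ := by rw [hφG]; ring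
      _ ≤ 2.56 * (4 * t * B) * (4 * ρ * (t * B / Y)) :=
          mul_le_mul_of_nonneg_left hφY (by positivity)
      _ = 40.96 * ρ * (t ^ 2 * B ^ 2 / Y) := by ring
      _ ≤ 50 * ρ * (t ^ 2 * B ^ 2 / Y) := by
          refine mul_le_mul_of_nonneg_right ?_ (by positivity)
          linarith
  have hd2 := aux4 (c := Real.cos α) hP0 hQ0 hη hPa hQb haP hbQ hay hby hab3 hG0 hσ
    Real.one_sub_sq_div_two_le_cos (Real.cos_le_one α) hW
  have htK : 0 < t ^ 2 * K := by positivity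
  have hd3 : |om1 κ ((a ^ 2 + b ^ 2 - 2 * σ * (a * b * Real.cos α)) / (t ^ 2 * K)) -
      om1 κ ((P - σ * Q) ^ 2 / (t ^ 2 * K))| ≤
      2 * (8 * η * (Y / (t ^ 2 * K)) + 100 * ρ * (B ^ 2 / (K * Y))) := by
    refine (om1_lip hκ _ _).trans ?_
    rw [← sub_div, abs_div, abs_of_pos htK]
    refine mul_le_mul_of_nonneg_left ?_ two_pos.le
    rw [div_le_iff₀ htK]
    refine hd2.trans (le_of_eq ?_)
    rw [hy2]
    field_simp
    ring
  have hφ2 : φ ^ 2 ≤ 16 * ρ ^ 2 * (t * B / Y) ^ 2 := by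
    calc φ ^ 2 ≤ (4 * ρ * (t * B / Y)) ^ 2 := pow_le_pow_left₀ hφ0.le hφY 2
      _ = 16 * ρ ^ 2 * (t * B / Y) ^ 2 := by ring
  have hd4 := aux5 hd3 ((tri_lip _ _).trans hd1) (om1_nonneg _ _) (om1_le_one _ _)
    (tri_nonneg _) (tri_le_one _)
  refine hd4.trans ?_
  have h6 := aux6 (U := Y / (t ^ 2 * K)) (V := B ^ 2 / (K * Y)) (Z := (t * B / Y) ^ 2) hρ hη
    (by positivity) (by positivity) (by positivity)
  unfold EE
  linarith only [h6, hφ2]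

theorem tri_abs (x : ℝ) : tri |x| = tri x := by
  unfold tri
  rw [abs_abs]

theorem phi_bd {ρ Y B La Lb t : ℝ} (hρ : 1 ≤ ρ) (hB : 0 < B) (ht : 1 ≤ t) (hY : 0 < Y)
    (hYB : 32 * ρ * t * B ≤ Y) (hLa : Y / ρ ≤ La) (hLb : Y / ρ ≤ Lb) :
    0 < 4 * t * B / Real.sqrt (La * Lb) ∧ 4 * t * B / Real.sqrt (La * Lb) ≤ 1 / 8 := by
  have hρ0 : 0 < ρ := by linarith
  have hYρ : 0 < Y / ρ := div_pos hY hρ0
  have hLa0 : 0 < La := by linarith
  have hLb0 : 0 < Lb := by linarith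
  have hG0 : 0 < Real.sqrt (La * Lb) := Real.sqrt_pos.2 (mul_pos hLa0 hLb0)
  have hG2 : Real.sqrt (La * Lb) ^ 2 = La * Lb := Real.sq_sqrt (mul_pos hLa0 hLb0).le
  have hGY : Y / ρ ≤ Real.sqrt (La * Lb) := by
    rw [← sq_le_sq₀ hYρ.le hG0.le, hG2, sq]
    exact mul_le_mul hLa hLb hYρ.le hLa0.le
  have hG32 : 32 * (t * B) ≤ Real.sqrt (La * Lb) := by
    refine le_trans ?_ hGY
    rw [le_div_iff₀ hρ0]
    linarith
  refine ⟨by positivity, ?_⟩
  rw [div_le_iff₀ hG0]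
  linarith

end KERM

open KERM

theorem specKER : SpecKER := by
  intro κ ρ η Y K B La Lb t z z' hκ hρ hη hη2 hK hB ht hY hYB hLa hLb hLaY hLbY hz1 hz2 hz1' hz2'
  have ht1 : (1 : ℝ) ≤ t := by exact_mod_cast ht
  have hρ0 : 0 < ρ := by linarith
  have hYρ : 0 < Y / ρ := div_pos hY hρ0
  obtain ⟨hφ0, hφ8⟩ := phi_bd hρ hB ht1 hY hYB hLa hLb
  set a := Real.sqrt (nm z) with ha
  set b := Real.sqrt (nm z') with hb
  have ha0 : 0 ≤ a := Real.sqrt_nonneg _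
  have hb0 : 0 ≤ b := Real.sqrt_nonneg _
  have ha2 : a ^ 2 = nm z := Real.sq_sqrt (Nat.cast_nonneg _)
  have hb2 : b ^ 2 = nm z' := Real.sq_sqrt (Nat.cast_nonneg _)
  set w : ℂ := GaussianInt.toComplex z * conj (GaussianInt.toComplex z') with hw
  have hwn : ‖w‖ = a * b := by
    rw [hw, norm_mul, Complex.norm_conj, norm_toComplex, norm_toComplex]
  have hwre : w.re = (z.re : ℝ) * z'.re + z.im * z'.im := by
    rw [hw, Complex.mul_re, Complex.conj_re, Complex.conj_im, ← GaussianInt.intCast_re,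
      ← GaussianInt.intCast_re, ← GaussianInt.intCast_im, ← GaussianInt.intCast_im]
    ring
  have hwim : w.im = (crs z' z : ℝ) := by
    rw [hw, Complex.mul_im, Complex.conj_re, Complex.conj_im, ← GaussianInt.intCast_re,
      ← GaussianInt.intCast_re, ← GaussianInt.intCast_im, ← GaussianInt.intCast_im, crs]
    push_cast
    ring
  have hab : 0 < a * b := by
    have h1 : 0 < a := Real.sqrt_pos.2 (by linarith)
    have h2 : 0 < b := Real.sqrt_pos.2 (by linarith)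
    exact mul_pos h1 h2
  have hw0 : w ≠ 0 := by
    rw [← norm_pos_iff, hwn]
    exact hab
  set θ := Complex.arg w with hθ
  have hc : w.re = a * b * Real.cos θ := by
    rw [← hwn]
    exact (Complex.norm_mul_cos_arg w).symm
  have hs : (crs z' z : ℝ) = a * b * Real.sin θ := by
    rw [← hwim, ← hwn]
    exact (Complex.norm_mul_sin_arg w).symm
  have hnm : (nm (z' - z) : ℝ) = a ^ 2 + b ^ 2 - 2 * (a * b * Real.cos θ) := by
    rw [ha2, hb2, ← hc, hwre, nm_castR, nm_castR, nm_castR, Zsqrtd.re_sub, Zsqrtd.im_sub]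
    push_cast
    ring
  have hθpi : |θ| ≤ Real.pi := Complex.abs_arg_le_pi w
  have hsin : |(crs z' z : ℝ)| = a * b * Real.sin |θ| := by
    rw [hs, abs_mul, abs_of_pos hab, Real.abs_sin_eq_sin_abs_of_abs_le_pi hθpi]
  have hang : ang z z' = |θ| := rfl
  have hom : om2 ((crs z' z : ℝ) / ((t : ℝ) * B)) =
      2 * tri (|(crs z' z : ℝ)| / (4 * t * B)) := by
    unfold om2
    have h1 : |(crs z' z : ℝ)| / (4 * t * B) = |(crs z' z : ℝ) / ((t : ℝ) * B) / 4| := by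
      rw [div_div, abs_div, abs_of_pos (show (0 : ℝ) < t * B * 4 by positivity)]
      congr 1
      ring
    rw [h1, tri_abs]
  have hnn : 0 ≤ (if |(crs z' z : ℝ)| ≤ 8 * t * B then EE ρ η Y K B t else 0) := by
    split_ifs
    · unfold EE
      positivity
    · exact le_refl _
  have hpos : pos z z' ↔ a < b * Real.cos θ := by
    have hz0 : 0 < a := Real.sqrt_pos.2 (by linarith)
    have h1 : (((star (z' - z) * z).re : ℤ) : ℝ) = a * (b * Real.cos θ - a) := by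
      have h2 : a * (b * Real.cos θ - a) = w.re - nm z := by
        rw [hc, ← ha2]
        ring
      rw [h2, hwre, nm_castR, Zsqrtd.re_mul, Zsqrtd.re_star, Zsqrtd.im_star, Zsqrtd.re_sub,
        Zsqrtd.im_sub]
      push_cast
      ring
    have h3 : pos z z' ↔ (0 : ℝ) < (((star (z' - z) * z).re : ℤ) : ℝ) := by
      unfold pos
      exact Int.cast_pos.symm
    rw [h3, h1, mul_pos_iff_of_pos_left hz0, sub_pos]
  rw [hom, hang]
  set φ := 4 * t * B / Real.sqrt (La * Lb) with hφ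
  have hpi3 := Real.pi_gt_three
  rcases lt_or_ge (Real.pi / 2) |θ| with hcase | hcase
  · have h0 : tri (|θ| / φ) = 0 := by
      apply tri_zero
      rw [abs_of_nonneg (div_nonneg (abs_nonneg _) hφ0.le), one_le_div hφ0]
      linarith
    have h1 : ¬ pos z z' := by
      rw [hpos, not_lt]
      have h2 : Real.cos |θ| < 0 :=
        Real.cos_neg_of_pi_div_two_lt_of_lt hcase (by linarith)
      rw [Real.cos_abs] at h2
      have h3 : b * Real.cos θ ≤ 0 := mul_nonpos_of_nonneg_of_nonpos hb0 h2.le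
      linarith
    rw [h0, if_neg h1, mul_zero, mul_zero, sub_zero, abs_zero]
    exact hnn
  · have hcore := core (κ := κ) (α := |θ|) (σ := 1) (t := t) hκ hρ hη hη2 hK hB ht1 hY hYB hLa hLb
      hLaY hLbY ha0 hb0 (by rw [ha2]; exact hz1) (by rw [ha2]; exact hz2) (by rw [hb2]; exact hz1')
      (by rw [hb2]; exact hz2') (abs_nonneg _) hcase (Or.inl rfl)
    rw [Real.cos_abs, ← hsin, mul_one, one_mul, ← hnm, ← hφ] at hcore
    by_cases hxy : 1 ≤ |(crs z' z : ℝ)| / (4 * t * B) ∧ 1 ≤ |θ| / φ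
    · rw [tri_zero (hxy.1.trans (le_abs_self _)), tri_zero (hxy.2.trans (le_abs_self _)), mul_zero,
        mul_zero, mul_zero, mul_zero]
      simp only [ite_self, sub_zero, abs_zero]
      exact hnn
    have hE := exp_bd hη hη2
    obtain ⟨hcr, hW, hab3, hα4, hα5⟩ := pre (α := |θ|) (t := t) hρ hη hη2 hB ht1 hY hYB hLa hLb
      ha0 hb0 (by rw [ha2]; exact hz1) (by rw [ha2]; exact hz2) (by rw [hb2]; exact hz1')
      (by rw [hb2]; exact hz2') (abs_nonneg _) hcase (by rw [← hsin]; exact hxy)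
    rw [← hsin] at hcr
    rw [if_pos hcr] at hcore ⊢
    have hLa0 : 0 < La := by linarith
    have hLb0 : 0 < Lb := by linarith
    have hP0 : 0 < Real.sqrt La := Real.sqrt_pos.2 hLa0
    have hQ0 : 0 < Real.sqrt Lb := Real.sqrt_pos.2 hLb0
    have hPa : Real.sqrt La ≤ a := Real.sqrt_le_sqrt hz1
    have hQb : Real.sqrt Lb ≤ b := Real.sqrt_le_sqrt hz1'
    have haP := sub_root (a := a) hP0 (Real.sq_sqrt hLa0.le) hη hE.2 (by rw [ha2]; exact hz2) hPa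
    have hbQ := sub_root (a := b) hQ0 (Real.sq_sqrt hLb0.le) hη hE.2 (by rw [hb2]; exact hz2') hQb
    have hy0 : 0 < Real.sqrt Y := Real.sqrt_pos.2 hY
    have hy2 : Real.sqrt Y ^ 2 = Y := Real.sq_sqrt hY.le
    have hay : a ≤ Real.sqrt Y := Real.sqrt_le_sqrt (hz2.trans hLaY)
    have hby : b ≤ Real.sqrt Y := Real.sqrt_le_sqrt (hz2'.trans hLbY)
    have hcos : 1 - |θ| ^ 2 / 2 ≤ Real.cos θ := by
      rw [← Real.cos_abs]
      exact Real.one_sub_sq_div_two_le_cos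
    have htK : 0 < (t : ℝ) ^ 2 * K := by positivity
    by_cases hp : pos z z'
    · rw [if_pos hp]
      by_cases hL : La < Lb
      · rw [if_pos hL]
        have h1 : om1 κ ((nm (z' - z) : ℝ) / ((t : ℝ) ^ 2 * K)) *
            (2 * tri (|(crs z' z : ℝ)| / (4 * t * B))) -
            2 * (om1 κ ((Real.sqrt La - Real.sqrt Lb) ^ 2 / ((t : ℝ) ^ 2 * K)) * tri (|θ| / φ)) =
            2 * (om1 κ ((nm (z' - z) : ℝ) / ((t : ℝ) ^ 2 * K)) *
              tri (|(crs z' z : ℝ)| / (4 * t * B)) -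
            om1 κ ((Real.sqrt La - Real.sqrt Lb) ^ 2 / ((t : ℝ) ^ 2 * K)) * tri (|θ| / φ)) := by
          ring
        rw [h1, abs_mul, abs_of_pos two_pos]
        linarith
      · rw [if_neg hL, zero_mul, mul_zero, sub_zero]
        have h1 := c3 (c := Real.cos θ) (t := t) hρ hη hY hQ0 hy2 hPa
          (Real.sqrt_le_sqrt (not_lt.1 hL)) hbQ (hQb.trans hby) hab3 hcos (Real.cos_le_one _) hb0
          (hpos.1 hp) hW
        have h2 : a ^ 2 + b ^ 2 - 2 * 1 * (a * b * Real.cos θ) = (nm (z' - z) : ℝ) := by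
          rw [hnm]
          ring
        rw [h2] at h1
        refine le_trans ?_ (EE_ge hρ hη hη2 hK hY ht1 h1)
        have h3 : 0 ≤ (nm (z' - z) : ℝ) / ((t : ℝ) ^ 2 * K) := by positivity
        have h4 := om1_le (κ := κ) h3
        have h5 := om1_nonneg κ ((nm (z' - z) : ℝ) / ((t : ℝ) ^ 2 * K))
        have h6 := tri_nonneg (|(crs z' z : ℝ)| / (4 * t * B))
        have h7 := tri_le_one (|(crs z' z : ℝ)| / (4 * t * B))
        rw [abs_of_nonneg (mul_nonneg h5 (by linarith))]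
        calc om1 κ ((nm (z' - z) : ℝ) / ((t : ℝ) ^ 2 * K)) *
            (2 * tri (|(crs z' z : ℝ)| / (4 * t * B))) ≤
            (2 * ((nm (z' - z) : ℝ) / ((t : ℝ) ^ 2 * K))) * (2 * 1) :=
              mul_le_mul h4 (by linarith) (by linarith) (by positivity)
          _ = 2 * (2 * ((nm (z' - z) : ℝ) / ((t : ℝ) ^ 2 * K))) := by ring
    · rw [if_neg hp]
      by_cases hL : La < Lb
      · rw [if_pos hL, zero_sub, abs_neg]
        have h1 := c4 (c := Real.cos θ) (t := t) (ρ := ρ) (B := B) hη hY hy2 hy0 hQb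
          (Real.sqrt_lt_sqrt hLa0.le hL) haP (hPa.trans hay) hby hcos hb0
          (not_lt.1 (fun h => hp (hpos.2 h))) hα4 hα5
        refine le_trans ?_ (EE_ge hρ hη hη2 hK hY ht1 h1)
        have h3 : 0 ≤ (Real.sqrt La - Real.sqrt Lb) ^ 2 / ((t : ℝ) ^ 2 * K) := by positivity
        have h4 := om1_le (κ := κ) h3
        have h5 := om1_nonneg κ ((Real.sqrt La - Real.sqrt Lb) ^ 2 / ((t : ℝ) ^ 2 * K))
        have h6 := tri_nonneg (|θ| / φ)
        have h7 := tri_le_one (|θ| / φ)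
        rw [abs_of_nonneg (mul_nonneg two_pos.le (mul_nonneg h5 h6))]
        refine mul_le_mul_of_nonneg_left ?_ two_pos.le
        calc om1 κ ((Real.sqrt La - Real.sqrt Lb) ^ 2 / ((t : ℝ) ^ 2 * K)) * tri (|θ| / φ) ≤
            (2 * ((Real.sqrt La - Real.sqrt Lb) ^ 2 / ((t : ℝ) ^ 2 * K))) * 1 :=
              mul_le_mul h4 h7 h6 (by positivity)
          _ = _ := mul_one _
      · rw [if_neg hL, zero_mul, mul_zero, sub_zero, abs_zero]
        unfold EE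
        positivity

end Pool.Agent.Lib.MP391708.XV
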