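import Pool.Agent.Lib.MP_391708_nt.X.SpecVAR
import Pool.Agent.Lib.MP_391708_nt.MR.Basic

/-!
# Theorem X, part VAR, module LIN (helper26): linearisation of the second moment of the line sums
-/

set_option autoImplicit false

namespace Pool.Agent.Lib.MP391708.XV

open Finset Filter Topology Pool.Agent.Lib.MP391708.MR
open scoped ComplexConjugate

namespace LINM

/-! ### Cutoffs -/

lemma om2_nonneg (x : ℝ) : 0 ≤ om2 x := by
  unfold om2 tri
  have := le_max_left (0 : ℝ) (1 - |x / 4|)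
  linarith

lemma om2_le (x : ℝ) : om2 x ≤ 2 := by
  unfold om2 tri
  have : max (0 : ℝ) (1 - |x / 4|) ≤ 1 := max_le zero_le_one (by linarith [abs_nonneg (x / 4)])
  linarith

lemma one_le_om2 {x : ℝ} (h : |x| ≤ 2) : 1 ≤ om2 x := by
  unfold om2 tri
  have h1 : |x / 4| = |x| / 4 := by rw [abs_div]; norm_num
  have := le_max_right (0 : ℝ) (1 - |x / 4|)
  rw [h1] at this ⊢
  linarith

lemma om2_zero {x : ℝ} (h : 4 < |x|) : om2 x = 0 := by
  unfold om2 tri
  have h1 : |x / 4| = |x| / 4 := by rw [abs_div]; norm_num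
  rw [h1, max_eq_left (by linarith), mul_zero]

lemma om1_nonneg (κ x : ℝ) : 0 ≤ om1 κ x := le_max_left _ _

lemma om1_le_one (κ x : ℝ) : om1 κ x ≤ 1 := max_le zero_le_one (min_le_left _ _)

lemma om1_eq_one {κ x : ℝ} (hκ : 1 ≤ κ) (h1 : 1 ≤ x) (h2 : x ≤ κ) : om1 κ x = 1 := by
  unfold om1
  have h3 : x / κ ≤ 1 := (div_le_one (by linarith)).2 h2
  rw [min_eq_left (le_min (by linarith) (by linarith)), max_eq_right zero_le_one]

lemma om1_small {κ x : ℝ} (h : 2 * x ≤ 1) : om1 κ x = 0 := by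
  unfold om1
  exact max_eq_left ((min_le_right _ _).trans ((min_le_left _ _).trans (by linarith)))

lemma om1_large {κ x : ℝ} (hκ : 0 < κ) (h : 2 * κ ≤ x) : om1 κ x = 0 := by
  unfold om1
  have h1 : 2 ≤ x / κ := (le_div_iff₀ hκ).2 h
  exact max_eq_left ((min_le_right _ _).trans ((min_le_right _ _).trans (by linarith)))

/-! ### Real products -/

/-- the real part of the product -/
noncomputable def g (f : Gi → ℂ) (z z' : Gi) : ℝ := (f z * conj (f z')).re

lemma g_symm (f : Gi → ℂ) (z z' : Gi) : g f z z' = g f z' z := by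
  unfold g
  rw [Complex.mul_re, Complex.mul_re, Complex.conj_re, Complex.conj_im, Complex.conj_re,
    Complex.conj_im]
  ring

lemma g_self (f : Gi → ℂ) (z : Gi) : g f z z = ‖f z‖ ^ 2 := by
  unfold g
  rw [Complex.mul_conj, Complex.ofReal_re, Complex.normSq_eq_norm_sq]

lemma sum_g (f : Gi → ℂ) (A : Finset Gi) :
    ∑ z ∈ A, ∑ z' ∈ A, g f z z' = ‖∑ z ∈ A, f z‖ ^ 2 := by
  have h : ∑ z ∈ A, ∑ z' ∈ A, f z * conj (f z') = (∑ z ∈ A, f z) * conj (∑ z ∈ A, f z) := by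
    rw [map_sum, Finset.sum_mul_sum]
  have h2 := congrArg Complex.re h
  rw [Complex.mul_conj, Complex.ofReal_re, Complex.normSq_eq_norm_sq] at h2
  rw [← h2]
  simp only [Complex.re_sum, g]

lemma fib {α : Type*} [DecidableEq α] (p : Gi → α) (w : α → ℝ) (f : Gi → ℂ) (S : Finset Gi) :
    ∑ z ∈ S, ∑ z' ∈ S, (if p z' = p z then g f z z' * w (p z) else 0) =
      ∑ c ∈ S.image p, w c * ‖∑ z ∈ S.filter (fun z => p z = c), f z‖ ^ 2 := by
  rw [← Finset.sum_fiberwise_of_maps_to (g := p) (t := S.image p)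
    (fun z hz => mem_image_of_mem p hz)]
  refine sum_congr rfl fun c hc => ?_
  rw [← sum_g, mul_sum]
  refine sum_congr rfl fun z hz => ?_
  have hz' : p z = c := (mem_filter.1 hz).2
  rw [mul_sum, sum_filter]
  refine sum_congr rfl fun z' _ => ?_
  rw [hz']
  split_ifs
  · ring
  · rfl

/-! ### The relation -/

/-- the same class -/
def R (z1 z z' : Gi) : Prop := ∃ m : ℤ, z' - z = (m : Gi) * star z1

/-- the positive relation -/
def Rp (z1 z z' : Gi) : Prop := ∃ t : ℕ, 1 ≤ t ∧ z' - z = md t * star z1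

lemma im_of_R {z1 z z' : Gi} (h : R z1 z z') : (z1 * z').im = (z1 * z).im := by
  obtain ⟨m, hm⟩ := h
  have : z' = z + (m : Gi) * star z1 := by rw [← hm]; ring
  rw [this]
  simp only [Zsqrtd.im_mul, Zsqrtd.re_mul, Zsqrtd.re_add, Zsqrtd.im_add, Zsqrtd.re_intCast,
    Zsqrtd.im_intCast, Zsqrtd.re_star, Zsqrtd.im_star]
  ring

lemma R_of_im {z1 z z' : Gi} (h1 : prim z1) (h : (z1 * z').im = (z1 * z).im) : R z1 z z' := by
  obtain ⟨a, b, hab⟩ := Int.isCoprime_iff_gcd_eq_one.2 h1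
  have h2 : z1.re * (z' - z).im + z1.im * (z' - z).re = 0 := by
    simp only [Zsqrtd.im_mul] at h
    rw [Zsqrtd.im_sub, Zsqrtd.re_sub]
    linear_combination h
  refine ⟨a * (z' - z).re - b * (z' - z).im, ?_⟩
  apply Zsqrtd.ext
  · simp only [Zsqrtd.re_mul, Zsqrtd.re_intCast, Zsqrtd.im_intCast, Zsqrtd.re_star, Zsqrtd.im_star]
    linear_combination (-(z' - z).re) * hab + b * h2
  · simp only [Zsqrtd.im_mul, Zsqrtd.re_intCast, Zsqrtd.im_intCast, Zsqrtd.re_star, Zsqrtd.im_star]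
    linear_combination (-(z' - z).im) * hab + a * h2

open Classical in
/-- the weighted second moment over the classes -/
noncomputable def W (B : ℝ) (S : Finset Gi) (f : Gi → ℂ) (z1 : Gi) : ℝ :=
  ∑ z ∈ S, ∑ z' ∈ S, (if R z1 z z' then g f z z' * om2 (((z1 * z).im : ℝ) / B) else 0)

lemma W_nonneg (B : ℝ) (S : Finset Gi) (f : Gi → ℂ) (z1 : Gi) : 0 ≤ W B S f z1 := by
  classical
  obtain ⟨H, hH⟩ : ∃ H : AddSubgroup Gi, H = AddSubgroup.zmultiples (star z1 : Gi) := ⟨_, rfl⟩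
  have hR : ∀ z z' : Gi, R z1 z z' ↔ (QuotientAddGroup.mk z' : Gi ⧸ H) = QuotientAddGroup.mk z := by
    intro z z'
    rw [eq_comm, QuotientAddGroup.eq, hH, AddSubgroup.mem_zmultiples_iff]
    constructor
    · rintro ⟨m, hm⟩
      exact ⟨m, by rw [zsmul_eq_mul, ← hm]; ring⟩
    · rintro ⟨m, hm⟩
      exact ⟨m, by rw [← zsmul_eq_mul, hm]; ring⟩
  have e : W B S f z1 = ∑ z ∈ S, ∑ z' ∈ S,
      (if (QuotientAddGroup.mk z' : Gi ⧸ H) = QuotientAddGroup.mk z then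
        g f z z' * om2 (((z1 * (QuotientAddGroup.mk z : Gi ⧸ H).out).im : ℝ) / B) else 0) := by
    unfold W
    refine sum_congr rfl fun z _ => sum_congr rfl fun z' _ => ?_
    have h1 : (z1 * (QuotientAddGroup.mk z : Gi ⧸ H).out).im = (z1 * z).im := by
      apply im_of_R
      rw [hR]
      exact QuotientAddGroup.out_eq' _
    rw [h1]
    by_cases h : R z1 z z'
    · rw [if_pos h, if_pos ((hR z z').1 h)]
    · rw [if_neg h, if_neg (fun h' => h ((hR z z').2 h'))]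
  rw [e, fib (fun z : Gi => (QuotientAddGroup.mk z : Gi ⧸ H))
    (fun c => om2 (((z1 * c.out).im : ℝ) / B)) f S]
  exact sum_nonneg fun c _ => mul_nonneg (om2_nonneg _) (by positivity)

/-- the half of `S` -/
def Hf (S : Finset Gi) (z1 : Gi) : Finset Gi := S.filter (fun z => 0 < (z1 * z).re)

lemma ls_eq (S : Finset Gi) (f : Gi → ℂ) (z1 : Gi) (b : ℤ) :
    ls S f z1 b = ∑ z ∈ (Hf S z1).filter (fun z => (z1 * z).im = b), f z := by
  unfold ls Hf
  rw [filter_filter]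
  refine sum_congr (filter_congr fun z _ => ?_) fun _ _ => rfl
  exact and_comm

lemma W_ge {B : ℝ} (hB : 0 < B) (S : Finset Gi) (f : Gi → ℂ) {z1 : Gi} (h1 : prim z1) :
    ∑ b ∈ Ioc ⌊B⌋ ⌊2 * B⌋, ‖ls S f z1 b‖ ^ 2 ≤ W B (Hf S z1) f z1 := by
  classical
  have e : W B (Hf S z1) f z1 = ∑ c ∈ (Hf S z1).image (fun z : Gi => (z1 * z).im),
      om2 ((c : ℝ) / B) * ‖ls S f z1 c‖ ^ 2 := by
    have h := fib (fun z : Gi => (z1 * z).im) (fun c : ℤ => om2 ((c : ℝ) / B)) f (Hf S z1)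
    simp only [ls_eq]
    rw [← h]
    unfold W
    refine sum_congr rfl fun z _ => sum_congr rfl fun z' _ => ?_
    by_cases h : R z1 z z'
    · rw [if_pos h, if_pos (im_of_R h)]
    · rw [if_neg h, if_neg (fun h' => h (R_of_im h1 h'))]
  rw [e]
  have e1 : ∑ b ∈ Ioc ⌊B⌋ ⌊2 * B⌋, ‖ls S f z1 b‖ ^ 2 =
      ∑ b ∈ (Ioc ⌊B⌋ ⌊2 * B⌋).filter (fun b => b ∈ (Hf S z1).image (fun z : Gi => (z1 * z).im)),
        ‖ls S f z1 b‖ ^ 2 := by
    refine (sum_filter_of_ne fun b _ hb => ?_).symm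
    by_contra hb'
    apply hb
    have : ls S f z1 b = 0 := by
      rw [ls_eq, filter_eq_empty_iff.2, sum_empty]
      intro z hz hzb
      exact hb' (mem_image.2 ⟨z, hz, hzb⟩)
    rw [this, norm_zero]
    norm_num
  rw [e1]
  refine (sum_le_sum (g := fun b : ℤ => om2 ((b : ℝ) / B) * ‖ls S f z1 b‖ ^ 2)
    fun b hb => ?_).trans (sum_le_sum_of_subset_of_nonneg (fun b hb => (mem_filter.1 hb).2)
      fun b _ _ => mul_nonneg (om2_nonneg _) (by positivity))
  have hb1 := mem_Ioc.1 (mem_filter.1 hb).1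
  have h2 : B < b := Int.floor_lt.1 hb1.1
  have h3 : (b : ℝ) ≤ 2 * B := Int.le_floor.1 hb1.2
  have h4 : |(b : ℝ) / B| ≤ 2 := by
    rw [abs_of_nonneg (div_nonneg (by linarith) hB.le), div_le_iff₀ hB]
    exact h3
  have h5 := one_le_om2 h4
  have h6 : 0 ≤ ‖ls S f z1 b‖ ^ 2 := by positivity
  nlinarith

open Classical in
/-- the part of the positive relation -/
noncomputable def Wp (B : ℝ) (S : Finset Gi) (f : Gi → ℂ) (z1 : Gi) : ℝ :=
  ∑ z ∈ S, ∑ z' ∈ S, (if Rp z1 z z' then g f z z' * om2 (((z1 * z).im : ℝ) / B) else 0)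

lemma star_ne {z1 : Gi} (h : z1 ≠ 0) : (star z1 : Gi) ≠ 0 := star_ne_zero.2 h

lemma R_of_Rp {z1 z z' : Gi} (h : Rp z1 z z') : R z1 z z' := by
  obtain ⟨t, _, ht⟩ := h
  exact ⟨(t : ℤ), ht⟩

lemma R_of_Rp' {z1 z z' : Gi} (h : Rp z1 z' z) : R z1 z z' := by
  obtain ⟨t, _, ht⟩ := h
  refine ⟨-(t : ℤ), ?_⟩
  rw [Int.cast_neg, neg_mul]
  change z' - z = -(md t * star z1)
  rw [← ht]
  ring

lemma md_ne {t : ℕ} (ht : 1 ≤ t) : md t ≠ 0 := by
  intro h
  have := congrArg Zsqrtd.re h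
  rw [md, Zsqrtd.re_intCast] at this
  change (t : ℤ) = 0 at this
  omega

lemma ne_of_Rp {z1 z z' : Gi} (h1 : z1 ≠ 0) (h : Rp z1 z z') : z ≠ z' := by
  rintro rfl
  obtain ⟨t, ht, h2⟩ := h
  rw [sub_self] at h2
  exact mul_ne_zero (md_ne ht) (star_ne h1) h2.symm

lemma not_both {z1 z z' : Gi} (h1 : z1 ≠ 0) (h : Rp z1 z z') (h' : Rp z1 z' z) : False := by
  obtain ⟨t, ht, h2⟩ := h
  obtain ⟨s, hs, h3⟩ := h'
  have h4 : (md t + md s) * star z1 = 0 := by
    rw [add_mul, ← h2, ← h3]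
    ring
  have h5 : md t + md s = md (t + s) := by
    unfold md
    push_cast
    ring
  rw [h5] at h4
  exact mul_ne_zero (md_ne (by omega)) (star_ne h1) h4

lemma R_cases {z1 z z' : Gi} (h : R z1 z z') : z = z' ∨ Rp z1 z z' ∨ Rp z1 z' z := by
  obtain ⟨m, hm⟩ := h
  rcases lt_trichotomy m 0 with h | h | h
  · right; right
    refine ⟨m.natAbs, by omega, ?_⟩
    have h1 : ((m.natAbs : ℕ) : ℤ) = -m := by omega
    rw [md, h1, Int.cast_neg, neg_mul, ← hm]
    ring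
  · left
    rw [h, Int.cast_zero, zero_mul, sub_eq_zero] at hm
    exact hm.symm
  · right; left
    refine ⟨m.natAbs, by omega, ?_⟩
    have h1 : ((m.natAbs : ℕ) : ℤ) = m := by omega
    rw [md, h1, ← hm]

lemma W_split (B : ℝ) (S : Finset Gi) (f : Gi → ℂ) {z1 : Gi} (h1 : z1 ≠ 0) :
    W B S f z1 = ∑ z ∈ S, ‖f z‖ ^ 2 * om2 (((z1 * z).im : ℝ) / B) + 2 * Wp B S f z1 := by
  classical
  have e : W B S f z1 = ∑ z ∈ S, ∑ z' ∈ S,
      ((if z = z' then g f z z' * om2 (((z1 * z).im : ℝ) / B) else 0) +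
        (if Rp z1 z z' then g f z z' * om2 (((z1 * z).im : ℝ) / B) else 0) +
        (if Rp z1 z' z then g f z z' * om2 (((z1 * z).im : ℝ) / B) else 0)) := by
    unfold W
    refine sum_congr rfl fun z _ => sum_congr rfl fun z' _ => ?_
    by_cases ha : z = z'
    · have hR : R z1 z z' := ⟨0, by rw [ha, sub_self, Int.cast_zero, zero_mul]⟩
      rw [if_pos hR, if_pos ha, if_neg (fun h => ne_of_Rp h1 h ha),
        if_neg (fun h => ne_of_Rp h1 h ha.symm), add_zero, add_zero]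
    · rw [if_neg ha]
      by_cases hb : Rp z1 z z'
      · rw [if_pos (R_of_Rp hb), if_pos hb, if_neg (fun h => not_both h1 hb h), zero_add, add_zero]
      · rw [if_neg hb]
        by_cases hc : Rp z1 z' z
        · rw [if_pos (R_of_Rp' hc), if_pos hc, zero_add, zero_add]
        · rw [if_neg hc, if_neg, add_zero, add_zero]
          intro h
          rcases R_cases h with h | h | h
          · exact ha h
          · exact hb h
          · exact hc h
  rw [e]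
  simp only [sum_add_distrib]
  have e1 : ∑ z ∈ S, ∑ z' ∈ S, (if z = z' then g f z z' * om2 (((z1 * z).im : ℝ) / B) else 0) =
      ∑ z ∈ S, ‖f z‖ ^ 2 * om2 (((z1 * z).im : ℝ) / B) := by
    refine sum_congr rfl fun z hz => ?_
    rw [sum_ite_eq, if_pos hz, g_self]
  have e2 : ∑ z ∈ S, ∑ z' ∈ S, (if Rp z1 z' z then g f z z' * om2 (((z1 * z).im : ℝ) / B) else 0) =
      Wp B S f z1 := by
    rw [sum_comm]
    unfold Wp
    refine sum_congr rfl fun z _ => sum_congr rfl fun z' _ => ?_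
    by_cases h : Rp z1 z z'
    · rw [if_pos h, if_pos h, g_symm, im_of_R (R_of_Rp h)]
    · rw [if_neg h, if_neg h]
  rw [e1, e2]
  unfold Wp
  ring

/-! ### The halves -/

lemma pos_iff {z1 z z' : Gi} (h : Rp z1 z z') : pos z z' ↔ 0 < (z1 * z).re := by
  obtain ⟨t, ht, h2⟩ := h
  unfold pos
  have h3 : (star (z' - z) * z).re = (t : ℤ) * (z1 * z).re := by
    rw [h2, md]
    simp only [Zsqrtd.im_mul, Zsqrtd.re_mul, Zsqrtd.re_intCast, Zsqrtd.im_intCast, Zsqrtd.re_star,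
      Zsqrtd.im_star]
    ring
  rw [h3]
  exact mul_pos_iff_of_pos_left (by exact_mod_cast ht)

lemma half' {z1 z z' : Gi} (h : Rp z1 z z') (hz : 0 < (z1 * z).re) : 0 < (z1 * z').re := by
  obtain ⟨t, ht, h2⟩ := h
  have h3 : z' = z + md t * star z1 := by rw [← h2]; ring
  have h4 : (z1 * z').re = (z1 * z).re + (t : ℤ) * (z1.re ^ 2 + z1.im ^ 2) := by
    rw [h3, md]
    simp only [Zsqrtd.im_mul, Zsqrtd.re_mul, Zsqrtd.re_add, Zsqrtd.im_add, Zsqrtd.re_intCast,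
      Zsqrtd.im_intCast, Zsqrtd.re_star, Zsqrtd.im_star]
    ring
  rw [h4]
  positivity

/-- the real product with the condition on the half -/
noncomputable def gp (f : Gi → ℂ) (z z' : Gi) : ℝ := if pos z z' then g f z z' else 0

open Classical in
lemma Wp_half (B : ℝ) (S : Finset Gi) (f : Gi → ℂ) (z1 : Gi) :
    Wp B (Hf S z1) f z1 = ∑ z ∈ S, ∑ z' ∈ S,
      (if Rp z1 z z' then gp f z z' * om2 (((z1 * z).im : ℝ) / B) else 0) := by
  unfold Wp Hf
  rw [sum_filter]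
  refine sum_congr rfl fun z _ => ?_
  by_cases hz : 0 < (z1 * z).re
  · rw [if_pos hz, sum_filter]
    refine sum_congr rfl fun z' _ => ?_
    by_cases h : Rp z1 z z'
    · rw [if_pos (half' h hz), if_pos h, if_pos h, gp, if_pos ((pos_iff h).2 hz)]
    · rw [if_neg h, if_neg h, ite_self]
  · rw [if_neg hz]
    symm
    apply sum_eq_zero
    intro z' _
    by_cases h : Rp z1 z z'
    · rw [if_pos h, gp, if_neg (fun h' => hz ((pos_iff h).1 h')), zero_mul]
    · rw [if_neg h]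

/-! ### The sum over the divisors -/

lemma nm_md (t : ℕ) : nm (md t) = t ^ 2 := by
  have h := nm_cast (md t)
  rw [md, Zsqrtd.re_intCast, Zsqrtd.im_intCast] at h
  have h2 : ((nm (md t) : ℕ) : ℤ) = ((t ^ 2 : ℕ) : ℤ) := by
    rw [md, h]
    push_cast
    ring
  exact_mod_cast h2

lemma nm_star (z : Gi) : nm (star z) = nm z := by
  unfold nm
  rw [Zsqrtd.re_star, Zsqrtd.im_star, neg_sq]

lemma kt {κ K : ℝ} (B : ℝ) {t : ℕ} (ht : 1 ≤ t) (hκ : 1 ≤ κ) (hK : 0 < K) (z z' : Gi)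
    [Decidable (md t ∣ z' - z)] :
    (if md t ∣ z' - z then om1 κ ((nm (z' - z) : ℝ) / ((t : ℝ) ^ 2 * K)) *
        om2 ((crs z' z : ℝ) / ((t : ℝ) * B)) else 0) =
      ∑ z1 ∈ disc (2 * κ * K), (if z' - z = md t * star z1 then
        om1 κ ((nm z1 : ℝ) / K) * om2 (((z1 * z).im : ℝ) / B) else 0) := by
  have htR : (0 : ℝ) < t := by exact_mod_cast ht
  by_cases h : md t ∣ z' - z
  · rw [if_pos h]
    obtain ⟨u, hu⟩ := h
    have hn : (nm (z' - z) : ℝ) = (t : ℝ) ^ 2 * nm u := by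
      rw [hu, nm_mul, nm_md]
      push_cast
      ring
    have hc : crs z' z = (t : ℤ) * (star u * z).im := by
      have h2 : z' = z + md t * u := by rw [← hu]; ring
      rw [h2]
      unfold crs md
      simp only [Zsqrtd.im_mul, Zsqrtd.re_mul, Zsqrtd.re_add, Zsqrtd.im_add, Zsqrtd.re_intCast,
        Zsqrtd.im_intCast, Zsqrtd.re_star, Zsqrtd.im_star]
      ring
    have e1 : (nm (z' - z) : ℝ) / ((t : ℝ) ^ 2 * K) = (nm (star u) : ℝ) / K := by
      rw [hn, nm_star, mul_div_mul_left _ _ (by positivity)]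
    have e2 : (crs z' z : ℝ) / ((t : ℝ) * B) = ((star u * z).im : ℝ) / B := by
      rw [hc]
      push_cast
      rw [mul_div_mul_left _ _ htR.ne']
    rw [e1, e2]
    have huniq : ∀ z1 : Gi, z' - z = md t * star z1 → z1 = star u := by
      intro z1 h1
      rw [hu] at h1
      have := mul_left_cancel₀ (md_ne ht) h1
      rw [this, star_star]
    by_cases hd : star u ∈ disc (2 * κ * K)
    · rw [sum_eq_single (star u)]
      · rw [if_pos (by rw [star_star]; exact hu)]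
      · intro z1 _ hne
        rw [if_neg (fun h1 => hne (huniq z1 h1))]
      · intro h1
        exact absurd hd h1
    · rw [sum_eq_zero]
      · have h0 : om1 κ ((nm (star u) : ℝ) / K) = 0 := by
          by_cases hu0 : star u = 0
          · rw [hu0, nm_zero]
            exact om1_small (by simp)
          · apply om1_large (by linarith)
            rw [mem_disc, not_and] at hd
            have := hd hu0
            rw [le_div_iff₀ hK]
            linarith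
        rw [h0, zero_mul]
      · intro z1 hz1
        rw [if_neg]
        intro h1
        rw [huniq z1 h1] at hz1
        exact hd hz1
  · rw [if_neg h, sum_eq_zero]
    intro z1 _
    rw [if_neg]
    intro h1
    exact h ⟨_, h1⟩

lemma nm_sub_le (z z' : Gi) : (nm (z' - z) : ℝ) ≤ 2 * nm z + 2 * nm z' := by
  rw [nm_castR, nm_castR, nm_castR, Zsqrtd.re_sub, Zsqrtd.im_sub]
  push_cast
  nlinarith [sq_nonneg ((z'.re : ℝ) + z.re), sq_nonneg ((z'.im : ℝ) + z.im)]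

lemma tS (κ : ℝ) {K Y : ℝ} {T1 : ℕ} (hK : 0 < K) (hT : 8 * Y ≤ (T1 : ℝ) ^ 2 * K) {z z' z1 : Gi}
    (hz : (nm z : ℝ) ≤ Y) (hz' : (nm z' : ℝ) ≤ Y) (hz1 : z1 ≠ 0) (w : ℝ) [Decidable (Rp z1 z z')] :
    ∑ t ∈ Icc 1 T1, (if z' - z = md t * star z1 then om1 κ ((nm z1 : ℝ) / K) * w else 0) =
      (if Rp z1 z z' then om1 κ ((nm z1 : ℝ) / K) * w else 0) := by
  by_cases h : Rp z1 z z'
  · rw [if_pos h]
    obtain ⟨t, ht, h2⟩ := h
    have huniq : ∀ s : ℕ, z' - z = md s * star z1 → s = t := by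
      intro s hs
      rw [h2] at hs
      have h3 := mul_right_cancel₀ (star_ne hz1) hs
      have h4 := congrArg Zsqrtd.re h3
      rw [md, md, Zsqrtd.re_intCast, Zsqrtd.re_intCast] at h4
      exact_mod_cast h4.symm
    by_cases hT' : t ≤ T1
    · rw [sum_eq_single t]
      · rw [if_pos h2]
      · intro s _ hne
        rw [if_neg (fun h1 => hne (huniq s h1))]
      · intro h1
        exact absurd (mem_Icc.2 ⟨ht, hT'⟩) h1
    · rw [sum_eq_zero]
      · have h0 : om1 κ ((nm z1 : ℝ) / K) = 0 := by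
          apply om1_small
          have h3 : (nm (z' - z) : ℝ) = (t : ℝ) ^ 2 * nm z1 := by
            rw [h2, nm_mul, nm_md, nm_star]
            push_cast
            ring
          have h4 := nm_sub_le z z'
          have h5 : (T1 : ℝ) ^ 2 ≤ (t : ℝ) ^ 2 := by
            have : (T1 : ℝ) ≤ t := by exact_mod_cast (not_le.1 hT').le
            gcongr
          have h7 : (0 : ℝ) < (t : ℝ) ^ 2 := by
            have : (0 : ℝ) < t := by exact_mod_cast ht
            positivity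
          have h6 : 2 * (nm z1 : ℝ) ≤ K := by
            have h8 : (t : ℝ) ^ 2 * (2 * (nm z1 : ℝ)) ≤ (t : ℝ) ^ 2 * K := by
              have h9 : (T1 : ℝ) ^ 2 * K ≤ (t : ℝ) ^ 2 * K := mul_le_mul_of_nonneg_right h5 hK.le
              nlinarith
            exact le_of_mul_le_mul_left h8 h7
          rw [← mul_div_assoc, div_le_one hK]
          exact h6
        rw [h0, zero_mul]
      · intro s hs
        rw [if_neg]
        intro h1
        rw [huniq s h1] at hs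
        exact hT' (mem_Icc.1 hs).2
  · rw [if_neg h, sum_eq_zero]
    intro t ht
    rw [if_neg]
    intro h1
    exact h ⟨t, (mem_Icc.1 ht).1, h1⟩

lemma VT_eq (κ K B : ℝ) (t : ℕ) (S : Finset Gi) (f : Gi → ℂ) [∀ z z' : Gi, Decidable (md t ∣ z' - z)] :
    VT κ K B t S f = ∑ z ∈ S, ∑ z' ∈ S, gp f z z' *
      (if md t ∣ z' - z then om1 κ ((nm (z' - z) : ℝ) / ((t : ℝ) ^ 2 * K)) *
        om2 ((crs z' z : ℝ) / ((t : ℝ) * B)) else 0) := by
  unfold VT
  rw [Complex.re_sum]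
  refine sum_congr rfl fun z _ => ?_
  rw [Complex.re_sum, sum_filter]
  refine sum_congr rfl fun z' _ => ?_
  by_cases h : md t ∣ z' - z
  · by_cases h' : pos z z'
    · rw [if_pos ⟨h, h'⟩, if_pos h, gp, if_pos h', Complex.re_mul_ofReal]
      rfl
    · rw [if_neg (fun h1 => h' h1.2), gp, if_neg h', zero_mul]
  · rw [if_neg (fun h1 => h h1.1), if_neg h, mul_zero]

lemma sum_VT {κ K B Y : ℝ} {T1 : ℕ} {S : Finset Gi} (f : Gi → ℂ) (hκ : 1 ≤ κ) (hK : 0 < K)
    (hT : 8 * Y ≤ (T1 : ℝ) ^ 2 * K) (hS : S ⊆ disc Y) :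
    ∑ t ∈ Icc 1 T1, VT κ K B t S f =
      ∑ z1 ∈ disc (2 * κ * K), om1 κ ((nm z1 : ℝ) / K) * Wp B (Hf S z1) f z1 := by
  classical
  have e1 : ∑ t ∈ Icc 1 T1, VT κ K B t S f = ∑ t ∈ Icc 1 T1, ∑ z ∈ S, ∑ z' ∈ S,
      ∑ z1 ∈ disc (2 * κ * K), gp f z z' * (if z' - z = md t * star z1 then
        om1 κ ((nm z1 : ℝ) / K) * om2 (((z1 * z).im : ℝ) / B) else 0) := by
    refine sum_congr rfl fun t ht => ?_
    rw [VT_eq]
    refine sum_congr rfl fun z _ => sum_congr rfl fun z' _ => ?_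
    rw [kt B (mem_Icc.1 ht).1 hκ hK, mul_sum]
  have e2 : ∑ z1 ∈ disc (2 * κ * K), om1 κ ((nm z1 : ℝ) / K) * Wp B (Hf S z1) f z1 =
      ∑ z1 ∈ disc (2 * κ * K), ∑ z ∈ S, ∑ z' ∈ S, ∑ t ∈ Icc 1 T1,
        gp f z z' * (if z' - z = md t * star z1 then
        om1 κ ((nm z1 : ℝ) / K) * om2 (((z1 * z).im : ℝ) / B) else 0) := by
    refine sum_congr rfl fun z1 hz1 => ?_
    rw [Wp_half, mul_sum]
    refine sum_congr rfl fun z hz => ?_
    rw [mul_sum]
    refine sum_congr rfl fun z' hz' => ?_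
    rw [← mul_sum, tS κ hK hT (mem_disc.1 (hS hz)).2 (mem_disc.1 (hS hz')).2 (mem_disc.1 hz1).1]
    split_ifs
    · ring
    · ring
  rw [e1, e2]
  have e3 : ∀ G : ℕ → Gi → Gi → Gi → ℝ,
      ∑ t ∈ Icc 1 T1, ∑ z ∈ S, ∑ z' ∈ S, ∑ z1 ∈ disc (2 * κ * K), G t z z' z1 =
      ∑ z1 ∈ disc (2 * κ * K), ∑ z ∈ S, ∑ z' ∈ S, ∑ t ∈ Icc 1 T1, G t z z' z1 := by
    intro G
    rw [sum_comm]
    rw [sum_comm (s := disc (2 * κ * K)) (t := S)]
    refine sum_congr rfl fun z _ => ?_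
    rw [sum_comm]
    rw [sum_comm (s := disc (2 * κ * K)) (t := S)]
    refine sum_congr rfl fun z' _ => ?_
    rw [sum_comm]
  exact e3 _

lemma diag {κ K B Y F : ℝ} {S : Finset Gi} {f : Gi → ℂ} (hB : 0 < B)
    (hS : S ⊆ disc Y) (hf : ∀ z ∈ S, ‖f z‖ ≤ F) :
    ∑ z1 ∈ disc (2 * κ * K), om1 κ ((nm z1 : ℝ) / K) *
      ∑ z ∈ Hf S z1, ‖f z‖ ^ 2 * om2 (((z1 * z).im : ℝ) / B) ≤
      2 * F ^ 2 * pcn (2 * κ * K) Y (4 * B) := by
  classical
  have e1 : (pcn (2 * κ * K) Y (4 * B) : ℝ) = ∑ z1 ∈ disc (2 * κ * K), ∑ z ∈ disc Y,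
      (if |((z1 * z).im : ℝ)| ≤ 4 * B then (1 : ℝ) else 0) := by
    unfold pcn
    rw [card_filter, sum_product]
    push_cast
    refine sum_nbij' (fun z => star z) (fun z => star z) ?_ ?_ ?_ ?_ ?_
    · intro z hz
      rw [mem_disc] at hz ⊢
      exact ⟨star_ne hz.1, by rw [nm_star]; exact hz.2⟩
    · intro z hz
      rw [mem_disc] at hz ⊢
      exact ⟨star_ne hz.1, by rw [nm_star]; exact hz.2⟩
    · intro z _
      exact star_star z
    · intro z _
      exact star_star z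
    · intro u _
      refine sum_congr rfl fun z _ => ?_
      have h : (star u * z).im = crs u z := by
        unfold crs
        simp only [Zsqrtd.im_mul, Zsqrtd.re_star, Zsqrtd.im_star]
        ring
      rw [h]
  rw [e1, mul_sum]
  refine sum_le_sum fun z1 _ => ?_
  have h1 : om1 κ ((nm z1 : ℝ) / K) * ∑ z ∈ Hf S z1, ‖f z‖ ^ 2 * om2 (((z1 * z).im : ℝ) / B) ≤
      ∑ z ∈ Hf S z1, ‖f z‖ ^ 2 * om2 (((z1 * z).im : ℝ) / B) := by
    have h2 : 0 ≤ ∑ z ∈ Hf S z1, ‖f z‖ ^ 2 * om2 (((z1 * z).im : ℝ) / B) :=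
      sum_nonneg fun z _ => mul_nonneg (by positivity) (om2_nonneg _)
    have h3 := om1_le_one κ ((nm z1 : ℝ) / K)
    nlinarith
  refine h1.trans ?_
  rw [mul_sum]
  refine (sum_le_sum fun z hz => ?_).trans (sum_le_sum_of_subset_of_nonneg
    ((filter_subset _ _).trans hS) fun z _ _ => ?_)
  · split_ifs with h
    · have h2 := om2_le (((z1 * z).im : ℝ) / B)
      have h3 := om2_nonneg (((z1 * z).im : ℝ) / B)
      have h4 : ‖f z‖ ^ 2 ≤ F ^ 2 := by
        have := hf z (mem_filter.1 hz).1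
        gcongr
      have h5 : 0 ≤ ‖f z‖ ^ 2 := by positivity
      nlinarith
    · have h2 : 4 < |((z1 * z).im : ℝ) / B| := by
        rw [abs_div, abs_of_pos hB, lt_div_iff₀ hB]
        exact not_le.1 h
      rw [om2_zero h2]
      simp
  · split_ifs
    · positivity
    · simp

end LINM

open LINM in
/-- **Module LIN**. -/
theorem specLIN : SpecLIN := by
  intro κ K B Y F T1 Z S f hκ hK hB hF hT hZ hS hf
  have hZ0 : ∀ z ∈ Z, z ≠ 0 := by
    rintro z hz rfl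
    have h1 := (hZ 0 hz).1
    unfold prim at h1
    simp at h1
  have hZd : Z ⊆ disc (2 * κ * K) := by
    intro z hz
    rw [mem_disc]
    refine ⟨hZ0 z hz, (hZ z hz).2.2.trans ?_⟩
    nlinarith [mul_pos (by linarith : (0 : ℝ) < κ) hK]
  calc ∑ z1 ∈ Z, ∑ b ∈ Ioc ⌊B⌋ ⌊2 * B⌋, ‖ls S f z1 b‖ ^ 2
      ≤ ∑ z1 ∈ Z, om1 κ ((nm z1 : ℝ) / K) * W B (Hf S z1) f z1 := by
        refine sum_le_sum fun z1 hz1 => ?_
        obtain ⟨h1, h2, h3⟩ := hZ z1 hz1
        rw [om1_eq_one hκ ((one_le_div hK).2 h2) ((div_le_iff₀ hK).2 h3), one_mul]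
        exact W_ge hB S f h1
    _ ≤ ∑ z1 ∈ disc (2 * κ * K), om1 κ ((nm z1 : ℝ) / K) * W B (Hf S z1) f z1 :=
        sum_le_sum_of_subset_of_nonneg hZd fun z1 _ _ =>
          mul_nonneg (om1_nonneg _ _) (W_nonneg _ _ _ _)
    _ = ∑ z1 ∈ disc (2 * κ * K), om1 κ ((nm z1 : ℝ) / K) *
          ∑ z ∈ Hf S z1, ‖f z‖ ^ 2 * om2 (((z1 * z).im : ℝ) / B) +
        2 * ∑ z1 ∈ disc (2 * κ * K), om1 κ ((nm z1 : ℝ) / K) * Wp B (Hf S z1) f z1 := by
        rw [mul_sum, ← sum_add_distrib]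
        refine sum_congr rfl fun z1 hz1 => ?_
        rw [W_split B (Hf S z1) f (mem_disc.1 hz1).1]
        ring
    _ ≤ 2 * F ^ 2 * pcn (2 * κ * K) Y (4 * B) + 2 * ∑ t ∈ Icc 1 T1, VT κ K B t S f := by
        rw [sum_VT f hκ hK hT hS]
        have := diag (κ := κ) (K := K) (Y := Y) hB hS hf
        linarith

end Pool.Agent.Lib.MP391708.XV
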