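import Pool.Agent.Lib.MP_391708_nt.X.SpecVAR

/-! MP_391708, Theorem X, part VAR, module LNE (helper86): points near a line. -/

set_option autoImplicit false

namespace Pool.Agent.Lib.MP391708.XV

open Finset Filter Topology Pool.Agent.Lib.MP391708.MR
open scoped ComplexConjugate

namespace LNEM

theorem toC_norm_le {Y : ℝ} {z : Gi} (h : z ∈ disc Y) :
    ‖GaussianInt.toComplex z‖ ≤ Real.sqrt Y := by
  rw [norm_toComplex]
  exact Real.sqrt_le_sqrt (mem_disc.mp h).2

end LNEM

open LNEM

theorem specLNE : SpecLNE := by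
  intro Y D u hu hY hD
  have hg : 0 < cont u := by
    unfold cont
    rw [Nat.pos_iff_ne_zero]
    intro h
    rw [Int.gcd_eq_zero_iff] at h
    exact hu (Zsqrtd.ext h.1 h.2)
  obtain ⟨a0, b0, hab, hre, him⟩ := Int.exists_gcd_one (m := u.re) (n := u.im) hg
  change u.re = a0 * (cont u : ℤ) at hre
  change u.im = b0 * (cont u : ℤ) at him
  set g : ℕ := cont u with hgdef
  have hgR : (0 : ℝ) < g := by exact_mod_cast hg
  obtain ⟨s, t, hst⟩ := Int.isCoprime_iff_gcd_eq_one.mpr hab
  have hnu : 0 < Real.sqrt (nm u) := Real.sqrt_pos.mpr (nm_posR hu)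
  -- the primitive vector
  set u0 : Gi := ⟨a0, b0⟩ with hu0
  have hug : u = ((g : ℕ) : Gi) * u0 := by
    apply Zsqrtd.ext
    · rw [hre, hu0]; simp; ring
    · rw [him, hu0]; simp; ring
  have hnorm : Real.sqrt (nm u) = g * ‖GaussianInt.toComplex u0‖ := by
    rw [← norm_toComplex, hug, map_mul, map_natCast, norm_mul, Complex.norm_natCast]
  set c0 : Gi → ℤ := fun z => a0 * z.im - b0 * z.re with hc0
  have hcrs : ∀ z, crs u z = (g : ℤ) * c0 z := by
    intro z
    unfold crs
    rw [hre, him, hc0]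
    ring
  set S : Finset Gi := (disc Y).filter (fun z => |(crs u z : ℝ)| ≤ D) with hS
  set B : ℝ := 2 * Real.sqrt Y * g / Real.sqrt (nm u) + 1 with hB
  have hB0 : 0 ≤ B := by positivity
  have hfib : ∀ j : ℤ, ((S.filter (fun z => c0 z = j)).card : ℝ) ≤ B := by
    intro j
    rcases (S.filter (fun z => c0 z = j)).eq_empty_or_nonempty with h | hne
    · rw [h]; simpa using hB0
    obtain ⟨zm, hzm, hmin⟩ := exists_min_image _ (fun z : Gi => s * z.re + t * z.im) hne
    have hkey : ∀ z ∈ S.filter (fun z => c0 z = j), ∃ m : ℕ,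
        (m : ℤ) = (s * z.re + t * z.im) - (s * zm.re + t * zm.im) ∧ z = zm + ((m : ℕ) : Gi) * u0 ∧
        (m : ℝ) ≤ 2 * Real.sqrt Y * g / Real.sqrt (nm u) := by
      intro z hz
      have h0 : 0 ≤ (s * z.re + t * z.im) - (s * zm.re + t * zm.im) := by
        have := hmin z hz
        linarith
      obtain ⟨m, hm⟩ := Int.eq_ofNat_of_zero_le h0
      have e1 : a0 * z.im - b0 * z.re = j := (mem_filter.mp hz).2
      have e2 : a0 * zm.im - b0 * zm.re = j := (mem_filter.mp hzm).2
      have hzeq : z = zm + ((m : ℕ) : Gi) * u0 := by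
        apply Zsqrtd.ext
        · have : z.re = zm.re + (m : ℤ) * a0 := by
            rw [← hm]
            have h3 : z.re * (s * a0 + t * b0) = z.re * 1 := by rw [hst]
            have h4 : zm.re * (s * a0 + t * b0) = zm.re * 1 := by rw [hst]
            linear_combination (-1) * h3 + h4 - t * e1 + t * e2
          rw [this, hu0]; simp
        · have : z.im = zm.im + (m : ℤ) * b0 := by
            rw [← hm]
            have h3 : z.im * (s * a0 + t * b0) = z.im * 1 := by rw [hst]
            have h4 : zm.im * (s * a0 + t * b0) = zm.im * 1 := by rw [hst]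
            linear_combination (-1) * h3 + h4 + s * e1 - s * e2
          rw [this, hu0]; simp
      refine ⟨m, hm.symm, hzeq, ?_⟩
      rw [le_div_iff₀ hnu, hnorm]
      have hd : (m : ℝ) * ‖GaussianInt.toComplex u0‖ ≤ 2 * Real.sqrt Y := by
        have h1 : GaussianInt.toComplex z - GaussianInt.toComplex zm =
            (m : ℂ) * GaussianInt.toComplex u0 := by
          rw [hzeq, map_add, map_mul, map_natCast]; ring
        have h2 : (m : ℝ) * ‖GaussianInt.toComplex u0‖ =
            ‖GaussianInt.toComplex z - GaussianInt.toComplex zm‖ := by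
          rw [h1, norm_mul, Complex.norm_natCast]
        rw [h2]
        refine (norm_sub_le _ _).trans ?_
        have hz1 := toC_norm_le (mem_filter.mp (mem_filter.mp hz).1).1
        have hz2 := toC_norm_le (mem_filter.mp (mem_filter.mp hzm).1).1
        linarith
      calc (m : ℝ) * (g * ‖GaussianInt.toComplex u0‖) =
          g * ((m : ℝ) * ‖GaussianInt.toComplex u0‖) := by ring
        _ ≤ g * (2 * Real.sqrt Y) := mul_le_mul_of_nonneg_left hd hgR.le
        _ = 2 * Real.sqrt Y * g := by ring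
    set M : ℕ := ⌊2 * Real.sqrt Y * g / Real.sqrt (nm u)⌋₊ with hM
    have hcard : (S.filter (fun z => c0 z = j)).card ≤ (range (M + 1)).card := by
      apply card_le_card_of_injOn
        (fun z : Gi => ((s * z.re + t * z.im) - (s * zm.re + t * zm.im)).toNat)
      · intro z hz
        obtain ⟨m, hm1, _, hm3⟩ := hkey z hz
        rw [mem_coe, mem_range]
        simp only
        rw [← hm1, Int.toNat_natCast]
        exact Nat.lt_succ_of_le (Nat.le_floor hm3)
      · intro z hz z' hz' h
        obtain ⟨m, hm1, hm2, _⟩ := hkey z hz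
        obtain ⟨m', hm1', hm2', _⟩ := hkey z' hz'
        simp only at h
        rw [← hm1, ← hm1', Int.toNat_natCast, Int.toNat_natCast] at h
        rw [hm2, hm2', h]
    rw [card_range] at hcard
    have h1 : ((S.filter (fun z => c0 z = j)).card : ℝ) ≤ ((M + 1 : ℕ) : ℝ) := by
      exact_mod_cast hcard
    have h2 : (M : ℝ) ≤ 2 * Real.sqrt Y * g / Real.sqrt (nm u) := Nat.floor_le (by positivity)
    push_cast at h1
    linarith
  -- the range of c0
  set L : ℕ := ⌊D / g⌋₊ with hL
  have hmap : ∀ z ∈ S, c0 z ∈ Icc (-(L : ℤ)) L := by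
    intro z hz
    have h1 := (mem_filter.mp hz).2
    rw [hcrs z] at h1
    push_cast at h1
    rw [abs_mul, abs_of_pos hgR] at h1
    have h2 : |(c0 z : ℝ)| ≤ D / g := by
      rw [le_div_iff₀ hgR]; linarith
    have h3 : (((c0 z).natAbs : ℕ) : ℝ) ≤ D / g := by
      rw [Nat.cast_natAbs]; push_cast; exact h2
    have h4 : (c0 z).natAbs ≤ L := Nat.le_floor h3
    rw [mem_Icc, ← abs_le, Int.abs_eq_natAbs]
    exact_mod_cast h4
  have hsum : S.card = ∑ j ∈ Icc (-(L : ℤ)) L, (S.filter (fun z => c0 z = j)).card :=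
    card_eq_sum_card_fiberwise hmap
  have hLD : (L : ℝ) ≤ D / g := Nat.floor_le (by positivity)
  have hcardI : (((Icc (-(L : ℤ)) L).card : ℕ) : ℝ) ≤ 2 * D / g + 1 := by
    rw [Int.card_Icc]
    have : (((L : ℤ) + 1 - -(L : ℤ)).toNat : ℕ) = 2 * L + 1 := by omega
    rw [this]
    push_cast
    have : 2 * D / g = 2 * (D / g) := by ring
    linarith
  calc ((S.card : ℕ) : ℝ) = ∑ j ∈ Icc (-(L : ℤ)) L, ((S.filter (fun z => c0 z = j)).card : ℝ) := by
        rw [hsum]; push_cast; rfl
    _ ≤ ∑ _j ∈ Icc (-(L : ℤ)) L, B := sum_le_sum fun j _ => hfib j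
    _ = ((Icc (-(L : ℤ)) L).card : ℝ) * B := by rw [sum_const, nsmul_eq_mul]
    _ ≤ (2 * D / g + 1) * B := mul_le_mul_of_nonneg_right hcardI hB0

end Pool.Agent.Lib.MP391708.XV
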