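import Pool.Agent.Lib.MP_391708_nt.X.SpecVAR

/-!
# Module MOT (MP_391708_nt, Theorem X, part VAR): moments, the number of atypical characters
-/

set_option autoImplicit false

namespace Pool.Agent.Lib.MP391708.XV

open Finset Filter Topology Pool.Agent.Lib.MP391708.MR
open scoped ComplexConjugate

namespace MOTM

lemma mem_ms {P S : Finset Gi} {z : Gi} : z ∈ ms P S ↔ ∃ p ∈ P, ∃ s ∈ S, p * s = z := by
  unfold ms
  rw [mem_image]
  constructor
  · rintro ⟨q, hq, rfl⟩
    rw [mem_product] at hq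
    exact ⟨q.1, hq.1, q.2, hq.2, rfl⟩
  · rintro ⟨p, hp, s, hs, rfl⟩
    exact ⟨(p, s), mem_product.2 ⟨hp, hs⟩, rfl⟩

/-- the products of `n` elements of `P` -/
noncomputable def SN (P : Finset Gi) : ℕ → Finset Gi
  | 0 => {1}
  | n + 1 => ms P (SN P n)

/-- the number of factorizations -/
noncomputable def fN (P : Finset Gi) : ℕ → Gi → ℂ
  | 0 => fun _ => 1
  | n + 1 => mc P (SN P n) (fN P n)

lemma hat_fN (hH : SpecHTM) (t : ℕ) (χ : MulChar (Cls.RR (md t)) ℂ) (k : ℤ) (P : Finset Gi)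
    (n : ℕ) : hat t χ k (SN P n) (fN P n) = hat t χ k P (fun _ => 1) ^ n := by
  induction n with
  | zero =>
    unfold hat SN fN
    rw [sum_singleton, xi_one, map_one, map_one]
    simp
  | succ n ih =>
    change hat t χ k (ms P (SN P n)) (mc P (SN P n) (fN P n)) = _
    rw [hH.1 t χ k P (SN P n) _ (fN P n) (Subset.refl _), ih, pow_succ, mul_comm]

variable {R : ℝ} {P : Finset Gi}

lemma SN_sub (hR : 1 ≤ R) (hP : P ⊆ GP 0 R) (n : ℕ) : SN P n ⊆ disc (R ^ n) := by
  induction n with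
  | zero =>
    intro z hz
    unfold SN at hz
    rw [mem_singleton] at hz
    rw [mem_disc, hz]
    simp
  | succ n ih =>
    intro z hz
    unfold SN at hz
    obtain ⟨p, hp, s, hs, rfl⟩ := mem_ms.1 hz
    have h1 := mem_disc.1 (ih hs)
    have h2 := mem_GP.1 (hP hp)
    have h3 := GP_ne_zero (hP hp)
    rw [mem_disc]
    refine ⟨mul_ne_zero h3 h1.1, ?_⟩
    rw [nm_mul, pow_succ, mul_comm (R ^ n)]
    push_cast
    exact mul_le_mul h2.2.2.2.2.2 h1.2 (by positivity) (by linarith)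

open Classical in
lemma card_dvd (hP : P ⊆ GP 0 R) (n : ℕ) : ∀ z ∈ SN P n, (P.filter (fun p => p ∣ z)).card ≤ n := by
  induction n with
  | zero =>
    intro z hz
    unfold SN at hz
    rw [mem_singleton] at hz
    rw [hz, Nat.le_zero, card_eq_zero, filter_eq_empty_iff]
    intro p hp hdvd
    exact (GP_prime (hP hp)).not_unit (isUnit_of_dvd_one hdvd)
  | succ n ih =>
    intro z hz
    unfold SN at hz
    obtain ⟨q, hq, s, hs, rfl⟩ := mem_ms.1 hz
    have h1 : P.filter (fun p => p ∣ q * s) ⊆ insert q (P.filter (fun p => p ∣ s)) := by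
      intro p hp
      rw [mem_filter] at hp
      rw [mem_insert, mem_filter]
      rcases (GP_prime (hP hp.1)).dvd_or_dvd hp.2 with h | h
      · left
        exact (GP_eq_of_dvd (hP hp.1) (hP hq) h).symm
      · right
        exact ⟨hp.1, h⟩
    refine (card_le_card h1).trans ((card_insert_le _ _).trans ?_)
    have := ih s hs
    omega

lemma norm_fN (hP : P ⊆ GP 0 R) (n : ℕ) : ∀ z, ‖fN P n z‖ ≤ (n.factorial : ℝ) := by
  classical
  induction n with
  | zero =>
    intro z
    unfold fN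
    simp
  | succ n ih =>
    intro z
    change ‖mc P (SN P n) (fN P n) z‖ ≤ _
    unfold mc
    by_cases hz : z ∈ SN P (n + 1)
    · have hcard : ((P ×ˢ SN P n).filter (fun q => q.1 * q.2 = z)).card ≤ n + 1 := by
        refine le_trans ?_ (card_dvd hP (n + 1) z hz)
        apply card_le_card_of_injOn Prod.fst
        · intro q hq
          rw [mem_coe, mem_filter, mem_product] at hq
          rw [mem_coe, mem_filter]
          exact ⟨hq.1.1, ⟨q.2, hq.2.symm⟩⟩
        · intro q hq q' hq' h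
          rw [mem_coe, mem_filter, mem_product] at hq hq'
          have h0 := GP_ne_zero (hP hq.1.1)
          have h2 : q.1 * q.2 = q.1 * q'.2 := by
            rw [hq.2, ← hq'.2, h]
          exact Prod.ext h (mul_left_cancel₀ h0 h2)
      calc _ ≤ ∑ q ∈ (P ×ˢ SN P n).filter (fun q => q.1 * q.2 = z), ‖fN P n q.2‖ :=
            norm_sum_le _ _
        _ ≤ ∑ q ∈ (P ×ˢ SN P n).filter (fun q => q.1 * q.2 = z), (n.factorial : ℝ) :=
            sum_le_sum fun q _ => ih q.2
        _ = ((P ×ˢ SN P n).filter (fun q => q.1 * q.2 = z)).card * (n.factorial : ℝ) := by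
            rw [sum_const, nsmul_eq_mul]
        _ ≤ ((n + 1 : ℕ) : ℝ) * (n.factorial : ℝ) := by
            apply mul_le_mul_of_nonneg_right _ (by positivity)
            exact_mod_cast hcard
        _ = ((n + 1).factorial : ℝ) := by
            rw [Nat.factorial_succ]
            push_cast
            ring
    · rw [sum_eq_zero]
      · rw [norm_zero]
        positivity
      · intro q hq
        rw [mem_filter, mem_product] at hq
        exact absurd (mem_ms.2 ⟨q.1, hq.1.1, q.2, hq.1.2, hq.2⟩) hz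

end MOTM

open MOTM

theorem specMOT (hE : SpecEXL) (hN : SpecPNC) (hC : SpecPCN) (hH : SpecHTM) (hPh : SpecPHI) :
    SpecMOT := by
  classical
  obtain ⟨C, hC0, hC'⟩ := hC
  have hpi := Real.pi_pos
  refine ⟨Real.pi ^ 2 / 2 * (9 + 2 * Real.pi * C + 2 * C), by positivity, ?_⟩
  intro R τ t Km l P ht hKm hl hR hτ hP
  set M := R ^ l with hM
  have hM1 : 1 ≤ M := one_le_pow₀ hR
  have hM0 : 0 < M := by linarith
  have htR : (2 : ℝ) ≤ t := by exact_mod_cast ht
  have hKR : (1 : ℝ) ≤ Km := by exact_mod_cast hKm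
  have hlog : 0 ≤ Real.log M := Real.log_nonneg hM1
  obtain ⟨-, hph1, hph2⟩ := hPh t (by omega)
  have hph0 : (0 : ℝ) < ph t := by
    refine lt_of_lt_of_le ?_ hph1
    have : 0 ≤ Real.log (t : ℝ) := Real.log_nonneg (by linarith)
    positivity
  set φ := Real.pi / Km with hφ
  have hφ0 : 0 < φ := by positivity
  have hφK : φ * Km = Real.pi := by
    rw [hφ]
    field_simp
  have hφpi : φ ≤ Real.pi := div_le_self hpi.le hKR
  set S := SN P l with hS
  set f := fN P l with hf
  have hSd : S ⊆ disc M := SN_sub hR hP l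
  have hE1 := hE t Km φ S f (by omega) hφ0 hφpi hφK.le (fun z hz => (mem_disc.1 (hSd hz)).1)
  have hN1 := hN.1 t φ (l.factorial : ℝ) S f (by omega) hφ0 (by positivity)
    (fun z _ => norm_fN hP l z)
  have hN2 := hN.2 t φ M S (by omega) hφ0 hSd
  have hXY : 4 * M / (t : ℝ) ^ 2 ≤ M := by
    rw [div_le_iff₀ (by positivity), mul_comm]
    apply mul_le_mul_of_nonneg_left _ hM0.le
    nlinarith
  have hC1 := hC' (4 * M / (t : ℝ) ^ 2) M (M * φ / t) hXY hM1 (by positivity)
  have hsq : Real.sqrt (4 * M / (t : ℝ) ^ 2 * M) = 2 * M / t := by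
    rw [show 4 * M / (t : ℝ) ^ 2 * M = (2 * M / t) ^ 2 by field_simp; ring]
    exact Real.sqrt_sq (by positivity)
  rw [hsq] at hC1
  have hcard : (S.card : ℝ) ≤ 9 * M := by
    have h1 : (S.card : ℝ) ≤ (disc M).card := by exact_mod_cast card_le_card hSd
    exact h1.trans (card_disc_le hM0.le)
  -- the left side
  have hL : ((atyp t Km τ P).card : ℝ) * τ ^ (2 * l) ≤ ph t * ∑ k ∈ IK Km, HS t k S f := by
    have h1 : ((atyp t Km τ P).card : ℝ) * τ ^ (2 * l) ≤
        ∑ q ∈ atyp t Km τ P, ‖hat t q.1 q.2 P (fun _ => 1)‖ ^ (2 * l) := by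
      rw [← nsmul_eq_mul]
      apply card_nsmul_le_sum
      intro q hq
      unfold atyp at hq
      rw [mem_filter] at hq
      exact pow_le_pow_left₀ hτ.le hq.2.le _
    have h2 : ∑ q ∈ atyp t Km τ P, ‖hat t q.1 q.2 P (fun _ => 1)‖ ^ (2 * l) ≤
        ∑ q ∈ (chs t) ×ˢ (IK Km), ‖hat t q.1 q.2 P (fun _ => 1)‖ ^ (2 * l) := by
      apply sum_le_sum_of_subset_of_nonneg
      · unfold atyp
        exact filter_subset _ _
      · intro q _ _
        positivity
    have h3 : ∑ q ∈ (chs t) ×ˢ (IK Km), ‖hat t q.1 q.2 P (fun _ => 1)‖ ^ (2 * l) =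
        ph t * ∑ k ∈ IK Km, HS t k S f := by
      rw [sum_product_right, mul_sum]
      refine sum_congr rfl fun k _ => ?_
      unfold HS
      rw [← mul_assoc, mul_one_div_cancel hph0.ne', one_mul]
      refine sum_congr rfl fun χ _ => ?_
      rw [hS, hf, hat_fN hH, norm_pow, ← pow_mul, mul_comm 2 l]
    linarith
  have hmain : 2 * φ / Real.pi ^ 3 * ∑ k ∈ IK Km, HS t k S f ≤
      (l.factorial : ℝ) ^ 2 * (9 * M + C * (M * φ / t + 1) * (2 * M / t) * (1 + Real.log M)) := by
    refine hE1.trans (hN1.trans ?_)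
    apply mul_le_mul_of_nonneg_left _ (by positivity)
    linarith
  have hφ3 : 2 * φ / Real.pi ^ 3 = 2 / (Real.pi ^ 2 * Km) := by
    rw [hφ]
    field_simp
  rw [hφ3] at hmain
  set Sg := ∑ k ∈ IK Km, HS t k S f with hSg
  set B := 9 * M + C * (M * φ / t + 1) * (2 * M / t) * (1 + Real.log M) with hB
  have hSgle : Sg ≤ Real.pi ^ 2 * Km / 2 * ((l.factorial : ℝ) ^ 2 * B) := by
    have h1 : Sg = Real.pi ^ 2 * Km / 2 * (2 / (Real.pi ^ 2 * Km) * Sg) := by
      field_simp
    rw [h1]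
    exact mul_le_mul_of_nonneg_left hmain (by positivity)
  have hBnn : 0 ≤ B := by positivity
  have hB2 : (t : ℝ) ^ 2 * Km * B ≤
      (9 + 2 * Real.pi * C + 2 * C) * (1 + Real.log M) * (M ^ 2 + (t : ℝ) ^ 2 * Km * M) := by
    have h1 : (t : ℝ) ^ 2 * Km * B = 9 * ((t : ℝ) ^ 2 * Km * M) +
        (2 * Real.pi * C * M ^ 2 + 2 * C * ((t : ℝ) * Km * M)) * (1 + Real.log M) := by
      rw [hB, hφ]
      field_simp
    rw [h1]
    have h2 : (t : ℝ) * Km * M ≤ (t : ℝ) ^ 2 * Km * M := by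
      apply mul_le_mul_of_nonneg_right _ hM0.le
      apply mul_le_mul_of_nonneg_right _ (by positivity)
      nlinarith
    set X := (t : ℝ) ^ 2 * Km * M with hX
    have hX0 : 0 ≤ X := by positivity
    set Lg := Real.log M with hLg
    have h3 : 2 * C * ((t : ℝ) * Km * M) ≤ 2 * C * X :=
      mul_le_mul_of_nonneg_left h2 (by positivity)
    have h4 : (2 * Real.pi * C * M ^ 2 + 2 * C * ((t : ℝ) * Km * M)) * (1 + Lg) ≤
        (2 * Real.pi * C * M ^ 2 + 2 * C * X) * (1 + Lg) :=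
      mul_le_mul_of_nonneg_right (by linarith) (by linarith)
    have h5 : 0 ≤ 2 * Real.pi * C * X * (1 + Lg) := by positivity
    have h6 : 0 ≤ 2 * C * M ^ 2 * (1 + Lg) := by positivity
    have h7 : 0 ≤ 9 * M ^ 2 * (1 + Lg) := by positivity
    have h8 : 0 ≤ 9 * X * Lg := by positivity
    nlinarith
  calc ((atyp t Km τ P).card : ℝ) * τ ^ (2 * l) ≤ ph t * Sg := hL
    _ ≤ (t : ℝ) ^ 2 * (Real.pi ^ 2 * Km / 2 * ((l.factorial : ℝ) ^ 2 * B)) := by
      apply mul_le_mul hph2 hSgle _ (by positivity)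
      rw [hSg]
      apply sum_nonneg
      intro k _
      unfold HS
      positivity
    _ = Real.pi ^ 2 / 2 * (l.factorial : ℝ) ^ 2 * ((t : ℝ) ^ 2 * Km * B) := by ring
    _ ≤ Real.pi ^ 2 / 2 * (l.factorial : ℝ) ^ 2 * ((9 + 2 * Real.pi * C + 2 * C) *
        (1 + Real.log M) * (M ^ 2 + (t : ℝ) ^ 2 * Km * M)) :=
      mul_le_mul_of_nonneg_left hB2 (by positivity)
    _ = _ := by ring

end Pool.Agent.Lib.MP391708.XV
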