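import Pool.Agent.Lib.MP_391708_nt.X.SpecVAR

/-!
# Theorem X, part VAR, module NCS: the pairs with `z` not coprime to `t`
-/

set_option autoImplicit false

namespace Pool.Agent.Lib.MP391708.XV

open Finset Filter Topology Pool.Agent.Lib.MP391708.MR
open scoped ComplexConjugate

namespace NCSM

theorem two_le_nm {π : Gi} (h : Prime π) : 2 ≤ nm π := by
  have h0 : 0 < nm π := nm_pos h.ne_zero
  have h1 : nm π ≠ 1 := by
    intro h1
    apply h.not_isUnit
    refine isUnit_of_dvd_one ⟨star π, ?_⟩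
    rw [mul_comm, Mom.star_mul_self', h1, Nat.cast_one]
  omega

theorem pow_card_le (s : Multiset Gi) (h : ∀ π ∈ s, Prime π) :
    2 ^ (Multiset.card s) ≤ nm s.prod := by
  induction s using Multiset.induction_on with
  | empty => simp
  | cons a s ih =>
    rw [Multiset.card_cons, Multiset.prod_cons, nm_mul, pow_succ, mul_comm]
    exact Nat.mul_le_mul (two_le_nm (h a (Multiset.mem_cons_self a s)))
      (ih fun π hπ => h π (Multiset.mem_cons_of_mem hπ))

theorem nm_md (t : ℕ) : nm (md t) = t ^ 2 := by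
  have h := nm_cast (md t)
  have h1 : (md t).re = t := by simp [md]
  have h2 : (md t).im = 0 := by simp [md]
  rw [h1, h2] at h
  have h3 : ((nm (md t) : ℕ) : ℤ) = ((t ^ 2 : ℕ) : ℤ) := by
    rw [h]
    push_cast
    ring
  exact_mod_cast h3

theorem nm_assoc {x y : Gi} (h : Associated x y) : nm x = nm y :=
  Nat.dvd_antisymm (nm_dvd h.dvd) (nm_dvd h.symm.dvd)

/-- The primes dividing `t`. -/
theorem exists_primes {t : ℕ} (ht : 1 ≤ t) : ∃ PP : Finset Gi, (∀ π ∈ PP, Prime π) ∧
    (∀ π : Gi, Prime π → π ∣ md t → ∃ q ∈ PP, Associated π q) ∧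
    (PP.card : ℝ) ≤ 3 * Real.log t := by
  classical
  have hne : md t ≠ 0 := by
    intro h
    have h1 := nm_md t
    rw [h, nm_zero] at h1
    have : 0 < t ^ 2 := by positivity
    omega
  refine ⟨(UniqueFactorizationMonoid.factors (md t)).toFinset, ?_, ?_, ?_⟩
  · intro π hπ
    exact UniqueFactorizationMonoid.prime_of_factor π (Multiset.mem_toFinset.1 hπ)
  · intro π hπ hd
    obtain ⟨q, hq, ha⟩ := UniqueFactorizationMonoid.exists_mem_factors_of_dvd hne hπ.irreducible hd
    exact ⟨q, Multiset.mem_toFinset.2 hq, ha⟩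
  · have h1 := pow_card_le (UniqueFactorizationMonoid.factors (md t))
      fun π hπ => UniqueFactorizationMonoid.prime_of_factor π hπ
    rw [nm_assoc (UniqueFactorizationMonoid.factors_prod hne), nm_md] at h1
    have h2 : ((UniqueFactorizationMonoid.factors (md t)).toFinset.card : ℝ) ≤
        (Multiset.card (UniqueFactorizationMonoid.factors (md t)) : ℝ) := by
      exact_mod_cast Multiset.toFinset_card_le _
    generalize Multiset.card (UniqueFactorizationMonoid.factors (md t)) = c at h1 h2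
    have h3 : (2 : ℝ) ^ c ≤ (t : ℝ) ^ 2 := by exact_mod_cast h1
    have h4 := Real.log_le_log (by positivity) h3
    rw [Real.log_pow, Real.log_pow] at h4
    push_cast at h4
    have h5 := Real.log_two_gt_d9
    have h6 : 0 ≤ Real.log t := Real.log_nonneg (by exact_mod_cast ht)
    have h7 : (0 : ℝ) ≤ (c : ℝ) := by positivity
    nlinarith [mul_nonneg h7 (sub_nonneg.2 h5.le)]

end NCSM

open NCSM in
/-- **NCS** -/
theorem specNCS (hPCD : SpecPCD) : SpecNCS := by
  classical
  obtain ⟨C, hC, hP⟩ := hPCD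
  refine ⟨3 * C, by positivity, ?_⟩
  intro X Y D w t S hX hXY hY hD hw ht hS hSw
  obtain ⟨PP, hPP, hPPd, hPPc⟩ := exists_primes ht
  set A : Gi → Finset (Gi × Gi) := fun π =>
    (disc X ×ˢ S).filter (fun q => |(crs q.1 q.2 : ℝ)| ≤ D ∧ π ∣ q.2) with hA
  set E : ℝ := D * Real.sqrt (X * Y) / w + D * X + Real.sqrt (X * Y) with hE
  have hE0 : 0 ≤ E := by positivity
  have hl : 0 ≤ Real.log Y := Real.log_nonneg hY
  have hlt : 0 ≤ Real.log t := Real.log_nonneg (by exact_mod_cast ht)
  have h1 : ((disc X ×ˢ S).filter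
      (fun q => |(crs q.1 q.2 : ℝ)| ≤ D ∧ ¬ IsCoprime q.2 (md t))) ⊆
      (PP.filter (fun π => w ≤ (nm π : ℝ))).biUnion A := by
    intro q hq
    rw [mem_filter, mem_product] at hq
    obtain ⟨⟨hq1, hq2⟩, hq3, hq4⟩ := hq
    have hz : q.2 ≠ 0 := (mem_disc.1 (hS hq2)).1
    have : ∃ π : Gi, Prime π ∧ π ∣ q.2 ∧ π ∣ md t := by
      by_contra hcon
      push Not at hcon
      exact hq4 (isCoprime_of_prime_dvd (fun h => hz h.1) fun π hπ hd => hcon π hπ hd)
    obtain ⟨π, hπ, hd1, hd2⟩ := this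
    obtain ⟨p, hp, ha⟩ := hPPd π hπ hd2
    have hpd : p ∣ q.2 := ha.symm.dvd.trans hd1
    rw [mem_biUnion]
    refine ⟨p, mem_filter.2 ⟨hp, hSw q.2 hq2 p (hPP p hp) hpd⟩, ?_⟩
    rw [hA]
    exact mem_filter.2 ⟨mem_product.2 ⟨hq1, hq2⟩, hq3, hpd⟩
  have h2 : ∀ π ∈ PP.filter (fun π => w ≤ (nm π : ℝ)),
      ((A π).card : ℝ) ≤ C * (1 + Real.log Y) * E := by
    intro π hπ
    rw [mem_filter] at hπ
    have h3 := hP X Y D π hX hXY hY hD (hPP π hπ.1) (A π) (by
      intro q hq
      rw [hA] at hq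
      have := (mem_filter.1 hq).1
      rw [mem_product] at this ⊢
      exact ⟨this.1, hS this.2⟩) (by
      intro q hq
      rw [hA] at hq
      exact (mem_filter.1 hq).2)
    refine h3.trans ?_
    refine mul_le_mul_of_nonneg_left ?_ (by positivity)
    rw [hE]
    have hw0 : 0 < w := by linarith
    have h4 : D * Real.sqrt (X * Y) / nm π ≤ D * Real.sqrt (X * Y) / w :=
      div_le_div_of_nonneg_left (by positivity) hw0 hπ.2
    linarith
  have h3 : (ncc t X D S : ℝ) ≤
      ∑ π ∈ PP.filter (fun π => w ≤ (nm π : ℝ)), ((A π).card : ℝ) := by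
    have h4 : ncc t X D S ≤ ∑ π ∈ PP.filter (fun π => w ≤ (nm π : ℝ)), (A π).card := by
      unfold ncc
      exact (card_le_card h1).trans card_biUnion_le
    exact_mod_cast h4
  refine h3.trans ((sum_le_sum h2).trans ?_)
  rw [sum_const, nsmul_eq_mul]
  have h4 : ((PP.filter (fun π => w ≤ (nm π : ℝ))).card : ℝ) ≤ 3 * Real.log t := by
    refine le_trans ?_ hPPc
    exact_mod_cast card_filter_le _ _
  calc ((PP.filter (fun π => w ≤ (nm π : ℝ))).card : ℝ) * (C * (1 + Real.log Y) * E)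
      ≤ (3 * (1 + Real.log t)) * (C * (1 + Real.log Y) * E) := by
        refine mul_le_mul_of_nonneg_right (by linarith) (by positivity)
    _ = 3 * C * (1 + Real.log t) * (1 + Real.log Y) * E := by ring

end Pool.Agent.Lib.MP391708.XV
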