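import Pool.Agent.Lib.MP_391708_nt.X.SpecVAR
import Pool.Agent.Lib.MP_391708_nt.MR.Basic

/-!
# Theorem X of MP_391708_nt, part VAR, module PCD (helper58)

Pairs `(u, z)` near a line with `z` divisible by a prime.
-/

set_option autoImplicit false

namespace Pool.Agent.Lib.MP391708.XV

open Finset Filter Topology Pool.Agent.Lib.MP391708.MR
open scoped ComplexConjugate

namespace PCDM

lemma nm_star (v : Gi) : nm (star v) = nm v := by
  unfold nm
  simp

lemma crs_mul (u π v : Gi) : crs u (π * v) = crs (star π * u) v := by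
  unfold crs
  simp
  ring

lemma cont_pos {u : Gi} (h : u ≠ 0) : 0 < cont u := by
  unfold cont
  rw [Nat.pos_iff_ne_zero]
  intro h0
  rw [Int.gcd_eq_zero_iff] at h0
  exact h (Zsqrtd.ext h0.1 h0.2)

lemma cont_dvd_re (u : Gi) : (cont u : ℤ) ∣ u.re := Int.gcd_dvd_left ..

lemma cont_dvd_im (u : Gi) : (cont u : ℤ) ∣ u.im := Int.gcd_dvd_right ..

/-- the content of `star π * u` divides `nm π * cont u` -/
lemma cont_le (π u : Gi) (hπ : π ≠ 0) (hu : u ≠ 0) : cont (star π * u) ≤ nm π * cont u := by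
  have h1 : (cont (star π * u) : ℤ) ∣ (nm π : ℤ) * u.re := by
    have e : (nm π : ℤ) * u.re = π.re * (star π * u).re - π.im * (star π * u).im := by
      rw [nm_cast]
      simp
      ring
    rw [e]
    exact dvd_sub (Dvd.dvd.mul_left (cont_dvd_re _) _) (Dvd.dvd.mul_left (cont_dvd_im _) _)
  have h2 : (cont (star π * u) : ℤ) ∣ (nm π : ℤ) * u.im := by
    have e : (nm π : ℤ) * u.im = π.re * (star π * u).im + π.im * (star π * u).re := by
      rw [nm_cast]
      simp
      ring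
    rw [e]
    exact dvd_add (Dvd.dvd.mul_left (cont_dvd_im _) _) (Dvd.dvd.mul_left (cont_dvd_re _) _)
  have h3 : cont (star π * u) ∣ nm π * cont u := by
    have h4 : cont (star π * u) ∣ Int.gcd ((nm π : ℤ) * u.re) ((nm π : ℤ) * u.im) :=
      Int.dvd_gcd h1 h2
    have h5 : Int.gcd ((nm π : ℤ) * u.re) ((nm π : ℤ) * u.im) = nm π * cont u := by
      unfold cont
      rw [Int.gcd_mul_left, Int.natAbs_natCast]
    rwa [h5] at h4
  exact Nat.le_of_dvd (Nat.mul_pos (nm_pos hπ) (cont_pos hu)) h3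

/-- the bound for one `u` -/
lemma one (hL : SpecLNE) (X Y D : ℝ) (π : Gi) (hY : 1 ≤ Y) (hD : 0 ≤ D) (hπ : Prime π)
    (A : Finset (Gi × Gi)) (hA : A ⊆ disc X ×ˢ disc Y)
    (hA' : ∀ q ∈ A, |(crs q.1 q.2 : ℝ)| ≤ D ∧ π ∣ q.2) (u : Gi) (hu : u ≠ 0) :
    (((A.filter (fun q => q.1 = u)).card : ℕ) : ℝ) ≤
      4 * D * Real.sqrt Y / nm π * (1 / Real.sqrt (nm u)) + 2 * D +
        2 * Real.sqrt Y * (cont u / Real.sqrt (nm u)) + 1 := by
  have hπ0 : π ≠ 0 := hπ.ne_zero
  have hq : (0 : ℝ) < nm π := nm_posR hπ0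
  have hnu : (0 : ℝ) < nm u := nm_posR hu
  set u' : Gi := star π * u with hu'
  have hu'0 : u' ≠ 0 := mul_ne_zero (star_ne_zero.2 hπ0) hu
  have hg : (0 : ℝ) < cont u' := by exact_mod_cast cont_pos hu'0
  have hg1 : (1 : ℝ) ≤ cont u' := by exact_mod_cast cont_pos hu'0
  have hgle : (cont u' : ℝ) ≤ nm π * cont u := by exact_mod_cast cont_le π u hπ0 hu
  -- the fibre
  have hsub : A.filter (fun q => q.1 = u) ⊆
      ((disc (Y / nm π)).filter (fun z => |(crs u' z : ℝ)| ≤ D)).image (fun v => (u, π * v)) := by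
    intro q hq'
    rw [mem_filter] at hq'
    obtain ⟨hqA, hqu⟩ := hq'
    obtain ⟨h1, v, hv⟩ := hA' q hqA
    have h2 := hA hqA
    rw [mem_product] at h2
    have h3 := h2.2
    rw [mem_disc, hv] at h3
    rw [mem_image]
    refine ⟨v, ?_, ?_⟩
    · rw [mem_filter, mem_disc]
      refine ⟨⟨?_, ?_⟩, ?_⟩
      · rintro rfl
        exact h3.1 (mul_zero _)
      · rw [le_div_iff₀ hq]
        have h4 := h3.2
        rw [nm_mul] at h4
        push_cast at h4
        linarith
      · rw [hqu, hv, crs_mul] at h1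
        exact h1
    · rw [← hqu, ← hv]
  have h1 : (((A.filter (fun q => q.1 = u)).card : ℕ) : ℝ) ≤
      ((((disc (Y / nm π)).filter (fun z => |(crs u' z : ℝ)| ≤ D)).card : ℕ) : ℝ) := by
    exact_mod_cast (card_le_card hsub).trans card_image_le
  have h2 := hL (Y / nm π) D u' hu'0 (by positivity) hD
  have e1 : Real.sqrt (nm u') = Real.sqrt (nm π) * Real.sqrt (nm u) := by
    rw [hu', nm_mul, nm_star]
    push_cast
    rw [Real.sqrt_mul hq.le]
  have e2 : Real.sqrt (Y / nm π) = Real.sqrt Y / Real.sqrt (nm π) := Real.sqrt_div' _ hq.le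
  have hsq : (0 : ℝ) < Real.sqrt (nm π) := Real.sqrt_pos.2 hq
  have hsu : (0 : ℝ) < Real.sqrt (nm u) := Real.sqrt_pos.2 hnu
  have hss : Real.sqrt (nm π) * Real.sqrt (nm π) = nm π := Real.mul_self_sqrt hq.le
  have hY0 : 0 ≤ Real.sqrt Y := Real.sqrt_nonneg _
  have e3 : (2 * D / cont u' + 1) * (2 * Real.sqrt (Y / nm π) * cont u' / Real.sqrt (nm u') + 1) =
      4 * D * Real.sqrt Y / nm π * (1 / Real.sqrt (nm u)) + 2 * D / cont u' +
        2 * Real.sqrt Y * (cont u' / nm π) / Real.sqrt (nm u) + 1 := by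
    rw [e1, e2]
    obtain ⟨s, hs⟩ : ∃ s, s = Real.sqrt (nm π) := ⟨_, rfl⟩
    rw [← hs] at hss hsq ⊢
    rw [← hss]
    field_simp
    ring
  have h3 : 2 * D / cont u' ≤ 2 * D := div_le_self (by positivity) hg1
  have h4 : 2 * Real.sqrt Y * (cont u' / nm π) / Real.sqrt (nm u) ≤
      2 * Real.sqrt Y * (cont u / Real.sqrt (nm u)) := by
    rw [mul_div_assoc]
    apply mul_le_mul_of_nonneg_left _ (by positivity)
    apply div_le_div_of_nonneg_right _ hsu.le
    rw [div_le_iff₀ hq]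
    linarith
  calc _ ≤ _ := h1
    _ ≤ _ := h2
    _ = _ := e3
    _ ≤ _ := by linarith

end PCDM

open PCDM in
theorem specPCD (hL : SpecLNE) (hU : SpecUSM) : SpecPCD := by
  classical
  obtain ⟨C, hC, hU⟩ := hU
  refine ⟨4 * C, by positivity, ?_⟩
  intro X Y D π hX hXY hY hD hπ A hA hA'
  have hq : (0 : ℝ) < nm π := nm_posR hπ.ne_zero
  have hlog : 0 ≤ Real.log Y := Real.log_nonneg hY
  have hsXY : 0 ≤ Real.sqrt (X * Y) := Real.sqrt_nonneg _
  by_cases hX1 : X < 1
  · have : A = ∅ := by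
      rw [disc_empty hX1, empty_product] at hA
      exact subset_empty.1 hA
    rw [this, card_empty]
    push_cast
    positivity
  rw [not_lt] at hX1
  obtain ⟨h1, h2, h3⟩ := hU X hX1
  have hcard : (A.card : ℝ) = ∑ u ∈ disc X, (((A.filter (fun q => q.1 = u)).card : ℕ) : ℝ) := by
    rw [card_eq_sum_card_fiberwise (f := Prod.fst) (t := disc X)]
    · push_cast
      rfl
    · intro q hq'
      exact (mem_product.1 (hA hq')).1
  have hb : (A.card : ℝ) ≤ ∑ u ∈ disc X,
      (4 * D * Real.sqrt Y / nm π * (1 / Real.sqrt (nm u)) + 2 * D +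
        2 * Real.sqrt Y * (cont u / Real.sqrt (nm u)) + 1) := by
    rw [hcard]
    exact sum_le_sum fun u hu => one hL X Y D π hY hD hπ A hA hA' u (mem_disc.1 hu).1
  have he : ∑ u ∈ disc X,
      (4 * D * Real.sqrt Y / nm π * (1 / Real.sqrt (nm u)) + 2 * D +
        2 * Real.sqrt Y * (cont u / Real.sqrt (nm u)) + 1) =
      4 * D * Real.sqrt Y / nm π * (∑ u ∈ disc X, 1 / Real.sqrt (nm u)) +
        2 * D * ((disc X).card : ℝ) +
        2 * Real.sqrt Y * (∑ u ∈ disc X, (cont u : ℝ) / Real.sqrt (nm u)) +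
        ((disc X).card : ℝ) := by
    simp only [sum_add_distrib, ← mul_sum, sum_const, nsmul_eq_mul, mul_one]
    ring
  rw [he] at hb
  have hsX : 0 ≤ Real.sqrt X := Real.sqrt_nonneg _
  have hsY : 0 ≤ Real.sqrt Y := Real.sqrt_nonneg _
  have hXX : X ≤ Real.sqrt (X * Y) := by
    apply Real.le_sqrt_of_sq_le
    nlinarith
  have hlX : Real.log X ≤ Real.log Y := Real.log_le_log (by linarith) hXY
  have hm : Real.sqrt (X * Y) = Real.sqrt X * Real.sqrt Y := Real.sqrt_mul hX _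
  have b1 : 4 * D * Real.sqrt Y / nm π * (∑ u ∈ disc X, 1 / Real.sqrt (nm u)) ≤
      4 * C * (D * Real.sqrt (X * Y) / nm π) := by
    calc _ ≤ 4 * D * Real.sqrt Y / nm π * (C * Real.sqrt X) :=
          mul_le_mul_of_nonneg_left h1 (by positivity)
      _ = 4 * C * (D * Real.sqrt (X * Y) / nm π) := by rw [hm]; ring
  have b2 : 2 * D * ((disc X).card : ℝ) ≤ 2 * C * (D * X) := by
    calc _ ≤ 2 * D * (C * X) := mul_le_mul_of_nonneg_left h3 (by positivity)
      _ = _ := by ring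
  have b3 : 2 * Real.sqrt Y * (∑ u ∈ disc X, (cont u : ℝ) / Real.sqrt (nm u)) ≤
      2 * C * Real.sqrt (X * Y) * (1 + Real.log Y) := by
    calc _ ≤ 2 * Real.sqrt Y * (C * Real.sqrt X * (1 + Real.log X)) :=
          mul_le_mul_of_nonneg_left h2 (by positivity)
      _ = 2 * C * Real.sqrt (X * Y) * (1 + Real.log X) := by rw [hm]; ring
      _ ≤ _ := mul_le_mul_of_nonneg_left (by linarith) (by positivity)
  have b4 : ((disc X).card : ℝ) ≤ C * Real.sqrt (X * Y) :=
    h3.trans (mul_le_mul_of_nonneg_left hXX hC.le)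
  have t1 : 0 ≤ D * Real.sqrt (X * Y) / nm π := by positivity
  have t2 : 0 ≤ D * X := by positivity
  have m1 : 0 ≤ C * (D * Real.sqrt (X * Y) / nm π) * Real.log Y := by positivity
  have m2 : 0 ≤ C * (D * X) * Real.log Y := by positivity
  have m3 : 0 ≤ C * Real.sqrt (X * Y) * Real.log Y := by positivity
  have m4 : 0 ≤ C * (D * X) := by positivity
  have m5 : 0 ≤ C * Real.sqrt (X * Y) := by positivity
  have final : 4 * C * (D * Real.sqrt (X * Y) / nm π) + 2 * C * (D * X) +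
      2 * C * Real.sqrt (X * Y) * (1 + Real.log Y) + C * Real.sqrt (X * Y) ≤
      4 * C * (1 + Real.log Y) * (D * Real.sqrt (X * Y) / nm π + D * X + Real.sqrt (X * Y)) := by
    have e : 4 * C * (1 + Real.log Y) *
        (D * Real.sqrt (X * Y) / nm π + D * X + Real.sqrt (X * Y)) =
        4 * C * (D * Real.sqrt (X * Y) / nm π) + 4 * (C * (D * X)) + 4 * (C * Real.sqrt (X * Y)) +
        4 * (C * (D * Real.sqrt (X * Y) / nm π) * Real.log Y) + 4 * (C * (D * X) * Real.log Y) +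
        4 * (C * Real.sqrt (X * Y) * Real.log Y) := by ring
    rw [e]
    have e' : 2 * C * Real.sqrt (X * Y) * (1 + Real.log Y) =
      2 * (C * Real.sqrt (X * Y)) + 2 * (C * Real.sqrt (X * Y) * Real.log Y) := by ring
    rw [e']
    have e'' : 2 * C * (D * X) = 2 * (C * (D * X)) := by ring
    rw [e'']
    linarith
  linarith

end Pool.Agent.Lib.MP391708.XV
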