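import Pool.Agent.Lib.MP_391708_nt.X.SpecVAR
import Pool.Agent.Lib.MP_391708_nt.MR.Basic

/-!
# Theorem X of MP_391708_nt, part VAR, module PCN: the number of pairs near a line
-/

set_option autoImplicit false

namespace Pool.Agent.Lib.MP391708.XV

open Finset Filter Topology Pool.Agent.Lib.MP391708.MR
open scoped ComplexConjugate

namespace PCNM

theorem cont_pos {u : Gi} (h : u ≠ 0) : 0 < cont u := by
  unfold cont
  rw [Int.gcd_pos_iff]
  by_contra hc
  push Not at hc
  exact h (by ext <;> simp [hc.1, hc.2])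

theorem pcn_eq (X Y D : ℝ) : (pcn X Y D : ℝ) =
    ∑ u ∈ disc X, ((((disc Y).filter (fun z => |(crs u z : ℝ)| ≤ D)).card : ℕ) : ℝ) := by
  unfold pcn
  rw [Finset.card_filter, Finset.sum_product, Nat.cast_sum]
  refine Finset.sum_congr rfl fun u _ => ?_
  rw [Finset.card_filter]

theorem one (g r s D : ℝ) (hg : 1 ≤ g) (hr : 0 < r) (hrs : r ≤ s) (hD : 0 ≤ D) :
    (2 * D / g + 1) * (2 * s * g / r + 1) ≤ 6 * D * s * (1 / r) + 3 * s * (g / r) := by
  have hs : 0 < s := hr.trans_le hrs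
  have h1 : 1 ≤ s * g / r := by
    rw [le_div_iff₀ hr, one_mul]
    nlinarith
  have h2 : 2 * s * g / r + 1 ≤ 3 * (s * g / r) := by
    have h3 : 2 * s * g / r = 2 * (s * g / r) := by ring
    rw [h3]
    linarith
  calc (2 * D / g + 1) * (2 * s * g / r + 1) ≤ (2 * D / g + 1) * (3 * (s * g / r)) :=
        mul_le_mul_of_nonneg_left h2 (by positivity)
    _ = 6 * D * s * (1 / r) + 3 * s * (g / r) := by
        field_simp
        ring

end PCNM

/-- The number of pairs near a line. -/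
theorem specPCN (hL : SpecLNE) (hU : SpecUSM) : SpecPCN := by
  obtain ⟨C, hC, hU⟩ := hU
  refine ⟨6 * C, by positivity, fun X Y D hXY hY hD => ?_⟩
  have hlog : 0 ≤ Real.log Y := Real.log_nonneg hY
  rcases lt_or_ge X 1 with h | h
  · rw [PCNM.pcn_eq, disc_empty h, Finset.sum_empty]
    positivity
  obtain ⟨u1, u2, _⟩ := hU X h
  have hsY : (1 : ℝ) ≤ Real.sqrt Y := Real.one_le_sqrt.2 hY
  have h1 : ∀ u ∈ disc X, ((((disc Y).filter (fun z => |(crs u z : ℝ)| ≤ D)).card : ℕ) : ℝ) ≤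
      6 * D * Real.sqrt Y * (1 / Real.sqrt (nm u)) +
        3 * Real.sqrt Y * ((cont u : ℝ) / Real.sqrt (nm u)) := by
    intro u hu
    obtain ⟨hu0, huX⟩ := mem_disc.1 hu
    have h2 : (1 : ℝ) ≤ cont u := by exact_mod_cast PCNM.cont_pos hu0
    have h3 : 0 < Real.sqrt (nm u) := Real.sqrt_pos.2 (nm_posR hu0)
    exact (hL Y D u hu0 (by linarith) hD).trans
      (PCNM.one _ _ _ _ h2 h3 (Real.sqrt_le_sqrt (huX.trans hXY)) hD)
  rw [PCNM.pcn_eq]
  refine (Finset.sum_le_sum h1).trans ?_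
  rw [Finset.sum_add_distrib, ← Finset.mul_sum, ← Finset.mul_sum]
  have hlX : Real.log X ≤ Real.log Y := Real.log_le_log (by linarith) hXY
  have hsX : 0 ≤ Real.sqrt X := Real.sqrt_nonneg _
  have h4 : ∑ u ∈ disc X, (cont u : ℝ) / Real.sqrt (nm u) ≤
      C * Real.sqrt X * (1 + Real.log Y) := u2.trans
    (mul_le_mul_of_nonneg_left (by linarith) (by positivity))
  calc 6 * D * Real.sqrt Y * ∑ u ∈ disc X, 1 / Real.sqrt (nm u) +
        3 * Real.sqrt Y * ∑ u ∈ disc X, (cont u : ℝ) / Real.sqrt (nm u)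
      ≤ 6 * D * Real.sqrt Y * (C * Real.sqrt X) +
        3 * Real.sqrt Y * (C * Real.sqrt X * (1 + Real.log Y)) :=
        add_le_add (mul_le_mul_of_nonneg_left u1 (by positivity))
          (mul_le_mul_of_nonneg_left h4 (by positivity))
    _ = C * (Real.sqrt X * Real.sqrt Y) * (6 * D + 3 * (1 + Real.log Y)) := by ring
    _ ≤ C * (Real.sqrt X * Real.sqrt Y) * (6 * (D + 1) * (1 + Real.log Y)) := by
        refine mul_le_mul_of_nonneg_left ?_ (by positivity)
        nlinarith [mul_nonneg hD hlog]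
    _ = 6 * C * (D + 1) * Real.sqrt (X * Y) * (1 + Real.log Y) := by
        rw [Real.sqrt_mul (by linarith)]
        ring

end Pool.Agent.Lib.MP391708.XV
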