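import Pool.Agent.Lib.MP_391708_nt.X.SpecVAR

/-!
# Theorem X of MP_391708_nt, part VAR, module PHI: the number of characters modulo `t`
-/

set_option autoImplicit false

namespace Pool.Agent.Lib.MP391708.XV

open Finset Filter Topology Pool.Agent.Lib.MP391708.MR
open scoped ComplexConjugate

namespace PHIM

/-- the number of units of `Gi / t` -/
noncomputable abbrev uu (t : ℕ) : ℕ := Nat.card (Cls.RR (md t))ˣ

lemma md_ne {t : ℕ} (ht : 1 ≤ t) : md t ≠ 0 := by
  intro h
  have h1 := congrArg Zsqrtd.re h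
  rw [Zsqrtd.re_intCast, Zsqrtd.re_zero] at h1
  omega

lemma finR {t : ℕ} (ht : 1 ≤ t) : Finite (Cls.RR (md t)) := Cls.finite_RR (md_ne ht)

lemma mem_chs {t : ℕ} (ht : 1 ≤ t) (χ : MulChar (Cls.RR (md t)) ℂ) : χ ∈ chs t := by
  have := finR ht
  have h : (Set.univ : Set (MulChar (Cls.RR (md t)) ℂ)).Finite := Set.finite_univ
  unfold chs
  rw [dif_pos h, Set.Finite.mem_toFinset]
  exact Set.mem_univ χ

lemma ph_eq {t : ℕ} (ht : 1 ≤ t) : ph t = uu t := by
  have := finR ht
  have : NeZero (Monoid.exponent (Cls.RR (md t))ˣ) := ⟨Monoid.exponent_ne_zero_of_finite⟩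
  have h : (Set.univ : Set (MulChar (Cls.RR (md t)) ℂ)).Finite := Set.finite_univ
  have h1 : ph t = Nat.card (MulChar (Cls.RR (md t)) ℂ) := by
    unfold ph chs
    rw [dif_pos h, ← Set.ncard_eq_toFinset_card _ h, Set.ncard_univ]
  rw [h1, MulChar.card_eq_card_units_of_hasEnoughRootsOfUnity]

/-! ### coordinates -/

/-- coordinates -/
noncomputable def hc (t : ℕ) (q : ZMod t × ZMod t) : Cls.RR (md t) :=
  Ideal.Quotient.mk (Ideal.span {md t}) (⟨(q.1.val : ℤ), (q.2.val : ℤ)⟩ : Gi)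

lemma hc_inj {t : ℕ} (ht : 1 ≤ t) : Function.Injective (hc t) := by
  have : NeZero t := ⟨by omega⟩
  intro q q' h
  unfold hc at h
  rw [Cls.mk_eq_iff, Zsqrtd.intCast_dvd] at h
  have key : ∀ a b : ZMod t, ((t : ℕ) : ℤ) ∣ ((a.val : ℤ) - (b.val : ℤ)) → a = b := by
    intro a b hab
    have h1 : ((a.val : ℤ) : ZMod t) = ((b.val : ℤ) : ZMod t) := by
      rw [ZMod.intCast_eq_intCast_iff_dvd_sub]
      have := (dvd_neg (a := ((t : ℕ) : ℤ))).2 hab
      rwa [neg_sub] at this
    simpa using h1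
  have h1 := h.1
  have h2 := h.2
  rw [Zsqrtd.re_sub] at h1
  rw [Zsqrtd.im_sub] at h2
  exact Prod.ext (key _ _ h1) (key _ _ h2)

lemma hc_surj {t : ℕ} (ht : 1 ≤ t) : Function.Surjective (hc t) := by
  have : NeZero t := ⟨by omega⟩
  intro x
  obtain ⟨z, rfl⟩ := Ideal.Quotient.mk_surjective x
  refine ⟨((z.re : ZMod t), (z.im : ZMod t)), ?_⟩
  unfold hc
  rw [Cls.mk_eq_iff, Zsqrtd.intCast_dvd, Zsqrtd.re_sub, Zsqrtd.im_sub]
  constructor
  · rw [← ZMod.intCast_eq_intCast_iff_dvd_sub]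
    simp
  · rw [← ZMod.intCast_eq_intCast_iff_dvd_sub]
    simp

lemma card_RR {t : ℕ} (ht : 1 ≤ t) : Nat.card (Cls.RR (md t)) = t ^ 2 := by
  have : NeZero t := ⟨by omega⟩
  rw [← Nat.card_congr (Equiv.ofBijective (hc t) ⟨hc_inj ht, hc_surj ht⟩), Nat.card_prod,
    Nat.card_zmod, sq]

lemma uu_le {t : ℕ} (ht : 1 ≤ t) : uu t ≤ t ^ 2 := by
  have := finR ht
  rw [← card_RR ht]
  exact Nat.card_le_card_of_injective (fun u : (Cls.RR (md t))ˣ => (u : Cls.RR (md t)))
    Units.val_injective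

/-! ### primes -/

lemma unit_of {t : ℕ} {z : Gi} (h : IsCoprime (nm z : ℤ) (t : ℤ)) : IsCoprime z (md t) := by
  obtain ⟨a, b, hab⟩ := h
  refine ⟨(a : Gi) * star z, (b : Gi), ?_⟩
  have h1 : star z * z = ((nm z : ℤ) : Gi) := Cls.star_mul_self z
  have h2 : ((a * (nm z : ℤ) + b * (t : ℤ) : ℤ) : Gi) = ((1 : ℤ) : Gi) := congrArg _ hab
  rw [mul_assoc, h1]
  push_cast at h2 ⊢
  exact h2

lemma card_N (p : ℕ) [Fact p.Prime] :
    (univ.filter (fun q : ZMod p × ZMod p => q.1 ^ 2 + q.2 ^ 2 = 0)).card + 1 ≤ 2 * p := by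
  classical
  have hp := (Fact.out : p.Prime).two_le
  by_cases hi : ∃ i : ZMod p, i ^ 2 = -1
  · obtain ⟨i, hi⟩ := hi
    let A : Finset (ZMod p × ZMod p) := univ.image (fun b : ZMod p => (i * b, b))
    let B : Finset (ZMod p × ZMod p) := univ.image (fun b : ZMod p => (-i * b, b))
    have hA : A.card ≤ p := card_image_le.trans (by rw [card_univ, ZMod.card])
    have hB : B.card ≤ p := card_image_le.trans (by rw [card_univ, ZMod.card])
    have h1 : univ.filter (fun q : ZMod p × ZMod p => q.1 ^ 2 + q.2 ^ 2 = 0) ⊆ A ∪ B := by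
      rintro ⟨x, y⟩ hq
      rw [mem_filter] at hq
      have hq2 : x ^ 2 + y ^ 2 = 0 := hq.2
      have h2 : (x - i * y) * (x + i * y) = 0 := by
        linear_combination hq2 - y ^ 2 * hi
      rcases mul_eq_zero.1 h2 with h3 | h3
      · exact mem_union_left _ (mem_image.2 ⟨y, mem_univ _, Prod.ext (by
          linear_combination -h3) rfl⟩)
      · exact mem_union_right _ (mem_image.2 ⟨y, mem_univ _, Prod.ext (by
          linear_combination -h3) rfl⟩)
    have h2 : 1 ≤ (A ∩ B).card := by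
      rw [Nat.one_le_iff_ne_zero, Ne, card_eq_zero, ← Ne, ← nonempty_iff_ne_empty]
      exact ⟨(0, 0), mem_inter.2 ⟨mem_image.2 ⟨0, mem_univ _, by rw [mul_zero]⟩,
        mem_image.2 ⟨0, mem_univ _, by rw [mul_zero]⟩⟩⟩
    have h3 := card_union_add_card_inter A B
    have h4 := card_le_card h1
    omega
  · have h1 : univ.filter (fun q : ZMod p × ZMod p => q.1 ^ 2 + q.2 ^ 2 = 0) ⊆ {(0, 0)} := by
      rintro ⟨x, y⟩ hq
      rw [mem_filter] at hq
      have hq2 : x ^ 2 + y ^ 2 = 0 := hq.2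
      rw [mem_singleton]
      by_cases hy : y = 0
      · subst hy
        have hx : x ^ 2 = 0 := by linear_combination hq2
        rw [pow_eq_zero_iff two_ne_zero] at hx
        rw [hx]
      · exfalso
        refine hi ⟨x / y, ?_⟩
        rw [div_pow, div_eq_iff (pow_ne_zero 2 hy)]
        linear_combination hq2
    have h2 := card_le_card h1
    rw [card_singleton] at h2
    omega

lemma uu_prime {p : ℕ} (hp : p.Prime) : (p - 1) ^ 2 ≤ uu p := by
  classical
  have : Fact p.Prime := ⟨hp⟩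
  have hp1 : 1 ≤ p := hp.one_le
  have := finR hp1
  let T := {q : ZMod p × ZMod p // ¬ (q.1 ^ 2 + q.2 ^ 2 = 0)}
  have h1 : ∀ q : T, IsUnit (hc p q.1) := by
    rintro ⟨⟨x, y⟩, hq⟩
    change IsUnit (Ideal.Quotient.mk (Ideal.span {md p}) (⟨(x.val : ℤ), (y.val : ℤ)⟩ : Gi))
    rw [Cls.isUnit_mk]
    apply unit_of
    rw [nm_cast]
    rw [isCoprime_comm, (Nat.prime_iff_prime_int.1 hp).coprime_iff_not_dvd]
    intro hd
    rw [← ZMod.intCast_zmod_eq_zero_iff_dvd] at hd
    apply hq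
    push_cast at hd
    simpa using hd
  let f : T → (Cls.RR (md p))ˣ := fun q => (h1 q).unit
  have hf : Function.Injective f := by
    intro q q' h
    have h2 : hc p q.1 = hc p q'.1 := congrArg Units.val h
    exact Subtype.ext (hc_inj hp1 h2)
  have h2 : Nat.card T ≤ uu p := Nat.card_le_card_of_injective f hf
  refine le_trans ?_ h2
  rw [Nat.card_eq_fintype_card, Fintype.card_subtype]
  have h3 := card_N p
  have h4 := card_filter_add_card_filter_not (s := (univ : Finset (ZMod p × ZMod p)))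
    (fun q => q.1 ^ 2 + q.2 ^ 2 = 0)
  rw [card_univ, Fintype.card_prod, ZMod.card] at h4
  obtain ⟨m, rfl⟩ : ∃ m, p = m + 1 := ⟨p - 1, by omega⟩
  rw [Nat.add_sub_cancel]
  nlinarith

/-! ### prime powers -/

lemma uu_pow {p n : ℕ} (hp : p.Prime) (hn : 0 < n) : (p ^ (n - 1)) ^ 2 * uu p = uu (p ^ n) := by
  classical
  have hp1 : 1 ≤ p := hp.one_le
  have hpn : 1 ≤ p ^ n := Nat.one_le_pow _ _ hp1
  have := finR hp1
  have := finR hpn
  have := Fintype.ofFinite (Cls.RR (md p))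
  have := Fintype.ofFinite (Cls.RR (md (p ^ n)))
  have hmd : md (p ^ n) = md p ^ n := by push_cast; rfl
  have hle : Ideal.span {md (p ^ n)} ≤ Ideal.span {md p} := by
    rw [Ideal.span_singleton_le_span_singleton, hmd]
    exact dvd_pow_self _ hn.ne'
  let f : Cls.RR (md (p ^ n)) →+* Cls.RR (md p) := Ideal.Quotient.factor hle
  have hf : Function.Surjective f := Ideal.Quotient.factor_surjective hle
  have hu : ∀ x, IsUnit x ↔ IsUnit (f x) := by
    intro x
    obtain ⟨z, rfl⟩ := Ideal.Quotient.mk_surjective x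
    have h1 : f (Ideal.Quotient.mk _ z) = Ideal.Quotient.mk _ z := Ideal.Quotient.factor_mk hle z
    rw [h1, Cls.isUnit_mk, Cls.isUnit_mk, hmd, IsCoprime.pow_right_iff hn]
  -- the fibres
  have hfib : ∀ y, (univ.filter (fun x => f x = y)).card = (univ.filter (fun x => f x = 0)).card := by
    intro y
    obtain ⟨x₀, hx₀⟩ := hf y
    refine card_bij' (fun x _ => x - x₀) (fun x _ => x + x₀) ?_ ?_ ?_ ?_
    · intro x hx
      rw [mem_filter] at hx ⊢
      exact ⟨mem_univ _, by rw [map_sub, hx.2, hx₀, sub_self]⟩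
    · intro x hx
      rw [mem_filter] at hx ⊢
      exact ⟨mem_univ _, by rw [map_add, hx.2, hx₀, zero_add]⟩
    · intro x _
      exact sub_add_cancel _ _
    · intro x _
      exact add_sub_cancel_right _ _
  set c := (univ.filter (fun x => f x = 0)).card with hc'
  have h1 : (p ^ n) ^ 2 = p ^ 2 * c := by
    rw [← card_RR hpn, ← card_RR hp1, Nat.card_eq_fintype_card, Nat.card_eq_fintype_card,
      ← card_univ, ← card_univ,
      card_eq_sum_card_fiberwise (f := f) (t := univ) (fun _ _ => mem_coe.2 (mem_univ _)),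
      sum_congr rfl (fun y _ => hfib y), sum_const, smul_eq_mul]
  have h2 : c = (p ^ (n - 1)) ^ 2 := by
    have h3 : p ^ n = p * p ^ (n - 1) := by
      rw [← pow_succ', Nat.sub_add_cancel hn]
    rw [h3, mul_pow] at h1
    exact (Nat.eq_of_mul_eq_mul_left (pow_pos hp.pos 2) h1).symm
  have hcu : ∀ (R : Type) [CommRing R] [Fintype R] [DecidableEq R],
      Nat.card Rˣ = (univ.filter (fun x : R => IsUnit x)).card := by
    intro R _ _ _
    rw [← Fintype.card_subtype, ← Nat.card_eq_fintype_card]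
    refine Nat.card_congr (Equiv.ofBijective (fun u : Rˣ => (⟨u, u.isUnit⟩ : {x : R // IsUnit x}))
      ⟨fun a b h => Units.ext (congrArg Subtype.val h), ?_⟩)
    rintro ⟨x, hx⟩
    exact ⟨hx.unit, rfl⟩
  unfold uu
  rw [hcu, hcu, ← h2,
    card_eq_sum_card_fiberwise (f := f) (s := univ.filter (fun x => IsUnit x))
      (t := univ.filter (fun y => IsUnit y))
      (fun x hx => by
        rw [mem_coe, mem_filter] at hx ⊢
        exact ⟨mem_univ _, (hu x).1 hx.2⟩)]
  have h4 : ∀ y ∈ univ.filter (fun y : Cls.RR (md p) => IsUnit y),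
      ((univ.filter (fun x : Cls.RR (md (p ^ n)) => IsUnit x)).filter (fun x => f x = y)).card = c := by
    intro y hy
    rw [← hfib y]
    congr 1
    ext x
    rw [mem_filter, mem_filter, mem_filter]
    constructor
    · rintro ⟨_, h⟩
      exact ⟨mem_univ _, h⟩
    · rintro ⟨_, h⟩
      refine ⟨⟨mem_univ _, ?_⟩, h⟩
      rw [hu, h]
      exact (mem_filter.1 hy).2
  rw [sum_congr rfl h4, sum_const, smul_eq_mul, mul_comm]

/-! ### multiplicativity -/

lemma uu_mul {a b : ℕ} (hab : a.Coprime b) : uu (a * b) = uu a * uu b := by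
  have h1 : IsCoprime (md a) (md b) := by
    have h2 : IsCoprime (a : ℤ) (b : ℤ) := Nat.isCoprime_iff_coprime.2 hab
    exact h2.map (Int.castRingHom Gi)
  have h2 : IsCoprime (Ideal.span {md a}) (Ideal.span {md b}) :=
    (Ideal.isCoprime_span_singleton_iff _ _).2 h1
  have h3 : Ideal.span {md (a * b)} = Ideal.span {md a} * Ideal.span {md b} := by
    rw [Ideal.span_singleton_mul_span_singleton]
    congr 2
    push_cast
    rfl
  let e : Cls.RR (md (a * b)) ≃+* Cls.RR (md a) × Cls.RR (md b) :=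
    (Ideal.quotEquivOfEq h3).trans (Ideal.quotientMulEquivQuotientProd _ _ h2)
  rw [uu, Nat.card_congr (Units.mapEquiv e.toMulEquiv).toEquiv,
    Nat.card_congr MulEquiv.prodUnits.toEquiv, Nat.card_prod]

lemma tot_le (t : ℕ) (ht : 1 ≤ t) : t.totient ^ 2 ≤ uu t := by
  revert ht
  refine Nat.recOnPosPrimePosCoprime (motive := fun t => 1 ≤ t → t.totient ^ 2 ≤ uu t)
    ?_ ?_ ?_ ?_ t
  · intro p n hp hn _
    rw [← uu_pow hp hn, Nat.totient_prime_pow hp hn, mul_pow]
    exact Nat.mul_le_mul_left _ (uu_prime hp)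
  · intro h
    omega
  · intro _
    have := finR (le_refl 1)
    rw [Nat.totient_one, one_pow]
    exact Nat.card_pos
  · intro a b ha hb hab iha ihb _
    rw [uu_mul hab, Nat.totient_mul hab, mul_pow]
    exact Nat.mul_le_mul (iha ha.le) (ihb hb.le)

/-! ### Euler's function -/

lemma prod_bound (S : Finset ℕ) (h : ∀ p ∈ S, 2 ≤ p) :
    1 / ((S.card : ℝ) + 1) ≤ ∏ p ∈ S, (1 - ((p : ℝ))⁻¹) := by
  revert h
  refine Finset.induction_on_max (motive := fun S : Finset ℕ => (∀ p ∈ S, 2 ≤ p) →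
    1 / ((S.card : ℝ) + 1) ≤ ∏ p ∈ S, (1 - ((p : ℝ))⁻¹)) S ?_ ?_
  · intro _
    simp
  · intro m S hm ih h
    have hmS : m ∉ S := fun h' => lt_irrefl _ (hm m h')
    have h2 : ∀ p ∈ S, 2 ≤ p := fun p hp => h p (mem_insert_of_mem hp)
    have h3 : S ⊆ Finset.Ico 2 m := fun p hp => mem_Ico.2 ⟨h2 p hp, hm p hp⟩
    have h4 := card_le_card h3
    rw [Nat.card_Ico] at h4
    have h5 : 2 ≤ m := h m (mem_insert_self _ _)
    have h6 : (S.card : ℝ) + 2 ≤ m := by
      have : S.card + 2 ≤ m := by omega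
      exact_mod_cast this
    rw [card_insert_of_notMem hmS, prod_insert hmS]
    have h7 : (1 : ℝ) - 1 / ((S.card : ℝ) + 2) ≤ 1 - ((m : ℝ))⁻¹ := by
      rw [← one_div]
      have : 1 / (m : ℝ) ≤ 1 / ((S.card : ℝ) + 2) := one_div_le_one_div_of_le (by positivity) h6
      linarith
    have h8 : (1 : ℝ) / (((S.card + 1 : ℕ) : ℝ) + 1) =
        (1 - 1 / ((S.card : ℝ) + 2)) * (1 / ((S.card : ℝ) + 1)) := by
      have ha : (S.card : ℝ) + 2 ≠ 0 := by positivity
      have hb : (S.card : ℝ) + 1 ≠ 0 := by positivity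
      push_cast
      field_simp
      ring
    rw [h8]
    have h9 : (0 : ℝ) ≤ 1 / ((S.card : ℝ) + 1) := by positivity
    have h10 : (0 : ℝ) ≤ 1 - ((m : ℝ))⁻¹ := by
      have : ((m : ℝ))⁻¹ ≤ 1 := inv_le_one_of_one_le₀ (by exact_mod_cast h5.trans' one_le_two)
      linarith
    exact mul_le_mul h7 (ih h2) h9 h10

lemma tot_real {t : ℕ} (ht : 1 ≤ t) : (t : ℝ) / (1 + 2 * Real.log t) ≤ t.totient := by
  have h1 : ((t.totient : ℝ)) = t * ∏ p ∈ t.primeFactors, (1 - ((p : ℝ))⁻¹) := by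
    have h2 := Nat.totient_eq_mul_prod_factors t
    have h3 : (((t.totient : ℚ)) : ℝ) = ((t * ∏ p ∈ t.primeFactors, (1 - ((p : ℚ))⁻¹) : ℚ) : ℝ) := by
      rw [h2]
    push_cast at h3
    exact h3
  have h2 := prod_bound t.primeFactors (fun p hp => (Nat.prime_of_mem_primeFactors hp).two_le)
  have h3 : (t.primeFactors.card : ℝ) ≤ 2 * Real.log t := by
    have h4 : 2 ^ t.primeFactors.card ≤ t := by
      have h5 : 2 ^ t.primeFactors.card ≤ ∏ p ∈ t.primeFactors, p :=
        pow_card_le_prod _ _ _ (fun p hp => (Nat.prime_of_mem_primeFactors hp).two_le)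
      exact h5.trans (Nat.le_of_dvd (by omega) (Nat.prod_primeFactors_dvd t))
    have h6 : ((2 : ℝ)) ^ t.primeFactors.card ≤ t := by exact_mod_cast h4
    have h7 := Real.log_le_log (by positivity) h6
    rw [Real.log_pow] at h7
    have h8 := Real.log_two_gt_d9
    have h9 : (0 : ℝ) ≤ t.primeFactors.card := by positivity
    nlinarith
  have hl : 0 ≤ Real.log t := Real.log_nonneg (by exact_mod_cast ht)
  rw [h1, div_eq_mul_one_div]
  refine mul_le_mul_of_nonneg_left (le_trans ?_ h2) (by positivity)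
  exact one_div_le_one_div_of_le (by positivity) (by linarith)

end PHIM

/-- PHI: the number of characters modulo `t`. -/
theorem specPHI : SpecPHI := by
  intro t ht
  refine ⟨fun χ => PHIM.mem_chs ht χ, ?_, ?_⟩
  · rw [PHIM.ph_eq ht, ← div_pow]
    have h1 : ((t : ℝ) / (1 + 2 * Real.log t)) ^ 2 ≤ (t.totient : ℝ) ^ 2 := by
      have hl : 0 ≤ Real.log t := Real.log_nonneg (by exact_mod_cast ht)
      exact pow_le_pow_left₀ (by positivity) (PHIM.tot_real ht) 2
    refine h1.trans ?_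
    exact_mod_cast PHIM.tot_le t ht
  · rw [PHIM.ph_eq ht]
    exact_mod_cast PHIM.uu_le ht

end Pool.Agent.Lib.MP391708.XV
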