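import Pool.Agent.Lib.MP_391708_nt.X.SpecVAR

/-!
# Module PNC (MP_391708_nt, Theorem X, part VAR): trivial bounds
-/

set_option autoImplicit false

namespace Pool.Agent.Lib.MP391708.XV

open Finset Filter Topology Pool.Agent.Lib.MP391708.MR
open scoped ComplexConjugate

namespace PNCM

lemma crs_sub_self (z z' : Gi) : crs (z' - z) z = crs z' z := by
  unfold crs
  simp only [Zsqrtd.re_sub, Zsqrtd.im_sub]
  ring

lemma crs_md (t : ℕ) (u z : Gi) : crs (md t * u) z = t * crs u z := by
  unfold crs md
  simp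
  ring

lemma crs_eq_im (z z' : Gi) :
    (crs z' z : ℝ) = (GaussianInt.toComplex z * conj (GaussianInt.toComplex z')).im := by
  unfold crs
  rw [GaussianInt.toComplex_def, GaussianInt.toComplex_def]
  simp
  ring

lemma abs_crs_le {z z' : Gi} {φ Y : ℝ} (hφ : ang z z' ≤ φ) (hY : 0 ≤ Y) (h : (nm z : ℝ) ≤ Y)
    (h' : (nm z' : ℝ) ≤ Y) : |(crs z' z : ℝ)| ≤ Y * φ := by
  rw [crs_eq_im, ← Complex.norm_mul_sin_arg, abs_mul, abs_of_nonneg (norm_nonneg _), norm_mul,
    RCLike.norm_conj, norm_toComplex, norm_toComplex]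
  have h1 : Real.sqrt (nm z) * Real.sqrt (nm z') ≤ Y := by
    calc Real.sqrt (nm z) * Real.sqrt (nm z') ≤ Real.sqrt Y * Real.sqrt Y :=
          mul_le_mul (Real.sqrt_le_sqrt h) (Real.sqrt_le_sqrt h') (Real.sqrt_nonneg _)
            (Real.sqrt_nonneg _)
      _ = Y := Real.mul_self_sqrt hY
  exact mul_le_mul h1 (Real.abs_sin_le_abs.trans hφ) (abs_nonneg _) hY

lemma nm_sub_le (z z' : Gi) : (nm (z' - z) : ℝ) ≤ 2 * nm z + 2 * nm z' := by
  rw [nm_castR, nm_castR, nm_castR]
  simp only [Zsqrtd.re_sub, Zsqrtd.im_sub]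
  push_cast
  nlinarith [sq_nonneg ((z.re : ℝ) + z'.re), sq_nonneg ((z.im : ℝ) + z'.im)]

lemma nm_md (t : ℕ) : nm (md t) = t ^ 2 := by
  unfold nm md
  simp

lemma tri_le (φ x : ℝ) (hφ : 0 < φ) (hx : 0 ≤ x) :
    |tri (x / φ)| ≤ if x < φ then 1 else 0 := by
  unfold tri
  rw [abs_of_nonneg (le_max_left _ _), abs_of_nonneg (div_nonneg hx hφ.le)]
  have h0 : 0 ≤ x / φ := div_nonneg hx hφ.le
  split_ifs with h
  · exact max_le (by norm_num) (by linarith)
  · have h1 : 1 ≤ x / φ := by
      rw [le_div_iff₀ hφ]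
      linarith
    exact max_le le_rfl (by linarith)

end PNCM

open PNCM

theorem specPNC : SpecPNC := by
  classical
  refine ⟨?_, ?_⟩
  · intro t φ F S f ht hφ hF hf
    unfold TT
    have hterm : ∀ z ∈ S, ∀ z' ∈ S, ‖f z * conj (f z') * ((tri (ang z z' / φ) : ℝ) : ℂ)‖ ≤
        F ^ 2 * (if ang z z' < φ then 1 else 0) := by
      intro z hz z' hz'
      rw [norm_mul, norm_mul, RCLike.norm_conj, Complex.norm_real, Real.norm_eq_abs]
      apply mul_le_mul _ (tri_le φ _ hφ (ang_nonneg _ _)) (abs_nonneg _) (by positivity)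
      rw [sq]
      exact mul_le_mul (hf z hz) (hf z' hz') (norm_nonneg _) hF
    have hPN : (PN t φ S : ℝ) = ∑ z ∈ S, ∑ z' ∈ S.filter (fun z' => md t ∣ z' - z),
        (if ang z z' < φ then (1 : ℝ) else 0) := by
      unfold PN
      rw [card_filter]
      push_cast
      rw [sum_product]
      refine sum_congr rfl fun z _ => ?_
      rw [sum_filter]
      refine sum_congr rfl fun z' _ => ?_
      by_cases h1 : md t ∣ z' - z <;> by_cases h2 : ang z z' < φ <;> simp [h1, h2]
    calc _ ≤ ‖∑ z ∈ S.filter (fun z => IsCoprime z (md t)),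
          ∑ z' ∈ S.filter (fun z' => md t ∣ z' - z),
          f z * conj (f z') * ((tri (ang z z' / φ) : ℝ) : ℂ)‖ := Complex.re_le_norm _
      _ ≤ ∑ z ∈ S.filter (fun z => IsCoprime z (md t)),
          ∑ z' ∈ S.filter (fun z' => md t ∣ z' - z),
          F ^ 2 * (if ang z z' < φ then 1 else 0) := by
        refine (norm_sum_le _ _).trans (sum_le_sum fun z hz => ?_)
        refine (norm_sum_le _ _).trans (sum_le_sum fun z' hz' => ?_)
        exact hterm z (mem_filter.1 hz).1 z' (mem_filter.1 hz').1
      _ ≤ ∑ z ∈ S, ∑ z' ∈ S.filter (fun z' => md t ∣ z' - z),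
          F ^ 2 * (if ang z z' < φ then 1 else 0) := by
        apply sum_le_sum_of_subset_of_nonneg (filter_subset _ _)
        intro z _ _
        apply sum_nonneg
        intro z' _
        split_ifs <;> positivity
      _ = F ^ 2 * PN t φ S := by
        rw [hPN, mul_sum]
        refine sum_congr rfl fun z _ => ?_
        rw [mul_sum]
  · intro t φ Y S ht hφ hS
    have htR : (1 : ℝ) ≤ t := by exact_mod_cast ht
    have ht0 : (0 : ℝ) < t := by linarith
    have hsub : (S ×ˢ S).filter (fun q => md t ∣ q.2 - q.1 ∧ ang q.1 q.2 < φ) ⊆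
        S.image (fun z => (z, z)) ∪
          ((disc (4 * Y / (t : ℝ) ^ 2) ×ˢ disc Y).filter
            (fun q => |(crs q.1 q.2 : ℝ)| ≤ Y * φ / t)).image
            (fun q => (q.2, q.2 + md t * q.1)) := by
      rintro ⟨z, z'⟩ hq
      rw [mem_filter, mem_product] at hq
      obtain ⟨⟨hz, hz'⟩, hdvd, hang⟩ := hq
      simp only at hz hz' hdvd hang
      rw [mem_union]
      by_cases hzz : z = z'
      · left
        rw [mem_image]
        exact ⟨z, hz, by rw [hzz]⟩
      · right
        obtain ⟨u, hu⟩ := hdvd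
        have hzY := mem_disc.1 (hS hz)
        have hzY' := mem_disc.1 (hS hz')
        have hY0 : 0 ≤ Y := le_trans (by positivity) hzY.2
        rw [mem_image]
        refine ⟨(u, z), ?_, ?_⟩
        · rw [mem_filter, mem_product]
          refine ⟨⟨?_, hS hz⟩, ?_⟩
          · rw [mem_disc]
            refine ⟨?_, ?_⟩
            · rintro rfl
              rw [mul_zero, sub_eq_zero] at hu
              exact hzz hu.symm
            · rw [le_div_iff₀ (by positivity)]
              have h1 := nm_sub_le z z'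
              rw [hu, nm_mul, nm_md] at h1
              push_cast at h1
              nlinarith [hzY.2, hzY'.2]
          · have h1 : (t : ℝ) * (crs u z : ℝ) = (crs z' z : ℝ) := by
              rw [← crs_sub_self z z', hu, crs_md]
              push_cast
              ring
            have h2 := abs_crs_le hang.le hY0 hzY.2 hzY'.2
            rw [← h1, abs_mul, abs_of_pos ht0] at h2
            change |(crs u z : ℝ)| ≤ Y * φ / t
            rw [le_div_iff₀ ht0]
            linarith
        · simp only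
          rw [← hu]
          simp
    have h1 := card_le_card hsub
    have h2 : (PN t φ S : ℕ) ≤ S.card + pcn (4 * Y / (t : ℝ) ^ 2) Y (Y * φ / t) := by
      unfold PN pcn
      refine h1.trans ((card_union_le _ _).trans ?_)
      exact Nat.add_le_add card_image_le card_image_le
    exact_mod_cast h2

end Pool.Agent.Lib.MP391708.XV
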