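import Pool.Agent.Lib.MP_391708_nt.X.SpecVAR
import Pool.Agent.Lib.MP_391708_nt.MR.Basic

/-!
# THEOREM X (MP_391708), part VAR, module SML: the trivial bound for one `t`
-/

set_option autoImplicit false

namespace Pool.Agent.Lib.MP391708.XV

open Finset Filter Topology Pool.Agent.Lib.MP391708.MR
open scoped ComplexConjugate

namespace SMLM

lemma om1_nonneg (κ x : ℝ) : 0 ≤ om1 κ x := le_max_left _ _

lemma om1_le_one (κ x : ℝ) : om1 κ x ≤ 1 := max_le zero_le_one (min_le_left _ _)

lemma om1_zero (κ : ℝ) : om1 κ 0 = 0 := by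
  unfold om1
  refine max_eq_left ((min_le_right _ _).trans ((min_le_left _ _).trans ?_))
  norm_num

lemma om1_ne {κ x : ℝ} (hκ : 1 ≤ κ) (h : om1 κ x ≠ 0) : x < 2 * κ := by
  by_contra h1
  push Not at h1
  apply h
  unfold om1
  refine max_eq_left ((min_le_right _ _).trans ((min_le_right _ _).trans ?_))
  have h2 : 2 ≤ x / κ := by rw [le_div_iff₀ (by linarith)]; exact h1
  linarith

lemma om2_nonneg (x : ℝ) : 0 ≤ om2 x := mul_nonneg (by norm_num) (le_max_left _ _)

lemma om2_le_two (x : ℝ) : om2 x ≤ 2 := by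
  unfold om2 tri
  have : max 0 (1 - |x / 4|) ≤ 1 := max_le zero_le_one (by linarith [abs_nonneg (x / 4)])
  linarith

lemma om2_ne {x : ℝ} (h : om2 x ≠ 0) : |x| < 4 := by
  by_contra h1
  push Not at h1
  apply h
  unfold om2 tri
  have h2 : 1 ≤ |x / 4| := by
    rw [abs_div, abs_of_pos (by norm_num : (0 : ℝ) < 4), le_div_iff₀ (by norm_num)]; linarith
  rw [max_eq_left (by linarith), mul_zero]

lemma nm_md (t : ℕ) : nm (md t) = t ^ 2 := by
  unfold nm md
  simp

end SMLM

open SMLM Classical in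
theorem specSML : SpecSML := by
  intro κ K B Y F t S f hκ hK hB hF ht hS hf
  have ht0 : (0 : ℝ) < t := by exact_mod_cast ht
  -- the kernel
  set ker : Gi → Gi → ℝ := fun z z' => om1 κ ((nm (z' - z) : ℝ) / ((t : ℝ) ^ 2 * K)) *
      om2 ((crs z' z : ℝ) / ((t : ℝ) * B)) with hker
  have hk0 : ∀ z z', 0 ≤ ker z z' := fun z z' => mul_nonneg (om1_nonneg _ _) (om2_nonneg _)
  have hk2 : ∀ z z', ker z z' ≤ 2 := fun z z' => by
    have h1 := om1_le_one κ ((nm (z' - z) : ℝ) / ((t : ℝ) ^ 2 * K))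
    have h2 := om2_le_two ((crs z' z : ℝ) / ((t : ℝ) * B))
    have h3 := om2_nonneg ((crs z' z : ℝ) / ((t : ℝ) * B))
    calc ker z z' ≤ 1 * 2 := mul_le_mul h1 h2 h3 zero_le_one
      _ = 2 := by norm_num
  set D : Finset (Gi × Gi) := (S ×ˢ S).filter (fun q => md t ∣ q.2 - q.1 ∧ ker q.1 q.2 ≠ 0) with hD
  -- step 1
  have e1 : |VT κ K B t S f| ≤ 2 * F ^ 2 * (D.card : ℝ) := by
    unfold VT
    refine (Complex.abs_re_le_norm _).trans ((norm_sum_le _ _).trans ?_)
    have e2 : ∀ z ∈ S, ‖∑ z' ∈ S.filter (fun z' => md t ∣ z' - z ∧ pos z z'), f z * conj (f z') *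
        ((om1 κ ((nm (z' - z) : ℝ) / ((t : ℝ) ^ 2 * K)) *
          om2 ((crs z' z : ℝ) / ((t : ℝ) * B)) : ℝ) : ℂ)‖ ≤
        ∑ z' ∈ S, (if md t ∣ z' - z ∧ ker z z' ≠ 0 then 2 * F ^ 2 else 0) := by
      intro z hz
      refine (norm_sum_le _ _).trans ?_
      rw [Finset.sum_filter]
      refine Finset.sum_le_sum fun z' hz' => ?_
      have hF2 : 0 ≤ 2 * F ^ 2 := by positivity
      by_cases h1 : md t ∣ z' - z ∧ pos z z'
      · rw [if_pos h1]
        by_cases h2 : ker z z' = 0
        · have : ‖f z * conj (f z') * ((om1 κ ((nm (z' - z) : ℝ) / ((t : ℝ) ^ 2 * K)) *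
              om2 ((crs z' z : ℝ) / ((t : ℝ) * B)) : ℝ) : ℂ)‖ = 0 := by
            have h3 : om1 κ ((nm (z' - z) : ℝ) / ((t : ℝ) ^ 2 * K)) *
              om2 ((crs z' z : ℝ) / ((t : ℝ) * B)) = 0 := h2
            rw [h3]; simp
          rw [this]
          split_ifs
          · exact hF2
          · exact le_rfl
        · rw [if_pos ⟨h1.1, h2⟩, norm_mul, norm_mul, RCLike.norm_conj, Complex.norm_real,
            Real.norm_of_nonneg (hk0 z z')]
          have a1 := hf z hz
          have a2 := hf z' hz'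
          have a3 := hk2 z z'
          calc ‖f z‖ * ‖f z'‖ * ker z z' ≤ F * F * 2 := by
                refine mul_le_mul (mul_le_mul a1 a2 (norm_nonneg _) hF) a3 (hk0 _ _) (by positivity)
            _ = 2 * F ^ 2 := by ring
      · rw [if_neg h1]
        split_ifs
        · exact hF2
        · exact le_rfl
    refine (Finset.sum_le_sum e2).trans (le_of_eq ?_)
    rw [← Finset.sum_product' (f := fun z z' => if md t ∣ z' - z ∧ ker z z' ≠ 0 then 2 * F ^ 2 else 0),
      ← Finset.sum_filter, Finset.sum_const, nsmul_eq_mul, hD]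
    ring
  -- step 2
  have e3 : D.card ≤ pcn (2 * κ * K) Y (4 * B) := by
    unfold pcn
    set u : Gi × Gi → Gi := fun q => if h : md t ∣ q.2 - q.1 then Classical.choose h else 0 with hu
    have hus : ∀ q ∈ D, q.2 - q.1 = md t * u q := by
      intro q hq
      rw [hD, mem_filter] at hq
      have h := hq.2.1
      rw [hu]
      simp only [dif_pos h]
      exact Classical.choose_spec h
    refine Finset.card_le_card_of_injOn (fun q => (u q, q.1)) ?_ ?_
    · intro q hq
      have hq' : q ∈ D := hq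
      have h1 := hus q hq'
      rw [hD, mem_filter, mem_product] at hq'
      obtain ⟨⟨hz, hz'⟩, -, hne⟩ := hq'
      have n1 : om1 κ ((nm (q.2 - q.1) : ℝ) / ((t : ℝ) ^ 2 * K)) ≠ 0 := left_ne_zero_of_mul hne
      have n2 : om2 ((crs q.2 q.1 : ℝ) / ((t : ℝ) * B)) ≠ 0 := right_ne_zero_of_mul hne
      have hnm : (nm (q.2 - q.1) : ℝ) = (t : ℝ) ^ 2 * nm (u q) := by
        rw [h1, nm_mul, nm_md]; push_cast; ring
      have hcrs : (crs q.2 q.1 : ℝ) = (t : ℝ) * crs (u q) q.1 := by
        have h2 : crs q.2 q.1 = (t : ℤ) * crs (u q) q.1 := by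
          have h3 : q.2 = md t * u q + q.1 := by rw [← h1]; ring
          have h4 : q.2.re = (t : ℤ) * (u q).re + q.1.re := by rw [h3]; simp
          have h5 : q.2.im = (t : ℤ) * (u q).im + q.1.im := by rw [h3]; simp
          unfold crs
          rw [h4, h5]; ring
        rw [h2]; push_cast; ring
      rw [hnm] at n1
      have ht2 : (0 : ℝ) < (t : ℝ) ^ 2 := by positivity
      rw [mul_div_mul_left _ _ ht2.ne'] at n1
      rw [hcrs, mul_div_mul_left _ _ ht0.ne'] at n2
      have b1 := om1_ne hκ n1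
      have b2 := om2_ne n2
      rw [div_lt_iff₀ hK] at b1
      rw [abs_div, abs_of_pos hB, div_lt_iff₀ hB] at b2
      have b3 : u q ≠ 0 := by
        intro h0
        rw [h0] at n1
        apply n1
        rw [nm_zero]; simp [om1_zero]
      simp only [coe_filter, Set.mem_setOf_eq, mem_product, mem_disc]
      exact ⟨⟨⟨b3, b1.le⟩, mem_disc.1 (hS hz)⟩, b2.le⟩
    · intro q hq q' hq' hqq
      simp only [Prod.mk.injEq] at hqq
      have h1 := hus q hq
      have h2 := hus q' hq'
      refine Prod.ext hqq.2 ?_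
      have h3 : q.2 = md t * u q + q.1 := by rw [← h1]; ring
      have h4 : q'.2 = md t * u q' + q'.1 := by rw [← h2]; ring
      rw [h3, h4, hqq.1, hqq.2]
  calc |VT κ K B t S f| ≤ 2 * F ^ 2 * (D.card : ℝ) := e1
    _ ≤ 2 * F ^ 2 * (pcn (2 * κ * K) Y (4 * B) : ℝ) := by
        have : (D.card : ℝ) ≤ (pcn (2 * κ * K) Y (4 * B) : ℝ) := by exact_mod_cast e3
        exact mul_le_mul_of_nonneg_left this (by positivity)

end Pool.Agent.Lib.MP391708.XV
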