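import Pool.Agent.Lib.MP_391708_nt.X.SpecVAR

/-!
# Theorem X of MP_391708_nt, part VAR, module TAI (helper80): the tail of the expansion
-/

set_option autoImplicit false

namespace Pool.Agent.Lib.MP391708.XV

open Finset Filter Topology Pool.Agent.Lib.MP391708.MR
open scoped ComplexConjugate

namespace TAIM

theorem blk (g : ℤ → ℝ) (hg : ∀ k, 0 ≤ g k) (a b : ℕ) :
    ∑ n ∈ Ioc a b, (g (n : ℤ) + g (-(n : ℤ))) ≤ ∑ k ∈ IK b, g k := by
  rw [Finset.sum_add_distrib]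
  have h1 : ∑ n ∈ Ioc a b, g (n : ℤ) =
      ∑ k ∈ (Ioc a b).image (fun n : ℕ => (n : ℤ)), g k := by
    rw [Finset.sum_image]
    intro x _ y _ h
    have h' : (x : ℤ) = (y : ℤ) := h
    omega
  have h2 : ∑ n ∈ Ioc a b, g (-(n : ℤ)) =
      ∑ k ∈ (Ioc a b).image (fun n : ℕ => -(n : ℤ)), g k := by
    rw [Finset.sum_image]
    intro x _ y _ h
    have h' : -(x : ℤ) = -(y : ℤ) := h
    omega
  rw [h1, h2, ← Finset.sum_union]
  · refine Finset.sum_le_sum_of_subset_of_nonneg ?_ fun _ _ _ => hg _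
    intro k hk
    rw [Finset.mem_union, Finset.mem_image, Finset.mem_image] at hk
    rw [IK, Finset.mem_Icc]
    rcases hk with ⟨n, hn, rfl⟩ | ⟨n, hn, rfl⟩ <;>
    · rw [Finset.mem_Ioc] at hn
      omega
  · rw [Finset.disjoint_left]
    intro k hk hk'
    rw [Finset.mem_image] at hk hk'
    obtain ⟨n, hn, rfl⟩ := hk
    obtain ⟨m, hm, hmn⟩ := hk'
    rw [Finset.mem_Ioc] at hn hm
    omega

theorem HS_nonneg (t : ℕ) (k : ℤ) (S : Finset Gi) (f : Gi → ℂ) : 0 ≤ HS t k S f := by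
  unfold HS
  exact mul_nonneg (by positivity) (Finset.sum_nonneg fun _ _ => by positivity)

theorem PN_mono (t : ℕ) {φ' φ : ℝ} (h : φ' ≤ φ) (S : Finset Gi) : PN t φ' S ≤ PN t φ S := by
  classical
  unfold PN
  refine Finset.card_le_card fun q hq => ?_
  rw [Finset.mem_filter] at hq ⊢
  exact ⟨hq.1, hq.2.1, lt_of_lt_of_le hq.2.2 h⟩

theorem block (hE : SpecEXL) (hP : SpecPNC) (t K' : ℕ) (φ F : ℝ) (S : Finset Gi) (f : Gi → ℂ)
    (ht : 1 ≤ t) (hK : 1 ≤ K') (hφ : 0 < φ) (hπ : Real.pi ≤ 2 * φ * K') (hF : 0 ≤ F)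
    (hS : ∀ z ∈ S, z ≠ 0) (hf : ∀ z ∈ S, ‖f z‖ ≤ F) :
    ∑ n ∈ Ioc K' (2 * K'), cc φ n * (HS t n S f + HS t (-n) S f) ≤
      2 * Real.pi / (φ * K') * (F ^ 2 * PN t φ S) := by
  have hp := Real.pi_pos
  have hK0 : (1 : ℝ) ≤ K' := by exact_mod_cast hK
  have hK1 : (0 : ℝ) < K' := by linarith
  set φ' : ℝ := Real.pi / (2 * K') with hφ'
  have h0 : 0 < φ' := by positivity
  have h1 : φ' ≤ Real.pi := by
    rw [hφ', div_le_iff₀ (by positivity)]
    nlinarith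
  have h2 : φ' * ((2 * K' : ℕ) : ℝ) ≤ Real.pi := by
    rw [hφ']
    push_cast
    rw [div_mul_cancel₀ _ (by positivity)]
  have h3 : φ' ≤ φ := by
    rw [hφ', div_le_iff₀ (by positivity)]
    linarith
  have e1 := hE t (2 * K') φ' S f ht h0 h1 h2 hS
  have e2 := hP.1 t φ' F S f ht h0 hF hf
  have e3 : (PN t φ' S : ℝ) ≤ PN t φ S := by exact_mod_cast PN_mono t h3 S
  have e4 : 2 * φ' / Real.pi ^ 3 * ∑ k ∈ IK (2 * K'), HS t k S f ≤ F ^ 2 * PN t φ S :=
    e1.trans (e2.trans (mul_le_mul_of_nonneg_left e3 (by positivity)))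
  have e5 : 2 * φ' / Real.pi ^ 3 = 1 / (K' * Real.pi ^ 2) := by
    rw [hφ']
    field_simp
  rw [e5, one_div, inv_mul_le_iff₀ (by positivity)] at e4
  have e6 := blk (fun k => HS t k S f) (fun k => HS_nonneg t k S f) K' (2 * K')
  have e7 : ∑ n ∈ Ioc K' (2 * K'), cc φ n * (HS t n S f + HS t (-n) S f) ≤
      ∑ n ∈ Ioc K' (2 * K'), 2 / (Real.pi * φ) * (1 / (K' : ℝ) ^ 2) *
        (HS t n S f + HS t (-n) S f) := by
    refine Finset.sum_le_sum fun n hn => ?_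
    rw [Finset.mem_Ioc] at hn
    have hn0 : 0 < n := by omega
    refine mul_le_mul_of_nonneg_right ((cc_le_two hφ hn0).trans ?_)
      (add_nonneg (HS_nonneg _ _ _ _) (HS_nonneg _ _ _ _))
    refine mul_le_mul_of_nonneg_left ?_ (by positivity)
    have hn1 : (K' : ℝ) ≤ n := by exact_mod_cast hn.1.le
    exact one_div_le_one_div_of_le (by positivity) (by gcongr)
  refine e7.trans ?_
  rw [← Finset.mul_sum]
  calc 2 / (Real.pi * φ) * (1 / (K' : ℝ) ^ 2) *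
        ∑ n ∈ Ioc K' (2 * K'), (HS t n S f + HS t (-n) S f)
      ≤ 2 / (Real.pi * φ) * (1 / (K' : ℝ) ^ 2) * (K' * Real.pi ^ 2 * (F ^ 2 * PN t φ S)) :=
        mul_le_mul_of_nonneg_left (e6.trans e4) (by positivity)
    _ = 2 * Real.pi / (φ * K') * (F ^ 2 * PN t φ S) := by
        field_simp

end TAIM

open TAIM in
/-- Module TAI. -/
theorem specTAI (hE : SpecEXL) (hP : SpecPNC) : SpecTAI := by
  intro t Km M φ F S f ht hK hφ _ hπ hF hS hf
  have hp := Real.pi_pos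
  have hK1 : (0 : ℝ) < Km := by exact_mod_cast hK
  have hPn : 0 ≤ F ^ 2 * (PN t φ S : ℝ) := by positivity
  have hnn : ∀ n : ℕ, 0 ≤ cc φ n * (HS t n S f + HS t (-n) S f) := fun n =>
    mul_nonneg (cc_nonneg hφ n) (add_nonneg (HS_nonneg _ _ _ _) (HS_nonneg _ _ _ _))
  have key : ∀ J : ℕ, ∑ n ∈ Ioc Km (2 ^ J * Km), cc φ n * (HS t n S f + HS t (-n) S f) ≤
      4 * Real.pi / (φ * Km) * (1 - (1 / 2) ^ J) * (F ^ 2 * PN t φ S) := by
    intro J
    induction J with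
    | zero => simp
    | succ J ih =>
      have hpow : 1 ≤ 2 ^ J := Nat.one_le_two_pow
      have h1 : Km ≤ 2 ^ J * Km := Nat.le_mul_of_pos_left _ hpow
      have h2 : 2 ^ (J + 1) * Km = 2 * (2 ^ J * Km) := by ring
      have hb := block hE hP t (2 ^ J * Km) φ F S f ht (hK.trans h1) hφ (hπ.trans (by
        have : (Km : ℝ) ≤ ((2 ^ J * Km : ℕ) : ℝ) := by exact_mod_cast h1
        nlinarith)) hF hS hf
      rw [h2, ← Finset.sum_Ioc_consecutive _ h1 (by omega)]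
      have e : 2 * Real.pi / (φ * ((2 ^ J * Km : ℕ) : ℝ)) =
          4 * Real.pi / (φ * Km) * ((1 / 2) ^ J - (1 / 2) ^ (J + 1)) := by
        push_cast
        rw [pow_succ, one_div, inv_pow]
        field_simp
        ring
      rw [e] at hb
      calc _ ≤ 4 * Real.pi / (φ * Km) * (1 - (1 / 2) ^ J) * (F ^ 2 * PN t φ S) +
            4 * Real.pi / (φ * Km) * ((1 / 2) ^ J - (1 / 2) ^ (J + 1)) * (F ^ 2 * PN t φ S) :=
            add_le_add ih hb
        _ = _ := by ring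
  have hM : M ≤ 2 ^ M * Km := by
    have : M < 2 ^ M := Nat.lt_two_pow_self
    nlinarith
  calc ∑ n ∈ Ioc Km M, cc φ n * (HS t n S f + HS t (-n) S f)
      ≤ ∑ n ∈ Ioc Km (2 ^ M * Km), cc φ n * (HS t n S f + HS t (-n) S f) :=
        Finset.sum_le_sum_of_subset_of_nonneg (Finset.Ioc_subset_Ioc_right hM)
          fun n _ _ => hnn n
    _ ≤ 4 * Real.pi / (φ * Km) * (1 - (1 / 2) ^ M) * (F ^ 2 * PN t φ S) := key M
    _ ≤ 4 * Real.pi / (φ * Km) * 1 * (F ^ 2 * PN t φ S) := by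
        refine mul_le_mul_of_nonneg_right (mul_le_mul_of_nonneg_left ?_ (by positivity)) hPn
        have : (0 : ℝ) ≤ (1 / 2) ^ M := by positivity
        linarith
    _ = 4 * Real.pi / (φ * Km) * F ^ 2 * PN t φ S := by ring

end Pool.Agent.Lib.MP391708.XV
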