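import Pool.Agent.Lib.MP_391708_nt.X.SpecVAR
import Pool.Agent.Lib.MP_391708_nt.MR.Basic

/-!
# Theorem X of MP_391708_nt, part VAR, module TTB: typical, atypical, tail
-/

set_option autoImplicit false

namespace Pool.Agent.Lib.MP391708.XV

open Finset Filter Topology Pool.Agent.Lib.MP391708.MR
open scoped ComplexConjugate

namespace TTBM

theorem sum_IK (g : ℤ → ℝ) (K : ℕ) :
    ∑ k ∈ IK K, g k = g 0 + ∑ n ∈ Ioc 0 K, (g (n : ℤ) + g (-(n : ℤ))) := by
  induction K with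
  | zero => simp [IK]
  | succ K ih =>
    have h1 : IK (K + 1) = insert (((K + 1 : ℕ) : ℤ)) (insert (-((K + 1 : ℕ) : ℤ)) (IK K)) := by
      ext k
      simp only [IK, Finset.mem_insert, Finset.mem_Icc]
      push_cast
      omega
    have h2 : -((K + 1 : ℕ) : ℤ) ∉ IK K := by
      simp only [IK, Finset.mem_Icc]
      push_cast
      omega
    have h3 : ((K + 1 : ℕ) : ℤ) ∉ insert (-((K + 1 : ℕ) : ℤ)) (IK K) := by
      simp only [IK, Finset.mem_insert, Finset.mem_Icc]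
      push_cast
      omega
    rw [h1, Finset.sum_insert h3, Finset.sum_insert h2, ih,
      ← Finset.insert_Ioc_right_eq_Ioc_add_one (Nat.zero_le K), Finset.sum_insert (by simp)]
    ring

theorem HS_nonneg (t : ℕ) (k : ℤ) (S : Finset Gi) (f : Gi → ℂ) : 0 ≤ HS t k S f := by
  unfold HS
  positivity

open Classical in
/-- the atypical part for one `k` -/
noncomputable def at' (t : ℕ) (τ : ℝ) (P S' : Finset Gi) (h : Gi → ℂ) (k : ℤ) : ℝ :=
  1 / (ph t : ℝ) * ∑ χ ∈ chs t, if τ < ‖hat t χ k P (fun _ => 1)‖ then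
    ‖hat t χ k P (fun _ => 1)‖ ^ 2 * ‖hat t χ k S' h‖ ^ 2 else 0

theorem at_nonneg (t : ℕ) (τ : ℝ) (P S' : Finset Gi) (h : Gi → ℂ) (k : ℤ) :
    0 ≤ at' t τ P S' h k := by
  unfold at'
  refine mul_nonneg (by positivity) (Finset.sum_nonneg fun χ _ => ?_)
  split_ifs
  · positivity
  · exact le_rfl

theorem HS_le (hHTM : SpecHTM) (t : ℕ) (τ : ℝ) (P S' S : Finset Gi) (h : Gi → ℂ)
    (hS : ms P S' ⊆ S) (k : ℤ) :
    HS t k S (mc P S' h) ≤ τ ^ 2 * HS t k S' h + at' t τ P S' h k := by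
  unfold HS at'
  rw [← mul_assoc, mul_comm (τ ^ 2), mul_assoc, ← mul_add]
  refine mul_le_mul_of_nonneg_left ?_ (by positivity)
  rw [Finset.mul_sum, ← Finset.sum_add_distrib]
  refine Finset.sum_le_sum fun χ _ => ?_
  rw [hHTM.1 t χ k P S' S h hS, norm_mul, mul_pow]
  split_ifs with h1
  · have h2 : 0 ≤ τ ^ 2 * ‖hat t χ k S' h‖ ^ 2 := by positivity
    linarith
  · rw [add_zero]
    push Not at h1
    exact mul_le_mul_of_nonneg_right (pow_le_pow_left₀ (norm_nonneg _) h1 2) (by positivity)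

open Classical in
theorem sum_at (t Km : ℕ) (τ : ℝ) (P S' : Finset Gi) (h : Gi → ℂ) :
    ∑ k ∈ IK Km, at' t τ P S' h k = 1 / (ph t : ℝ) * ∑ q ∈ atyp t Km τ P,
      ‖hat t q.1 q.2 P (fun _ => 1)‖ ^ 2 * ‖hat t q.1 q.2 S' h‖ ^ 2 := by
  unfold at' atyp
  rw [← Finset.mul_sum, Finset.sum_comm, Finset.sum_filter, Finset.sum_product]

end TTBM

open TTBM in
/-- **TTB**: typical, atypical, tail. -/
theorem specTTB (hEXP : SpecEXP) (hTAI : SpecTAI) (hHTM : SpecHTM) : SpecTTB := by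
  intro t Km φ τ F P S' S h ht hKm hφ hφπ hφK hτ hF hS hS' hms hmc
  have hπ := Real.pi_pos
  set f := mc P S' h with hf
  have hE := hEXP t φ S f ht hφ hφπ hS
  have hE' := hEXP t φ S' h ht hφ hφπ hS'
  have hc0 : ∀ n, 0 ≤ cc φ n := cc_nonneg hφ
  have hc1 : ∀ n, cc φ n ≤ φ / (2 * Real.pi) := cc_le_one hφ
  set R : ℝ := 4 * Real.pi / (φ * Km) * F ^ 2 * PN t φ S with hR
  set Q : ℝ := ∑ k ∈ IK Km, at' t τ P S' h k with hQ
  have hQ0 : 0 ≤ Q := Finset.sum_nonneg fun k _ => at_nonneg _ _ _ _ _ _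
  set B : ℝ := τ ^ 2 * (TT t φ S' h - φ / (2 * Real.pi) * HS t 0 S' h) +
    φ / (2 * Real.pi) * (Q - at' t τ P S' h 0) + R with hB
  have hA0 : ∀ k, 0 ≤ HS t k S' h := fun k => HS_nonneg _ _ _ _
  have ha0 : ∀ k, 0 ≤ at' t τ P S' h k := fun k => at_nonneg _ _ _ _ _ _
  have hcz : cc φ 0 = 0 := by
    unfold cc
    simp
  -- the typical part
  have hlow : ∑ n ∈ Ioc 0 Km, cc φ n * (HS t n S f + HS t (-n) S f) ≤
      τ ^ 2 * (TT t φ S' h - φ / (2 * Real.pi) * HS t 0 S' h) +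
        φ / (2 * Real.pi) * (Q - at' t τ P S' h 0) := by
    have h1 : ∑ n ∈ Ioc 0 Km, cc φ n * (HS t n S' h + HS t (-n) S' h) ≤
        TT t φ S' h - φ / (2 * Real.pi) * HS t 0 S' h :=
      sum_le_hasSum _ (fun n _ => mul_nonneg (hc0 n) (add_nonneg (hA0 _) (hA0 _))) hE'
    have h2 : Q - at' t τ P S' h 0 =
        ∑ n ∈ Ioc 0 Km, (at' t τ P S' h (n : ℤ) + at' t τ P S' h (-(n : ℤ))) := by
      rw [hQ, sum_IK]
      ring
    have h3 : ∑ n ∈ Ioc 0 Km, cc φ n * (HS t n S f + HS t (-n) S f) ≤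
        ∑ n ∈ Ioc 0 Km, (τ ^ 2 * (cc φ n * (HS t n S' h + HS t (-n) S' h)) +
          φ / (2 * Real.pi) * (at' t τ P S' h (n : ℤ) + at' t τ P S' h (-(n : ℤ)))) := by
      refine Finset.sum_le_sum fun n _ => ?_
      have e1 := HS_le hHTM t τ P S' S h hms (n : ℤ)
      have e2 := HS_le hHTM t τ P S' S h hms (-(n : ℤ))
      have e3 : cc φ n * (HS t n S f + HS t (-n) S f) ≤ cc φ n *
          ((τ ^ 2 * HS t n S' h + at' t τ P S' h (n : ℤ)) +
            (τ ^ 2 * HS t (-n) S' h + at' t τ P S' h (-(n : ℤ)))) :=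
        mul_le_mul_of_nonneg_left (add_le_add e1 e2) (hc0 n)
      have e4 : cc φ n * (at' t τ P S' h (n : ℤ) + at' t τ P S' h (-(n : ℤ))) ≤
          φ / (2 * Real.pi) * (at' t τ P S' h (n : ℤ) + at' t τ P S' h (-(n : ℤ))) :=
        mul_le_mul_of_nonneg_right (hc1 n) (add_nonneg (ha0 _) (ha0 _))
      calc cc φ n * (HS t n S f + HS t (-n) S f) ≤ _ := e3
        _ = τ ^ 2 * (cc φ n * (HS t n S' h + HS t (-n) S' h)) +
          cc φ n * (at' t τ P S' h (n : ℤ) + at' t τ P S' h (-(n : ℤ))) := by ring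
        _ ≤ _ := by linarith
    rw [Finset.sum_add_distrib, ← Finset.mul_sum, ← Finset.mul_sum, ← h2] at h3
    refine h3.trans ?_
    have h4 := mul_le_mul_of_nonneg_left h1 (sq_nonneg τ)
    linarith
  have hmain : TT t φ S f - φ / (2 * Real.pi) * HS t 0 S f ≤ B := by
    refine le_of_tendsto hE.tendsto_sum_nat ?_
    filter_upwards [eventually_ge_atTop (Km + 1)] with M hM
    obtain ⟨M', rfl⟩ : ∃ M', M = M' + 1 := ⟨M - 1, by omega⟩
    have h1 : range (M' + 1) = insert 0 (Ioc 0 Km ∪ Ioc Km M') := by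
      ext x
      simp only [mem_range, mem_insert, mem_union, mem_Ioc]
      omega
    have h2 : (0 : ℕ) ∉ Ioc 0 Km ∪ Ioc Km M' := by
      simp only [mem_union, mem_Ioc]
      omega
    have h3 : Disjoint (Ioc 0 Km) (Ioc Km M') := by
      rw [Finset.disjoint_left]
      intro x hx hx'
      rw [mem_Ioc] at hx hx'
      omega
    rw [h1, Finset.sum_insert h2, Finset.sum_union h3, hcz, zero_mul, zero_add]
    have h4 := hTAI t Km M' φ F S f ht hKm hφ hφπ hφK hF hS hmc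
    linarith
  have h0 := HS_le hHTM t τ P S' S h hms 0
  have h5 : φ / (2 * Real.pi) * HS t 0 S f ≤
      φ / (2 * Real.pi) * (τ ^ 2 * HS t 0 S' h + at' t τ P S' h 0) :=
    mul_le_mul_of_nonneg_left h0 (by positivity)
  have h6 : TT t φ S f ≤ τ ^ 2 * TT t φ S' h + φ / (2 * Real.pi) * Q + R := by
    have : B + φ / (2 * Real.pi) * (τ ^ 2 * HS t 0 S' h + at' t τ P S' h 0) =
        τ ^ 2 * TT t φ S' h + φ / (2 * Real.pi) * Q + R := by
      rw [hB]
      ring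
    linarith
  have h7 : φ / (2 * Real.pi) * Q ≤ φ * Q := by
    refine mul_le_mul_of_nonneg_right ?_ hQ0
    rw [div_le_iff₀ (by positivity)]
    have h8 := Real.pi_gt_three
    nlinarith
  have h9 : φ * Q = φ / ph t * ∑ q ∈ atyp t Km τ P,
      ‖hat t q.1 q.2 P (fun _ => 1)‖ ^ 2 * ‖hat t q.1 q.2 S' h‖ ^ 2 := by
    rw [hQ, sum_at]
    ring
  rw [← h9]
  linarith

end Pool.Agent.Lib.MP391708.XV
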