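import Pool.Agent.Lib.MP_391708_nt.X.SpecVAR
import Pool.Agent.Lib.MP_391708_nt.MR.Basic

/-!
# Theorem X of MP_391708_nt, part VAR, module USM: sums over `u` (helper67)
-/

set_option autoImplicit false

namespace Pool.Agent.Lib.MP391708.XV

open Finset Filter Topology Pool.Agent.Lib.MP391708.MR
open scoped ComplexConjugate

namespace USMM

/-- the maximum norm -/
def mx (u : Gi) : ℕ := max u.re.natAbs u.im.natAbs

lemma mx_pos {u : Gi} (h : u ≠ 0) : 1 ≤ mx u := by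
  by_contra h'
  apply h
  have h1 : u.re.natAbs = 0 ∧ u.im.natAbs = 0 := by
    unfold mx at h'
    omega
  apply Zsqrtd.ext
  · exact Int.natAbs_eq_zero.1 h1.1
  · exact Int.natAbs_eq_zero.1 h1.2

lemma mx_sq_le (u : Gi) : (mx u : ℝ) ^ 2 ≤ nm u := by
  rw [nm_castR]
  have h1 : ((u.re.natAbs : ℕ) : ℝ) ^ 2 = (u.re : ℝ) ^ 2 := by
    rw [Nat.cast_natAbs, Int.cast_abs, sq_abs]
  have h2 : ((u.im.natAbs : ℕ) : ℝ) ^ 2 = (u.im : ℝ) ^ 2 := by
    rw [Nat.cast_natAbs, Int.cast_abs, sq_abs]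
  unfold mx
  rcases le_total u.re.natAbs u.im.natAbs with h | h
  · rw [max_eq_right h, h2]
    have := sq_nonneg (u.re : ℝ)
    linarith
  · rw [max_eq_left h, h1]
    have := sq_nonneg (u.im : ℝ)
    linarith

lemma mx_le_sqrt (u : Gi) : (mx u : ℝ) ≤ Real.sqrt (nm u) :=
  Real.le_sqrt_of_sq_le (mx_sq_le u)

/-- the points of maximum norm `n` -/
lemma card_mx (n : ℕ) (hn : 1 ≤ n) (s : Finset Gi) (hs : ∀ u ∈ s, mx u = n) :
    (s.card : ℝ) ≤ 12 * n := by
  classical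
  have h1 : s ⊆ ((({(n : ℤ), -(n : ℤ)} : Finset ℤ) ×ˢ (Icc (-(n : ℤ)) n)) ∪
      ((Icc (-(n : ℤ)) n) ×ˢ ({(n : ℤ), -(n : ℤ)} : Finset ℤ))).image
      (fun p => (⟨p.1, p.2⟩ : Gi)) := by
    intro u hu
    have h2 := hs u hu
    unfold mx at h2
    rw [mem_image]
    refine ⟨(u.re, u.im), ?_, rfl⟩
    simp only [mem_union, mem_product, mem_insert, mem_singleton, mem_Icc]
    omega
  have h2 := (card_le_card h1).trans (card_image_le.trans (card_union_le _ _))
  have h3 : (({(n : ℤ), -(n : ℤ)} : Finset ℤ)).card ≤ 2 := card_le_two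
  rw [card_product, card_product, Int.card_Icc] at h2
  have h4 : ((n : ℤ) + 1 - -(n : ℤ)).toNat = 2 * n + 1 := by omega
  rw [h4] at h2
  have h5 : s.card ≤ 12 * n := by nlinarith
  calc (s.card : ℝ) ≤ ((12 * n : ℕ) : ℝ) := by exact_mod_cast h5
    _ = 12 * n := by push_cast; ring

lemma first (X : ℝ) (hX : 1 ≤ X) :
    ∑ u ∈ disc X, 1 / Real.sqrt (nm u) ≤ 12 * Real.sqrt X := by
  have h0 : 0 ≤ Real.sqrt X := Real.sqrt_nonneg X
  have hmap : ∀ u ∈ disc X, mx u ∈ Icc 1 ⌊Real.sqrt X⌋₊ := by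
    intro u hu
    rw [mem_disc] at hu
    rw [mem_Icc]
    refine ⟨mx_pos hu.1, Nat.le_floor ?_⟩
    exact (mx_le_sqrt u).trans (Real.sqrt_le_sqrt hu.2)
  calc ∑ u ∈ disc X, 1 / Real.sqrt (nm u) ≤ ∑ u ∈ disc X, 1 / (mx u : ℝ) := by
        refine sum_le_sum fun u hu => ?_
        rw [mem_disc] at hu
        have h1 : (1 : ℝ) ≤ mx u := by exact_mod_cast mx_pos hu.1
        exact one_div_le_one_div_of_le (by linarith) (mx_le_sqrt u)
    _ = ∑ n ∈ Icc 1 ⌊Real.sqrt X⌋₊, ∑ u ∈ (disc X).filter (fun u => mx u = n),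
          1 / (mx u : ℝ) := (sum_fiberwise_of_maps_to hmap _).symm
    _ ≤ ∑ n ∈ Icc 1 ⌊Real.sqrt X⌋₊, 12 := by
        refine sum_le_sum fun n hn => ?_
        rw [mem_Icc] at hn
        have hn0 : (0 : ℝ) < n := by exact_mod_cast hn.1
        have h1 : ∑ u ∈ (disc X).filter (fun u => mx u = n), 1 / (mx u : ℝ) =
            ((disc X).filter (fun u => mx u = n)).card * (1 / (n : ℝ)) := by
          rw [← nsmul_eq_mul, ← sum_const]
          refine sum_congr rfl fun u hu => ?_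
          rw [(mem_filter.1 hu).2]
        rw [h1]
        have h2 := card_mx n hn.1 ((disc X).filter (fun u => mx u = n))
          (fun u hu => (mem_filter.1 hu).2)
        calc _ ≤ (12 * (n : ℝ)) * (1 / n) := by gcongr
          _ = 12 := by field_simp
    _ = 12 * (⌊Real.sqrt X⌋₊ : ℝ) := by
        rw [sum_const, Nat.card_Icc, nsmul_eq_mul, Nat.add_sub_cancel, mul_comm]
    _ ≤ 12 * Real.sqrt X := by
        have := Nat.floor_le h0
        linarith

/-- `u` divided by its content -/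
def red (u : Gi) : Gi := ⟨u.re / (cont u : ℤ), u.im / (cont u : ℤ)⟩

lemma cont_pos {u : Gi} (h : u ≠ 0) : 1 ≤ cont u := by
  unfold cont
  rw [Nat.one_le_iff_ne_zero, Ne, Int.gcd_eq_zero_iff]
  rintro ⟨h1, h2⟩
  exact h (Zsqrtd.ext h1 h2)

lemma red_re (u : Gi) : u.re = (cont u : ℤ) * (red u).re :=
  (Int.mul_ediv_cancel' (Int.gcd_dvd_left ..)).symm

lemma red_im (u : Gi) : u.im = (cont u : ℤ) * (red u).im :=
  (Int.mul_ediv_cancel' (Int.gcd_dvd_right ..)).symm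

lemma red_nm (u : Gi) : (nm u : ℝ) = (cont u : ℝ) ^ 2 * nm (red u) := by
  rw [nm_castR, nm_castR]
  have h1 : (u.re : ℝ) = (cont u : ℝ) * ((red u).re : ℝ) := by exact_mod_cast red_re u
  have h2 : (u.im : ℝ) = (cont u : ℝ) * ((red u).im : ℝ) := by exact_mod_cast red_im u
  rw [h1, h2]
  ring

lemma red_ne {u : Gi} (h : u ≠ 0) : red u ≠ 0 := by
  intro h'
  apply h
  apply Zsqrtd.ext
  · rw [red_re, h']
    simp
  · rw [red_im, h']
    simp

lemma cont_le_sqrt {u : Gi} (h : u ≠ 0) : (cont u : ℝ) ≤ Real.sqrt (nm u) := by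
  apply Real.le_sqrt_of_sq_le
  rw [red_nm]
  have h1 := one_le_nm (red_ne h)
  nlinarith [sq_nonneg (cont u : ℝ)]

lemma fiber (X : ℝ) (hX : 1 ≤ X) (g : ℕ) (hg : 1 ≤ g) (hgX : (g : ℝ) ≤ Real.sqrt X) :
    ∑ u ∈ (disc X).filter (fun u => cont u = g), (cont u : ℝ) / Real.sqrt (nm u) ≤
      12 * Real.sqrt X * (1 / g) := by
  classical
  have hg0 : (0 : ℝ) < g := by exact_mod_cast hg
  have hX0 : 0 ≤ X := by linarith
  have hinj : Set.InjOn red ((disc X).filter (fun u => cont u = g) : Finset Gi) := by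
    intro u hu v hv huv
    have h1 : cont u = g := (mem_filter.1 (mem_coe.1 hu)).2
    have h2 : cont v = g := (mem_filter.1 (mem_coe.1 hv)).2
    apply Zsqrtd.ext
    · rw [red_re u, red_re v, h1, h2, huv]
    · rw [red_im u, red_im v, h1, h2, huv]
  have h1 : ∑ u ∈ (disc X).filter (fun u => cont u = g), (cont u : ℝ) / Real.sqrt (nm u) =
      ∑ v ∈ ((disc X).filter (fun u => cont u = g)).image red, 1 / Real.sqrt (nm v) := by
    rw [sum_image hinj]
    refine sum_congr rfl fun u hu => ?_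
    have h1 : cont u = g := (mem_filter.1 hu).2
    rw [red_nm u, h1, Real.sqrt_mul (sq_nonneg _), Real.sqrt_sq hg0.le]
    have h3 := nm_posR (red_ne (mem_disc.1 (mem_filter.1 hu).1).1)
    have h4 : 0 < Real.sqrt (nm (red u)) := Real.sqrt_pos.2 h3
    field_simp
  have hsub : ((disc X).filter (fun u => cont u = g)).image red ⊆ disc (X / (g : ℝ) ^ 2) := by
    intro v hv
    obtain ⟨u, hu, rfl⟩ := mem_image.1 hv
    obtain ⟨hu1, hu2⟩ := mem_filter.1 hu
    rw [mem_disc] at hu1 ⊢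
    refine ⟨red_ne hu1.1, ?_⟩
    rw [le_div_iff₀ (by positivity), mul_comm, ← hu2, ← red_nm]
    exact hu1.2
  have hXg : 1 ≤ X / (g : ℝ) ^ 2 := by
    rw [le_div_iff₀ (by positivity), one_mul]
    calc (g : ℝ) ^ 2 ≤ Real.sqrt X ^ 2 := by gcongr
      _ = X := Real.sq_sqrt hX0
  rw [h1]
  calc _ ≤ ∑ v ∈ disc (X / (g : ℝ) ^ 2), 1 / Real.sqrt (nm v) :=
        sum_le_sum_of_subset_of_nonneg hsub fun v _ _ => by positivity
    _ ≤ 12 * Real.sqrt (X / (g : ℝ) ^ 2) := first _ hXg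
    _ = 12 * Real.sqrt X * (1 / g) := by
        rw [Real.sqrt_div hX0, Real.sqrt_sq hg0.le]
        ring

lemma second (X : ℝ) (hX : 1 ≤ X) :
    ∑ u ∈ disc X, (cont u : ℝ) / Real.sqrt (nm u) ≤ 12 * Real.sqrt X * (1 + Real.log X) := by
  have hX0 : 0 ≤ X := by linarith
  have h0 : 0 ≤ Real.sqrt X := Real.sqrt_nonneg X
  have h1 : 1 ≤ Real.sqrt X := Real.one_le_sqrt.2 hX
  have hmap : ∀ u ∈ disc X, cont u ∈ Icc 1 ⌊Real.sqrt X⌋₊ := by
    intro u hu
    rw [mem_disc] at hu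
    rw [mem_Icc]
    refine ⟨cont_pos hu.1, Nat.le_floor ?_⟩
    exact (cont_le_sqrt hu.1).trans (Real.sqrt_le_sqrt hu.2)
  have hR : 1 ≤ ⌊Real.sqrt X⌋₊ := Nat.le_floor (by simpa using h1)
  have hfl := Nat.floor_le h0
  calc ∑ u ∈ disc X, (cont u : ℝ) / Real.sqrt (nm u) =
        ∑ g ∈ Icc 1 ⌊Real.sqrt X⌋₊, ∑ u ∈ (disc X).filter (fun u => cont u = g),
          (cont u : ℝ) / Real.sqrt (nm u) := (sum_fiberwise_of_maps_to hmap _).symm
    _ ≤ ∑ g ∈ Icc 1 ⌊Real.sqrt X⌋₊, 12 * Real.sqrt X * (1 / (g : ℝ)) := by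
        refine sum_le_sum fun g hg => ?_
        rw [mem_Icc] at hg
        refine fiber X hX g hg.1 ?_
        calc (g : ℝ) ≤ (⌊Real.sqrt X⌋₊ : ℝ) := by exact_mod_cast hg.2
          _ ≤ Real.sqrt X := hfl
    _ = 12 * Real.sqrt X * (harmonic ⌊Real.sqrt X⌋₊ : ℝ) := by
        rw [← mul_sum, harmonic_eq_sum_Icc, Rat.cast_sum]
        congr 1
        refine sum_congr rfl fun g _ => ?_
        rw [Rat.cast_inv, Rat.cast_natCast, one_div]
    _ ≤ 12 * Real.sqrt X * (1 + Real.log X) := by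
        have h2 := harmonic_le_one_add_log ⌊Real.sqrt X⌋₊
        have h3 : Real.log (⌊Real.sqrt X⌋₊ : ℝ) ≤ Real.log X := by
          apply Real.log_le_log
          · exact_mod_cast hR
          · refine hfl.trans ?_
            rw [Real.sqrt_le_left (by linarith)]
            nlinarith
        have h4 : (harmonic ⌊Real.sqrt X⌋₊ : ℝ) ≤ 1 + Real.log X := by linarith
        gcongr

end USMM

open USMM in
theorem specUSM : SpecUSM := by
  refine ⟨12, by norm_num, fun X hX => ⟨first X hX, second X hX, ?_⟩⟩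
  have h1 := card_disc_le (x := X) (by linarith)
  linarith

end Pool.Agent.Lib.MP391708.XV
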