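import Pool.Agent.Lib.MP_391708_nt.X.SpecVAR
import Pool.Agent.Lib.MP_391708_nt.MR.Basic

/-!
# Module VAR of part VAR of Theorem X: the variance inequality
-/

set_option autoImplicit false

namespace Pool.Agent.Lib.MP391708.XV

open Finset Filter Topology Pool.Agent.Lib.MP391708.MR
open scoped ComplexConjugate

namespace VARM

/-- the quadruple sum is a line sum -/
lemma ls_eq (I J : Finset ℕ) (P S : ℕ → Finset Gi) (h : ℕ → Gi → ℂ) (z1 : Gi) (b : ℤ) :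
    ls (SU I J P S) (fU I J P S h) z1 b = ∑ i ∈ I, ∑ j ∈ J, ∑ p ∈ P i,
      ∑ z ∈ (S j).filter (fun z => (z1 * (p * z)).im = b ∧ 0 < (z1 * (p * z)).re), h j z := by
  classical
  unfold ls fU
  rw [Finset.sum_comm]
  refine Finset.sum_congr rfl fun i hi => ?_
  rw [Finset.sum_comm]
  refine Finset.sum_congr rfl fun j hj => ?_
  have e1 : ∀ z : Gi, mc (P i) (S j) (h j) z =
      ∑ q ∈ (P i ×ˢ S j).filter (fun q => q.1 * q.2 = z), h j q.2 := by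
    intro z
    unfold mc
    refine Finset.sum_congr ?_ fun _ _ => rfl
    ext q
    simp
  rw [Finset.sum_congr rfl fun z _ => e1 z,
    Finset.sum_fiberwise_eq_sum_filter, Finset.sum_filter, Finset.sum_product]
  refine Finset.sum_congr rfl fun p hp => ?_
  rw [Finset.sum_filter]
  refine Finset.sum_congr rfl fun z hz => ?_
  have hm : p * z ∈ SU I J P S := by
    unfold SU
    simp only [Finset.mem_biUnion]
    refine ⟨i, hi, j, hj, ?_⟩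
    unfold ms
    simp only [Finset.mem_image, Finset.mem_product]
    exact ⟨(p, z), ⟨hp, hz⟩, rfl⟩
  simp [Finset.mem_filter, hm]

/-- elementary sums -/
lemma sum_bound (c0 c1 c2 Y : ℝ) (h0 : 0 ≤ c0) (h1 : 0 ≤ c1) (h2 : 0 ≤ c2) (T0 T1 : ℕ)
    (hT0 : 1 ≤ T0) (hT : T0 ≤ T1) (hY : (T1 : ℝ) ≤ Y) :
    ∑ t ∈ Ioc T0 T1, (c0 + c1 * (1 / (t : ℝ)) + c2 * (1 / (t : ℝ) ^ 2)) ≤
      c0 * T1 + c1 * (1 + Real.log Y) + c2 * (1 / T0) := by
  have hT1 : (1 : ℝ) ≤ T1 := by exact_mod_cast hT0.trans hT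
  have s2 : ∑ t ∈ Ioc T0 T1, 1 / (t : ℝ) ^ 2 ≤ (1 / T0 : ℝ) := by
    have := sum_Ioc_inv_sq_le_sub (α := ℝ) (k := T0) (n := T1) (by omega) hT
    have h3 : (0 : ℝ) ≤ ((T1 : ℝ))⁻¹ := by positivity
    calc ∑ t ∈ Ioc T0 T1, 1 / (t : ℝ) ^ 2 = ∑ t ∈ Ioc T0 T1, ((t : ℝ) ^ 2)⁻¹ :=
          Finset.sum_congr rfl fun t _ => by rw [one_div]
      _ ≤ (T0 : ℝ)⁻¹ - (T1 : ℝ)⁻¹ := this
      _ ≤ 1 / T0 := by rw [one_div]; linarith
  have s1 : ∑ t ∈ Ioc T0 T1, 1 / (t : ℝ) ≤ 1 + Real.log Y := by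
    have hh := harmonic_le_one_add_log T1
    rw [harmonic_eq_sum_Icc] at hh
    push_cast at hh
    calc ∑ t ∈ Ioc T0 T1, 1 / (t : ℝ) ≤ ∑ t ∈ Icc 1 T1, 1 / (t : ℝ) := by
          refine Finset.sum_le_sum_of_subset_of_nonneg ?_ fun t _ _ => by positivity
          intro t ht
          simp only [Finset.mem_Ioc, Finset.mem_Icc] at ht ⊢
          omega
      _ = ∑ t ∈ Icc 1 T1, ((t : ℝ))⁻¹ := Finset.sum_congr rfl fun t _ => by rw [one_div]
      _ ≤ 1 + Real.log T1 := hh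
      _ ≤ 1 + Real.log Y := by
          have := Real.log_le_log (by linarith) hY
          linarith
  have hc : ((Ioc T0 T1).card : ℝ) ≤ T1 := by
    rw [Nat.card_Ioc]
    exact_mod_cast Nat.sub_le _ _
  rw [Finset.sum_add_distrib, Finset.sum_add_distrib, Finset.sum_const, nsmul_eq_mul,
    ← Finset.mul_sum, ← Finset.mul_sum]
  have g0 := mul_le_mul_of_nonneg_left hc h0
  have g1 := mul_le_mul_of_nonneg_left s1 h1
  have g2 := mul_le_mul_of_nonneg_left s2 h2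
  linarith

/-- the arithmetic of the main part -/
lemma arith (K Y B η w M τ G Km ell sK T0 T1 : ℝ) (hK : 1 ≤ K) (hY : 1 ≤ Y) (hB : 1 ≤ B)
    (hη : 0 ≤ η) (hw : 2 ≤ w) (hM : 1 ≤ M) (hKm : 1 ≤ Km) (hell : 1 ≤ ell) (hsK : 0 ≤ sK)
    (hT0 : 1 ≤ T0) (hT1 : T0 ≤ T1) (hTB : T1 ≤ B) (hKs : K = Y * sK ^ 2) (hTs : T1 * sK ≤ 4) :
    ((η * (Y / (T0 ^ 2 * K) + 1) + 17 * (B ^ 2 / (K * Y))) * Y +
        (B * (Y * sK) / w + B * K + Y * sK) + G ^ 2 * (τ ^ 2 * M)) * T1 +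
      ((η * (Y / (T0 ^ 2 * K) + 1) + 17 * (B ^ 2 / (K * Y))) * (B * Y) +
        G ^ 2 * (τ ^ 2 * (B * M ^ 2 / Y) + Y / (B * Km) * Y)) * ell +
      G ^ 2 * (Y / (B * Km) * (B * Y)) * (1 / T0) ≤
    34 * (B * Y * ell) * (T0 * sK + η * (Y / (T0 ^ 2 * K) + 1) + B ^ 2 / (K * Y) + 1 / w +
          1 / B + G ^ 2 * (τ ^ 2 * (T1 * M / (B * Y) + (M / Y) ^ 2) +
            Y / (B * Km) * (1 / B + 1 / T0))) := by
  have hT0' : 0 < T0 := by linarith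
  have hT1' : 0 < T1 := by linarith
  have hB' : 0 < B := by linarith
  have hY' : 0 < Y := by linarith
  have hK' : 0 < K := by linarith
  have hw' : 0 < w := by linarith
  have hM' : 0 < M := by linarith
  have hKm' : 0 < Km := by linarith
  set e2 := η * (Y / (T0 ^ 2 * K) + 1) with he2
  set e3 := B ^ 2 / (K * Y) with he3
  have p2 : 0 ≤ e2 := by positivity
  have p3 : 0 ≤ e3 := by positivity
  have pBY : 0 < B * Y := by positivity
  -- part A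
  have a1 : (e2 + 17 * e3) * Y * T1 ≤ (e2 + 17 * e3) * (B * Y) * ell := by
    have : Y * T1 ≤ B * Y * ell := by
      calc Y * T1 ≤ Y * B := by gcongr
        _ = B * Y * 1 := by ring
        _ ≤ B * Y * ell := by gcongr
    calc (e2 + 17 * e3) * Y * T1 = (e2 + 17 * e3) * (Y * T1) := by ring
      _ ≤ (e2 + 17 * e3) * (B * Y * ell) := by gcongr
      _ = (e2 + 17 * e3) * (B * Y) * ell := by ring
  -- part N
  have n1 : B * (Y * sK) / w * T1 ≤ 4 * (B * Y * ell) * (1 / w) := by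
    calc B * (Y * sK) / w * T1 = (T1 * sK) * (B * Y * 1) * (1 / w) := by ring
      _ ≤ 4 * (B * Y * ell) * (1 / w) := by gcongr
  have n2 : B * K * T1 ≤ 4 * (B * Y * ell) * (T0 * sK) := by
    calc B * K * T1 = (T1 * sK) * (B * Y * 1) * (1 * sK) := by rw [hKs]; ring
      _ ≤ 4 * (B * Y * ell) * (T0 * sK) := by gcongr
  have n3 : Y * sK * T1 ≤ 4 * (B * Y * ell) * (1 / B) := by
    calc Y * sK * T1 = (T1 * sK) * (B * Y * 1) * (1 / B) := by field_simp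
      _ ≤ 4 * (B * Y * ell) * (1 / B) := by gcongr
  -- part tau
  have t1 : G ^ 2 * (τ ^ 2 * M) * T1 ≤ (B * Y * ell) * (G ^ 2 * (τ ^ 2 * (T1 * M / (B * Y)))) := by
    calc G ^ 2 * (τ ^ 2 * M) * T1 = (B * Y * 1) * (G ^ 2 * (τ ^ 2 * (T1 * M / (B * Y)))) := by
          field_simp
      _ ≤ (B * Y * ell) * (G ^ 2 * (τ ^ 2 * (T1 * M / (B * Y)))) := by gcongr
  have t2 : G ^ 2 * (τ ^ 2 * (B * M ^ 2 / Y)) * ell =
      (B * Y * ell) * (G ^ 2 * (τ ^ 2 * (M / Y) ^ 2)) := by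
    field_simp
  have t3 : G ^ 2 * (Y / (B * Km) * Y) * ell =
      (B * Y * ell) * (G ^ 2 * (Y / (B * Km) * (1 / B))) := by
    field_simp
  have t4 : G ^ 2 * (Y / (B * Km) * (B * Y)) * (1 / T0) ≤
      (B * Y * ell) * (G ^ 2 * (Y / (B * Km) * (1 / T0))) := by
    calc G ^ 2 * (Y / (B * Km) * (B * Y)) * (1 / T0) =
          (B * Y * 1) * (G ^ 2 * (Y / (B * Km) * (1 / T0))) := by ring
      _ ≤ (B * Y * ell) * (G ^ 2 * (Y / (B * Km) * (1 / T0))) := by gcongr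
  have q1 : 0 ≤ (B * Y * ell) * (T0 * sK) := by positivity
  have q2 : 0 ≤ (B * Y * ell) * e2 := by positivity
  have q3 : 0 ≤ (B * Y * ell) * e3 := by positivity
  have q4 : 0 ≤ (B * Y * ell) * (1 / w) := by positivity
  have q5 : 0 ≤ (B * Y * ell) * (1 / B) := by positivity
  have q6 : 0 ≤ (B * Y * ell) * (G ^ 2 * (τ ^ 2 * (T1 * M / (B * Y)))) := by positivity
  have q7 : 0 ≤ (B * Y * ell) * (G ^ 2 * (τ ^ 2 * (M / Y) ^ 2)) := by positivity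
  have q8 : 0 ≤ (B * Y * ell) * (G ^ 2 * (Y / (B * Km) * (1 / B))) := by positivity
  have q9 : 0 ≤ (B * Y * ell) * (G ^ 2 * (Y / (B * Km) * (1 / T0))) := by positivity
  nlinarith [a1, n1, n2, n3, t1, t2, t3, t4, q1, q2, q3, q4, q5, q6, q7, q8, q9]

/-- the summation over `t` and the assembly, in real numbers -/
lemma final (κ K Y B η w M F τ G CP CF ell sK pc F' : ℝ) (T0 T1 Km : ℕ) (VV X R : ℕ → ℝ)
    (hκ : 1 ≤ κ) (hCP : 0 < CP) (hCF : 0 < CF) (hK : 1 ≤ K) (hY : 1 ≤ Y) (hB : 1 ≤ B)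
    (hη : 0 ≤ η) (hw : 2 ≤ w) (hM : 1 ≤ M) (hKm' : 1 ≤ Km) (hell1 : 1 ≤ ell)
    (hell : ell = 1 + Real.log Y) (hsK0 : 0 ≤ sK) (hT0' : 1 ≤ T0) (hT01' : T0 ≤ T1)
    (hTB : (T1 : ℝ) ≤ B) (hT1Y : (T1 : ℝ) ≤ Y) (hT1 : (T1 : ℝ) ^ 2 * K ≤ 16 * Y)
    (hKs : K = Y * sK ^ 2) (hTs : (T1 : ℝ) * sK ≤ 4) (hG0 : 0 ≤ G) (hF' : F' = F * ell)
    (hX0 : ∀ t, 0 ≤ X t) (hR0 : ∀ t, 0 ≤ R t) (hF0 : 0 ≤ F) (hpc0 : 0 ≤ pc)
    (hpcb : pc ≤ 5 * Real.sqrt (2 * κ) * CP * (B * Y * sK) * ell)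
    (hsplit : ∑ t ∈ Icc 1 T1, VV t ≤
      (T0 : ℝ) * (2 * F' ^ 2 * pc) + ∑ t ∈ Ioc T0 T1, |VV t|)
    (hall : ∀ t : ℕ, T0 < t → t ≤ T1 → |VV t| ≤
      CF * F ^ 2 * ell ^ 4 *
        ((η * (Y / ((t : ℝ) ^ 2 * K) + 1) + (t * B / Y) ^ 2 + B ^ 2 / (K * Y)) *
            (Y + B * Y / t) +
          (B * (Y * sK) / w + B * K + Y * sK) +
          G ^ 2 * (τ ^ 2 * (M + B * M ^ 2 / (Y * t)) +
            Y / (t * B * Km) * (Y + B * Y / t))) +
      CF * G * (B / Y) * R t * X t) :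
    2 * F' ^ 2 * pc + 2 * ∑ t ∈ Icc 1 T1, VV t ≤
      (30 * Real.sqrt (2 * κ) * CP + 68 * CF) * F ^ 2 * ell ^ 5 * (B * Y) *
        (T0 * sK + η * (Y / ((T0 : ℝ) ^ 2 * K) + 1) + B ^ 2 / (K * Y) + 1 / w +
          1 / B + G ^ 2 * (τ ^ 2 * (T1 * M / (B * Y) + (M / Y) ^ 2) +
            Y / (B * Km) * (1 / B + 1 / T0))) +
      (30 * Real.sqrt (2 * κ) * CP + 68 * CF) * G * (B / Y) *
        ∑ t ∈ Ioc T0 T1, R t * X t := by
  have hY' : 0 < Y := by linarith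
  have hK' : 0 < K := by linarith
  have hB' : 0 < B := by linarith
  have hT0 : (1 : ℝ) ≤ T0 := by exact_mod_cast hT0'
  have hT01 : (T0 : ℝ) ≤ T1 := by exact_mod_cast hT01'
  have hKm : (1 : ℝ) ≤ Km := by exact_mod_cast hKm'
  have har := arith K Y B η w M τ G Km ell sK T0 T1 hK hY hB hη hw hM hKm hell1 hsK0 hT0 hT01
    hTB hKs hTs
  set A : ℝ := η * (Y / ((T0 : ℝ) ^ 2 * K) + 1) + 17 * (B ^ 2 / (K * Y)) with hA
  have hA0 : 0 ≤ A := by positivity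
  set c0 : ℝ := A * Y + (B * (Y * sK) / w + B * K + Y * sK) + G ^ 2 * (τ ^ 2 * M) with hc0
  set c1 : ℝ := A * (B * Y) + G ^ 2 * (τ ^ 2 * (B * M ^ 2 / Y) + Y / (B * Km) * Y) with hc1
  set c2 : ℝ := G ^ 2 * (Y / (B * Km) * (B * Y)) with hc2
  have hc00 : 0 ≤ c0 := by positivity
  have hc10 : 0 ≤ c1 := by positivity
  have hc20 : 0 ≤ c2 := by positivity
  have hlarge : ∀ t ∈ Ioc T0 T1, |VV t| ≤
      CF * F ^ 2 * ell ^ 4 * (c0 + c1 * (1 / (t : ℝ)) + c2 * (1 / (t : ℝ) ^ 2)) +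
        CF * G * (B / Y) * (R t * X t) := by
    intro t ht
    rw [Finset.mem_Ioc] at ht
    refine (hall t ht.1 ht.2).trans ?_
    have htr : (T0 : ℝ) ≤ t := by exact_mod_cast ht.1.le
    have htr1 : (t : ℝ) ≤ T1 := by exact_mod_cast ht.2
    have ht0 : (0 : ℝ) < t := by linarith
    have hT00 : (0 : ℝ) < T0 := by linarith
    have e1 : CF * G * (B / Y) * R t * X t = CF * G * (B / Y) * (R t * X t) := by ring
    rw [e1]
    refine add_le_add ?_ le_rfl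
    refine mul_le_mul_of_nonneg_left ?_ (by positivity)
    have a1 : η * (Y / ((t : ℝ) ^ 2 * K) + 1) + (t * B / Y) ^ 2 + B ^ 2 / (K * Y) ≤ A := by
      have b1 : Y / ((t : ℝ) ^ 2 * K) ≤ Y / ((T0 : ℝ) ^ 2 * K) := by gcongr
      have b2 : η * (Y / ((t : ℝ) ^ 2 * K) + 1) ≤ η * (Y / ((T0 : ℝ) ^ 2 * K) + 1) := by gcongr
      have b3 : (t * B / Y) ^ 2 ≤ 16 * (B ^ 2 / (K * Y)) := by
        have b4 : (t : ℝ) ^ 2 * K ≤ 16 * Y := by
          refine le_trans ?_ hT1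
          gcongr
        calc (t * B / Y) ^ 2 = ((t : ℝ) ^ 2 * K) * (B ^ 2 / (K * Y ^ 2)) := by field_simp
          _ ≤ (16 * Y) * (B ^ 2 / (K * Y ^ 2)) := by gcongr
          _ = 16 * (B ^ 2 / (K * Y)) := by field_simp
      rw [hA]
      linarith
    have a2 : 0 ≤ Y + B * Y / t := by positivity
    have a3 := mul_le_mul_of_nonneg_right a1 a2
    have e2 : c0 + c1 * (1 / (t : ℝ)) + c2 * (1 / (t : ℝ) ^ 2) =
        A * (Y + B * Y / t) + (B * (Y * sK) / w + B * K + Y * sK) +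
          G ^ 2 * (τ ^ 2 * (M + B * M ^ 2 / (Y * t)) + Y / (t * B * Km) * (Y + B * Y / t)) := by
      rw [hc0, hc1, hc2]
      clear_value A
      field_simp
      ring
    rw [e2]
    linarith
  clear_value A c0 c1 c2
  have hsum : ∑ t ∈ Ioc T0 T1, |VV t| ≤
      CF * F ^ 2 * ell ^ 4 * (c0 * T1 + c1 * ell + c2 * (1 / T0)) +
        CF * G * (B / Y) * ∑ t ∈ Ioc T0 T1, R t * X t := by
    refine (Finset.sum_le_sum hlarge).trans ?_
    rw [Finset.sum_add_distrib, ← Finset.mul_sum, ← Finset.mul_sum]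
    refine add_le_add ?_ le_rfl
    refine mul_le_mul_of_nonneg_left ?_ (by positivity)
    rw [hell]
    exact sum_bound c0 c1 c2 Y hc00 hc10 hc20 T0 T1 hT0' hT01' hT1Y
  set E : ℝ := T0 * sK + η * (Y / ((T0 : ℝ) ^ 2 * K) + 1) + B ^ 2 / (K * Y) + 1 / w +
          1 / B + G ^ 2 * (τ ^ 2 * (T1 * M / (B * Y) + (M / Y) ^ 2) +
            Y / (B * Km) * (1 / B + 1 / T0)) with hE
  have hE1 : T0 * sK ≤ E := by
    rw [hE]
    have : 0 ≤ η * (Y / ((T0 : ℝ) ^ 2 * K) + 1) + B ^ 2 / (K * Y) + 1 / w +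
          1 / B + G ^ 2 * (τ ^ 2 * (T1 * M / (B * Y) + (M / Y) ^ 2) +
            Y / (B * Km) * (1 / B + 1 / T0)) := by positivity
    linarith
  have hE0 : 0 ≤ E := le_trans (by positivity) hE1
  clear_value E
  have hXs : 0 ≤ ∑ t ∈ Ioc T0 T1, R t * X t :=
    Finset.sum_nonneg fun t _ => mul_nonneg (hR0 t) (hX0 t)
  set Sg := ∑ t ∈ Ioc T0 T1, R t * X t with hSg
  clear_value Sg
  -- assembly
  have r1 : 2 * F' ^ 2 * pc + 2 * ((T0 : ℝ) * (2 * F' ^ 2 * pc)) ≤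
      30 * Real.sqrt (2 * κ) * CP * F ^ 2 * ell ^ 5 * (B * Y) * E := by
    calc 2 * F' ^ 2 * pc + 2 * ((T0 : ℝ) * (2 * F' ^ 2 * pc)) = (2 + 4 * T0) * F' ^ 2 * pc := by ring
      _ ≤ (2 * T0 + 4 * T0) * F' ^ 2 * (5 * Real.sqrt (2 * κ) * CP * (B * Y * sK) * ell) := by
          gcongr
          linarith
      _ = 30 * Real.sqrt (2 * κ) * CP * F ^ 2 * (ell ^ 3 * 1) * (B * Y) * (T0 * sK) := by
          rw [hF']; ring
      _ ≤ 30 * Real.sqrt (2 * κ) * CP * F ^ 2 * (ell ^ 3 * ell ^ 2) * (B * Y) * E := by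
          gcongr
          exact one_le_pow₀ hell1
      _ = 30 * Real.sqrt (2 * κ) * CP * F ^ 2 * ell ^ 5 * (B * Y) * E := by ring
  have r2 : CF * F ^ 2 * ell ^ 4 * (c0 * T1 + c1 * ell + c2 * (1 / T0)) ≤
      34 * CF * F ^ 2 * ell ^ 5 * (B * Y) * E := by
    calc CF * F ^ 2 * ell ^ 4 * (c0 * T1 + c1 * ell + c2 * (1 / T0)) ≤
          CF * F ^ 2 * ell ^ 4 * (34 * (B * Y * ell) * E) :=
          mul_le_mul_of_nonneg_left har (by positivity)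
      _ = 34 * CF * F ^ 2 * ell ^ 5 * (B * Y) * E := by ring
  have r3 : 2 * (CF * G * (B / Y) * Sg) ≤
      (30 * Real.sqrt (2 * κ) * CP + 68 * CF) * G * (B / Y) * Sg := by
    have : 2 * CF ≤ 30 * Real.sqrt (2 * κ) * CP + 68 * CF := by
      have : 0 ≤ Real.sqrt (2 * κ) * CP := by positivity
      nlinarith
    calc 2 * (CF * G * (B / Y) * Sg) = 2 * CF * G * (B / Y) * Sg := by ring
      _ ≤ _ := by gcongr
  have e5 : (30 * Real.sqrt (2 * κ) * CP + 68 * CF) * F ^ 2 * ell ^ 5 * (B * Y) * E =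
      30 * Real.sqrt (2 * κ) * CP * F ^ 2 * ell ^ 5 * (B * Y) * E +
        2 * (34 * CF * F ^ 2 * ell ^ 5 * (B * Y) * E) := by ring
  rw [e5]
  linarith [hsplit, hsum, r1, r2, r3]

end VARM

theorem specVAR (hLIN : SpecLIN) (hSML : SpecSML) (hPCN : SpecPCN) (hHTM : SpecHTM)
    (hFNA : SpecFNA) : SpecVAR := by
  classical
  intro κ ρ hκ hρ
  obtain ⟨CF, hCF, HF⟩ := hFNA κ ρ hκ hρ
  obtain ⟨CP, hCP, HP⟩ := hPCN
  refine ⟨30 * Real.sqrt (2 * κ) * CP + 68 * CF, by positivity, ?_⟩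
  intro K Y B η w M F τ T0 T1 Km I J L P S h Z hpar hτ hZ
  have hK : 1 ≤ K := hpar.hK
  have hB : 1 ≤ B := hpar.hB
  have hF : 0 ≤ F := hpar.hF
  have hY : 1 ≤ Y := hpar.hM.trans hpar.hMY
  have hY' : 0 < Y := by linarith
  have hK' : 0 < K := by linarith
  have hB' : 0 < B := by linarith
  have hT0 : (1 : ℝ) ≤ T0 := by exact_mod_cast hpar.hT0
  have hT01 : (T0 : ℝ) ≤ T1 := by exact_mod_cast hpar.hT01
  have hT1Y : (T1 : ℝ) ≤ Y := by
    have h1 := hpar.hBY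
    have : (T1 : ℝ) ≤ 32 * ρ * T1 * B := by
      have h2 : (1 : ℝ) ≤ 32 * ρ * B := by nlinarith [hpar.hρ]
      have h3 : (0 : ℝ) ≤ T1 := by positivity
      nlinarith
    linarith
  have hlog : 0 ≤ Real.log Y := Real.log_nonneg hY
  set ell := 1 + Real.log Y with hell
  have hell1 : 1 ≤ ell := by linarith
  set F' := F * ell with hF'
  have hF'0 : 0 ≤ F' := by positivity
  -- the set of products
  have hSU : SU I J P S ⊆ disc Y := by
    intro x hx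
    unfold SU at hx
    simp only [Finset.mem_biUnion] at hx
    obtain ⟨i, hi, j, hj, hx⟩ := hx
    unfold ms at hx
    simp only [Finset.mem_image, Finset.mem_product] at hx
    obtain ⟨q, ⟨hq1, hq2⟩, rfl⟩ := hx
    rw [mem_disc]
    refine ⟨?_, (hpar.hL' i hi j hj q.1 hq1 q.2 hq2).2.trans (hpar.hL i hi j hj).2⟩
    exact mul_ne_zero (GP_ne_zero (hpar.hP i hi hq1)) (mem_disc.1 (hpar.hS j hj hq2)).1
  have hfU : ∀ z ∈ SU I J P S, ‖fU I J P S h z‖ ≤ F' := by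
    intro z hz
    unfold fU
    refine le_trans (norm_sum_le _ _) (le_trans (Finset.sum_le_sum fun i _ => norm_sum_le _ _) ?_)
    exact hHTM.2 Y F I J P S h hY hF hpar.hP hpar.hPd hpar.hh z (hSU hz)
  have hL := hLIN κ K B Y F' T1 Z (SU I J P S) (fU I J P S h) hκ hK' hB' hF'0 hpar.hT1 hZ hSU hfU
  have hLHS : ∑ z1 ∈ Z, ∑ b ∈ Ioc ⌊B⌋ ⌊2 * B⌋, ‖∑ i ∈ I, ∑ j ∈ J, ∑ p ∈ P i,
        ∑ z ∈ (S j).filter (fun z => (z1 * (p * z)).im = b ∧ 0 < (z1 * (p * z)).re), h j z‖ ^ 2 =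
      ∑ z1 ∈ Z, ∑ b ∈ Ioc ⌊B⌋ ⌊2 * B⌋, ‖ls (SU I J P S) (fU I J P S h) z1 b‖ ^ 2 := by
    refine Finset.sum_congr rfl fun z1 _ => Finset.sum_congr rfl fun b _ => ?_
    rw [VARM.ls_eq]
  rw [hLHS]
  refine hL.trans ?_
  clear hLHS hL
  set pc : ℝ := (pcn (2 * κ * K) Y (4 * B) : ℝ) with hpc
  have hpc0 : 0 ≤ pc := by positivity
  -- square roots
  set sK := Real.sqrt (K / Y) with hsK
  have hsK0 : 0 ≤ sK := Real.sqrt_nonneg _
  have hsK2 : sK ^ 2 = K / Y := Real.sq_sqrt (by positivity)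
  have hKs : K = Y * sK ^ 2 := by rw [hsK2]; field_simp
  have hKY : Real.sqrt (K * Y) = Y * sK := by
    have : K * Y = (Y * sK) ^ 2 := by rw [mul_pow, hsK2]; field_simp
    rw [this, Real.sqrt_sq (by positivity)]
  have hTs : (T1 : ℝ) * sK ≤ 4 := by
    have h1 : ((T1 : ℝ) * sK) ^ 2 ≤ 4 ^ 2 := by
      rw [mul_pow, hsK2]
      have h2 := hpar.hT1'
      rw [← mul_div_assoc, div_le_iff₀ hY']
      linarith
    exact le_of_sq_le_sq h1 (by norm_num)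
  have hpcb : pc ≤ 5 * Real.sqrt (2 * κ) * CP * (B * Y * sK) * ell := by
    have h1 := HP (2 * κ * K) Y (4 * B) hpar.hKY hY (by positivity)
    have h2 : Real.sqrt (2 * κ * K * Y) = Real.sqrt (2 * κ) * (Y * sK) := by
      rw [← hKY, ← Real.sqrt_mul (by positivity)]
      congr 1
      ring
    rw [h2] at h1
    calc pc ≤ CP * (4 * B + 1) * (Real.sqrt (2 * κ) * (Y * sK)) * ell := h1
      _ ≤ CP * (4 * B + B) * (Real.sqrt (2 * κ) * (Y * sK)) * ell := by gcongr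
      _ = 5 * Real.sqrt (2 * κ) * CP * (B * Y * sK) * ell := by ring
  -- splitting of the sum over t
  have hsplit : ∑ t ∈ Icc 1 T1, VT κ K B t (SU I J P S) (fU I J P S h) ≤
      (T0 : ℝ) * (2 * F' ^ 2 * pc) +
        ∑ t ∈ Ioc T0 T1, |VT κ K B t (SU I J P S) (fU I J P S h)| := by
    have hd : Icc 1 T1 = Icc 1 T0 ∪ Ioc T0 T1 := by
      ext t
      simp only [Finset.mem_Icc, Finset.mem_union, Finset.mem_Ioc]
      have := hpar.hT01
      have := hpar.hT0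
      omega
    have hdis : Disjoint (Icc 1 T0) (Ioc T0 T1) := by
      rw [Finset.disjoint_left]
      intro t h1 h2
      simp only [Finset.mem_Icc, Finset.mem_Ioc] at h1 h2
      omega
    rw [hd, Finset.sum_union hdis]
    refine add_le_add ?_ (Finset.sum_le_sum fun t _ => le_abs_self _)
    have h1 : ∀ t ∈ Icc 1 T0, VT κ K B t (SU I J P S) (fU I J P S h) ≤ 2 * F' ^ 2 * pc := by
      intro t ht
      rw [Finset.mem_Icc] at ht
      exact (le_abs_self _).trans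
        (hSML κ K B Y F' t (SU I J P S) (fU I J P S h) hκ hK' hB' hF'0 ht.1 hSU hfU)
    refine (Finset.sum_le_sum h1).trans ?_
    rw [Finset.sum_const, nsmul_eq_mul, Nat.card_Icc]
    simp
  -- the sum over large t
  set G : ℝ := (I.card : ℝ) * J.card with hG
  have hG0 : 0 ≤ G := mul_nonneg (Nat.cast_nonneg _) (Nat.cast_nonneg _)
  set X : ℕ → ℝ := fun t => ∑ i ∈ I, ∑ j ∈ J, ∑ q ∈ atyp t Km τ (P i),
          ‖hat t q.1 q.2 (P i) (fun _ => 1)‖ ^ 2 * ‖hat t q.1 q.2 (S j) (h j)‖ ^ 2 with hX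
  have hX0 : ∀ t, 0 ≤ X t := fun t => Finset.sum_nonneg fun i _ => Finset.sum_nonneg fun j _ =>
    Finset.sum_nonneg fun q _ => mul_nonneg (sq_nonneg _) (sq_nonneg _)
  have hall : ∀ t : ℕ, T0 < t → t ≤ T1 → |VT κ K B t (SU I J P S) (fU I J P S h)| ≤
      CF * F ^ 2 * ell ^ 4 *
        ((η * (Y / ((t : ℝ) ^ 2 * K) + 1) + (t * B / Y) ^ 2 + B ^ 2 / (K * Y)) *
            (Y + B * Y / t) +
          (B * Real.sqrt (K * Y) / w + B * K + Real.sqrt (K * Y)) +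
          G ^ 2 * (τ ^ 2 * (M + B * M ^ 2 / (Y * t)) +
            Y / (t * B * Km) * (Y + B * Y / t))) +
      CF * G * (B / Y) * ((t : ℝ) / ph t) * X t := fun t h1 h2 =>
    HF K Y B η w M F τ T0 T1 Km I J L P S h t hpar hτ h1 h2
  rw [hKY] at hall
  exact VARM.final κ K Y B η w M F τ G CP CF ell sK pc F' T0 T1 Km
    (fun t => VT κ K B t (SU I J P S) (fU I J P S h)) X (fun t => (t : ℝ) / ph t)
    hκ hCP hCF hK hY hB hpar.hη hpar.hw hpar.hM hpar.hKm hell1 hell hsK0 hpar.hT0 hpar.hT01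
    hpar.hTB hT1Y hpar.hT1' hKs hTs hG0 hF' hX0
    (fun t => div_nonneg (Nat.cast_nonneg _) (Nat.cast_nonneg _)) hF hpc0 hpcb hsplit hall

end Pool.Agent.Lib.MP391708.XV
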